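import Pool.Agent.Work.MP_db9399_th_helper59.STRUCT
import Pool.Agent.Work.MP_db9399_bg.Interface

/-!
# MP_db9399, frame of THEOREM OUT: the spots with closure, and the graph outside the spots with the
inner H-edges

`Spots2 θ ζ g`: as `Spots`, almost all spot vertices have at most `θ d` outer neighbours, all have at
most `2 ζ d`, and every vertex outside all spots misses at least `ζ d` vertices of every spot.
`Gout2 G EH Sp`: `G` without the edges inside `Sp` which are not in `EH`.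
-/

set_option autoImplicit false

namespace Pool.Agent.Work.MP_db9399_th.helper59

open Finset Classical
open Pool.Agent.Work.MP_db9399_all (nb)

universe u

/-- spots with closure -/
structure Spots2 {V : Type u} [Fintype V] (θ ζ g : ℝ) (G : SimpleGraph V) (d : ℕ)
    (Ys : Finset (Finset V)) : Prop where
  dis : ∀ Y ∈ Ys, ∀ Y' ∈ Ys, Y ≠ Y' → Disjoint Y Y'
  low : ∀ Y ∈ Ys, (1 - θ) * d ≤ (Y.card : ℝ)
  upp : ∀ Y ∈ Ys, (Y.card : ℝ) ≤ (1 + θ) * d
  out : ∀ Y ∈ Ys, ∀ v ∈ Y, ((nb G v \ Y).card : ℝ) ≤ 2 * ζ * d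
  inn : ∀ Y ∈ Ys, ∀ v ∈ Y, ((Y \ nb G v).card : ℝ) ≤ 2 * ζ * d
  few : ∀ Y ∈ Ys, ((Y.filter (fun v => θ * d < ((nb G v \ Y).card : ℝ) ∨
    θ * d < ((Y \ nb G v).card : ℝ))).card : ℝ) ≤ θ * d
  far : ∀ Y ∈ Ys, ∀ y, (∀ Y' ∈ Ys, y ∉ Y') → ζ * d ≤ ((Y \ nb G y).card : ℝ)
  nsc : ∀ C : Finset V, (∀ Y ∈ Ys, Disjoint C Y) →
    (∀ v ∈ C, (1 - g) * d ≤ ((nb G v).card : ℝ)) → (C.card : ℝ) ≤ (1 + g) * d →
    g * d * C.card ≤ ∑ v ∈ C, ((nb G v \ C).card : ℝ)

/-- closure of a spot -/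
noncomputable def clo {V : Type u} [Fintype V] (ζ : ℝ) (G : SimpleGraph V) (d : ℕ)
    (Ys : Finset (Finset V)) (Y : Finset V) : Finset V :=
  Y ∪ univ.filter (fun y => y ∉ spv Ys ∧ ((Y \ nb G y).card : ℝ) < ζ * d)

theorem mem_clo {V : Type u} [Fintype V] {ζ : ℝ} {G : SimpleGraph V} {d : ℕ}
    {Ys : Finset (Finset V)} {Y : Finset V} {y : V} :
    y ∈ clo ζ G d Ys Y ↔ y ∈ Y ∨ (y ∉ spv Ys ∧ ((Y \ nb G y).card : ℝ) < ζ * d) := by
  unfold clo
  rw [mem_union, mem_filter]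
  constructor
  · rintro (h | ⟨-, h⟩)
    · exact Or.inl h
    · exact Or.inr h
  · rintro (h | h)
    · exact Or.inl h
    · exact Or.inr ⟨mem_univ _, h⟩

/-- STRUCT2: existence of spots with closure. -/
theorem struct2 (ζ θ : ℝ) (hθ : 0 < θ) (hθζ : θ ≤ ζ) (hζ : ζ ≤ 1 / 10) : ∃ g1 : ℝ, 0 < g1 ∧
    g1 ≤ θ ∧ ∀ g : ℝ, 0 < g → g ≤ g1 → ∀ {V : Type u} [Fintype V] (G : SimpleGraph V) (d : ℕ),
      1 ≤ d → (∀ v, (nb G v).card ≤ d) → ∃ Ys : Finset (Finset V), Spots2 θ ζ g G d Ys := by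
  obtain ⟨g1, hg1, hg1θ, H⟩ := struct.{u} (θ / 4) (by positivity) (by linarith)
  refine ⟨g1, hg1, by linarith, ?_⟩
  intro g hg hgg V _ G d hd hdeg
  obtain ⟨Ys, hY⟩ := H g hg hgg G d hd hdeg
  have hd0 : (1 : ℝ) ≤ d := by exact_mod_cast hd
  have hζ0 : 0 < ζ := lt_of_lt_of_le hθ hθζ
  have hθd : 0 < θ * d := by positivity
  have hζd : 0 < ζ * d := by positivity
  have hθζd : θ * d ≤ ζ * d := mul_le_mul_of_nonneg_right hθζ (by positivity)
  have hζd1 : ζ * d ≤ 1 / 10 * d := mul_le_mul_of_nonneg_right hζ (by positivity)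
  have hmem : ∀ Y ∈ Ys, Y ⊆ spv Ys := by
    intro Y hY1 v hv
    exact Finset.mem_biUnion.2 ⟨Y, hY1, hv⟩
  -- degree into the spot of an added vertex
  have hbig : ∀ Y ∈ Ys, ∀ y, ((Y \ nb G y).card : ℝ) < ζ * d →
      (1 - θ / 4) * d - ζ * d ≤ ((nb G y ∩ Y).card : ℝ) := by
    intro Y hY1 y hy
    have h1 := hY.low Y hY1
    have h2 := Finset.card_sdiff_add_card_inter Y (nb G y)
    have h3 : ((Y \ nb G y).card : ℝ) + (Y ∩ nb G y).card = Y.card := by exact_mod_cast h2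
    rw [Finset.inter_comm] at h3
    linarith
  -- few added vertices
  have hadd : ∀ Y ∈ Ys, ((clo ζ G d Ys Y \ Y).card : ℝ) ≤ θ / 2 * d := by
    intro Y hY1
    have h1 : ∑ y ∈ clo ζ G d Ys Y \ Y, ((1 - θ / 4) * d - ζ * d) ≤
        ∑ y ∈ clo ζ G d Ys Y \ Y, ((nb G y ∩ Y).card : ℝ) := by
      refine Finset.sum_le_sum fun y hy => ?_
      obtain ⟨hy1, hy2⟩ := mem_sdiff.1 hy
      rcases mem_clo.1 hy1 with h | h
      · exact absurd h hy2
      · exact hbig Y hY1 y h.2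
    rw [Finset.sum_const, nsmul_eq_mul, STRUCT.dbl] at h1
    have h2 : ∑ b ∈ Y, ((nb G b ∩ (clo ζ G d Ys Y \ Y)).card : ℝ) ≤ ∑ b ∈ Y, (θ / 4 * d) := by
      refine Finset.sum_le_sum fun b hb => ?_
      refine le_trans ?_ (hY.out Y hY1 b hb)
      have : nb G b ∩ (clo ζ G d Ys Y \ Y) ⊆ nb G b \ Y := by
        intro w hw
        obtain ⟨hw1, hw2⟩ := mem_inter.1 hw
        exact mem_sdiff.2 ⟨hw1, (mem_sdiff.1 hw2).2⟩
      exact_mod_cast card_le_card this
    rw [Finset.sum_const, nsmul_eq_mul] at h2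
    have h3 := hY.upp Y hY1
    have hA : (0 : ℝ) ≤ (clo ζ G d Ys Y \ Y).card := Nat.cast_nonneg _
    have h4 : (Y.card : ℝ) * (θ / 4 * d) ≤ (1 + θ / 4) * d * (θ / 4 * d) :=
      mul_le_mul_of_nonneg_right h3 (by positivity)
    have h5 : ((clo ζ G d Ys Y \ Y).card : ℝ) * (17 / 20 * d) ≤
        ((clo ζ G d Ys Y \ Y).card : ℝ) * ((1 - θ / 4) * d - ζ * d) := by
      apply mul_le_mul_of_nonneg_left _ hA
      nlinarith
    have h6 : ((clo ζ G d Ys Y \ Y).card : ℝ) * (17 / 20 * d) ≤ (θ / 2 * d) * (17 / 20 * d) := by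
      have h7 : (1 + θ / 4) * (d : ℝ) * (θ / 4 * d) ≤ (θ / 2 * d) * (17 / 20 * d) := by
        have h8 : (1 + θ / 4) * (θ / 4) ≤ θ / 2 * (17 / 20) := by nlinarith
        have h9 : 0 ≤ (d : ℝ) * d := by positivity
        calc (1 + θ / 4) * (d : ℝ) * (θ / 4 * d) = ((1 + θ / 4) * (θ / 4)) * (d * d) := by ring
          _ ≤ (θ / 2 * (17 / 20)) * (d * d) := mul_le_mul_of_nonneg_right h8 h9
          _ = _ := by ring
      linarith
    exact le_of_mul_le_mul_right h6 (by positivity)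
  -- an added vertex is in one closure only
  have huni : ∀ Y ∈ Ys, ∀ Y' ∈ Ys, Y ≠ Y' → ∀ y, y ∈ clo ζ G d Ys Y → y ∉ clo ζ G d Ys Y' := by
    intro Y hY1 Y' hY2 hne y hy hy'
    rcases mem_clo.1 hy with h | h
    · rcases mem_clo.1 hy' with h' | h'
      · exact Finset.disjoint_left.1 (hY.dis Y hY1 Y' hY2 hne) h h'
      · exact h'.1 (hmem Y hY1 h)
    · rcases mem_clo.1 hy' with h' | h'
      · exact h.1 (hmem Y' hY2 h')
      · have h1 := hbig Y hY1 y h.2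
        have h2 := hbig Y' hY2 y h'.2
        have h3 : (nb G y ∩ Y).card + (nb G y ∩ Y').card ≤ (nb G y).card := by
          rw [← Finset.card_union_of_disjoint]
          · apply card_le_card
            intro x hx
            rcases mem_union.1 hx with hx | hx
            · exact (mem_inter.1 hx).1
            · exact (mem_inter.1 hx).1
          · exact (hY.dis Y hY1 Y' hY2 hne).mono inter_subset_right inter_subset_right
        have h4 := h3.trans (hdeg y)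
        have h5 : ((nb G y ∩ Y).card : ℝ) + (nb G y ∩ Y').card ≤ d := by exact_mod_cast h4
        nlinarith
  have hYc : ∀ Y, Y ⊆ clo ζ G d Ys Y := fun Y => subset_union_left
  have hcard : ∀ Y ∈ Ys, ((clo ζ G d Ys Y).card : ℝ) ≤ Y.card + θ / 2 * d := by
    intro Y hY1
    have h1 := Finset.card_sdiff_add_card_inter (clo ζ G d Ys Y) Y
    rw [Finset.inter_eq_right.2 (hYc Y)] at h1
    have h2 : ((clo ζ G d Ys Y \ Y).card : ℝ) + Y.card = (clo ζ G d Ys Y).card := by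
      exact_mod_cast h1
    linarith [hadd Y hY1]
  have hout0 : ∀ Y ∈ Ys, ∀ v ∈ Y, ((nb G v \ clo ζ G d Ys Y).card : ℝ) ≤ θ / 4 * d := by
    intro Y hY1 v hv
    refine le_trans ?_ (hY.out Y hY1 v hv)
    exact_mod_cast card_le_card (Finset.sdiff_subset_sdiff (Subset.refl _) (hYc Y))
  have hinn0 : ∀ Y ∈ Ys, ∀ v, ((clo ζ G d Ys Y \ nb G v).card : ℝ) ≤
      (Y \ nb G v).card + θ / 2 * d := by
    intro Y hY1 v
    have h1 : clo ζ G d Ys Y \ nb G v ⊆ (Y \ nb G v) ∪ (clo ζ G d Ys Y \ Y) := by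
      intro w hw
      obtain ⟨hw1, hw2⟩ := mem_sdiff.1 hw
      by_cases hwY : w ∈ Y
      · exact mem_union_left _ (mem_sdiff.2 ⟨hwY, hw2⟩)
      · exact mem_union_right _ (mem_sdiff.2 ⟨hw1, hwY⟩)
    have h2 := (card_le_card h1).trans (card_union_le _ _)
    have h3 : ((clo ζ G d Ys Y \ nb G v).card : ℝ) ≤ (Y \ nb G v).card +
      (clo ζ G d Ys Y \ Y).card := by exact_mod_cast h2
    linarith [hadd Y hY1]
  have hspv : ∀ v, v ∈ spv Ys → ∃ Y ∈ Ys, v ∈ clo ζ G d Ys Y := by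
    intro v hv
    obtain ⟨Y, hY1, hvY⟩ := Finset.mem_biUnion.1 hv
    exact ⟨Y, hY1, hYc Y hvY⟩
  refine ⟨Ys.image (clo ζ G d Ys), ?_, ?_, ?_, ?_, ?_, ?_, ?_, ?_⟩
  · intro Z hZ Z' hZ' hne
    obtain ⟨Y, hY1, rfl⟩ := mem_image.1 hZ
    obtain ⟨Y', hY2, rfl⟩ := mem_image.1 hZ'
    rw [Finset.disjoint_left]
    exact fun y => huni Y hY1 Y' hY2 (fun h => hne (by rw [h])) y
  · intro Z hZ
    obtain ⟨Y, hY1, rfl⟩ := mem_image.1 hZ
    have h1 := hY.low Y hY1
    have h2 : (Y.card : ℝ) ≤ (clo ζ G d Ys Y).card := by exact_mod_cast card_le_card (hYc Y)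
    nlinarith
  · intro Z hZ
    obtain ⟨Y, hY1, rfl⟩ := mem_image.1 hZ
    have h1 := hY.upp Y hY1
    have h2 := hcard Y hY1
    nlinarith
  · intro Z hZ v hv
    obtain ⟨Y, hY1, rfl⟩ := mem_image.1 hZ
    rcases mem_clo.1 hv with h | h
    · have h1 := hout0 Y hY1 v h
      nlinarith
    · have h1 := hbig Y hY1 v h.2
      have h2 : (nb G v \ clo ζ G d Ys Y).card + (nb G v ∩ Y).card ≤ (nb G v).card := by
        rw [← Finset.card_union_of_disjoint]
        · apply card_le_card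
          intro x hx
          rcases mem_union.1 hx with hx | hx
          · exact (mem_sdiff.1 hx).1
          · exact (mem_inter.1 hx).1
        · rw [Finset.disjoint_left]
          intro x hx hx'
          exact (mem_sdiff.1 hx).2 (hYc Y (mem_inter.1 hx').2)
      have h3 := h2.trans (hdeg v)
      have h4 : ((nb G v \ clo ζ G d Ys Y).card : ℝ) + (nb G v ∩ Y).card ≤ d := by
        exact_mod_cast h3
      linarith
  · intro Z hZ v hv
    obtain ⟨Y, hY1, rfl⟩ := mem_image.1 hZ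
    have h0 := hinn0 Y hY1 v
    rcases mem_clo.1 hv with h | h
    · have h1 := hY.inn Y hY1 v h
      linarith
    · linarith [h.2]
  · intro Z hZ
    obtain ⟨Y, hY1, rfl⟩ := mem_image.1 hZ
    have h1 : (clo ζ G d Ys Y).filter (fun v => θ * d < ((nb G v \ clo ζ G d Ys Y).card : ℝ) ∨
        θ * d < ((clo ζ G d Ys Y \ nb G v).card : ℝ)) ⊆ clo ζ G d Ys Y \ Y := by
      intro v hv
      obtain ⟨hv1, hv2⟩ := mem_filter.1 hv
      refine mem_sdiff.2 ⟨hv1, fun hvY => ?_⟩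
      have h2 := hout0 Y hY1 v hvY
      have h3 := hinn0 Y hY1 v
      have h4 := hY.inn Y hY1 v hvY
      rcases hv2 with h | h
      · linarith
      · linarith
    have h2 : (((clo ζ G d Ys Y).filter (fun v => θ * d <
        ((nb G v \ clo ζ G d Ys Y).card : ℝ) ∨
        θ * d < ((clo ζ G d Ys Y \ nb G v).card : ℝ))).card : ℝ) ≤
        (clo ζ G d Ys Y \ Y).card := by
      exact_mod_cast card_le_card h1
    linarith [hadd Y hY1]
  · intro Z hZ y hy
    obtain ⟨Y, hY1, rfl⟩ := mem_image.1 hZ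
    have hys : y ∉ spv Ys := by
      intro h
      obtain ⟨Y', hY2, h2⟩ := hspv y h
      exact hy _ (mem_image_of_mem _ hY2) h2
    have hyc : y ∉ clo ζ G d Ys Y := hy _ (mem_image_of_mem _ hY1)
    have h1 : ζ * d ≤ ((Y \ nb G y).card : ℝ) := by
      by_contra h
      push Not at h
      exact hyc (mem_clo.2 (Or.inr ⟨hys, h⟩))
    have h2 : ((Y \ nb G y).card : ℝ) ≤ (clo ζ G d Ys Y \ nb G y).card := by
      exact_mod_cast card_le_card (Finset.sdiff_subset_sdiff (hYc Y) (Subset.refl _))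
    linarith
  · intro C hC hC1 hC2
    refine hY.nsc C ?_ hC1 hC2
    intro Y hY1
    exact (hC _ (mem_image_of_mem _ hY1)).mono_right (hYc Y)

/-- `G` without the edges inside `Sp` which are not in `EH` -/
def Gout2 {V : Type u} (G EH : SimpleGraph V) (Sp : Finset V) : SimpleGraph V where
  Adj v w := G.Adj v w ∧ (v ∈ Sp → w ∈ Sp → EH.Adj v w)
  symm := ⟨fun _ _ h => ⟨h.1.symm, fun h1 h2 => (h.2 h2 h1).symm⟩⟩
  loopless := ⟨fun v h => G.loopless.irrefl v h.1⟩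

/-- The graph outside the spots (with inner H-edges) satisfies the hypotheses of THEOREM OUT. -/
theorem struct_out2 {V : Type u} [Fintype V] {k : ℕ} (θ ζ g g0 : ℝ) (hg : 0 < g)
    (hgg : g ≤ g0) (hζ1 : ζ ≤ 1 / 10) (hθ1 : θ ≤ 1 / 10) (hg1 : g ≤ 1 / 10)
    (G : SimpleGraph V) (d : ℕ) (hd : 2 ≤ d) (UH : Finset V) (c0 : V → Fin k)
    (EH : SimpleGraph V) (tu : V → Fin k) (hH : MP_db9399_bg.HPre G UH c0 EH tu)
    (Ys : Finset (Finset V)) (hY : Spots2 θ ζ g G d Ys) (hdeg : ∀ v, (nb G v).card ≤ d)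
    (hbip : ∀ S T : Finset V, Disjoint S T → (∀ t ∈ T, (1 - g0) * d ≤ ((nb G t).card : ℝ)) →
      (S.card : ℝ) ≤ (1 + g0) * T.card → g0 * d * T.card ≤ ∑ t ∈ T, ((nb G t \ S).card : ℝ)) :
    MP_db9399_bg.HPre (Gout2 G EH (spv Ys)) UH c0 EH tu ∧
    (∀ v, (nb (Gout2 G EH (spv Ys)) v).card ≤ d) ∧
    (∀ s ∈ spv Ys, ((nb (Gout2 G EH (spv Ys)) s).card : ℝ) ≤ 2 * ζ * d + 1) ∧
    (∀ s ∈ spv Ys, ∀ s' ∈ spv Ys, (Gout2 G EH (spv Ys)).Adj s s' → EH.Adj s s') ∧
    (∀ S T : Finset V, Disjoint S T →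
      (∀ t ∈ T, (1 - g) * d ≤ ((nb (Gout2 G EH (spv Ys)) t).card : ℝ)) →
      (S.card : ℝ) ≤ (1 + g) * T.card →
      g * d * T.card ≤ ∑ t ∈ T, ((nb (Gout2 G EH (spv Ys)) t \ S).card : ℝ)) ∧
    (∀ C : Finset V, (∀ v ∈ C, (1 - g) * d ≤ ((nb (Gout2 G EH (spv Ys)) v).card : ℝ)) →
      (C.card : ℝ) ≤ (1 + g) * d →
      g * d * C.card ≤ ∑ v ∈ C, ((nb (Gout2 G EH (spv Ys)) v \ C).card : ℝ)) ∧
    (∀ Y ∈ Ys, Y ⊆ spv Ys ∧ Y.card ≤ 2 * d) ∧
    (∀ v, v ∉ spv Ys → nb (Gout2 G EH (spv Ys)) v = nb G v) ∧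
    (∀ y, y ∉ spv Ys → ∀ Y ∈ Ys, ζ * d ≤ ((Y \ nb (Gout2 G EH (spv Ys)) y).card : ℝ)) := by
  have hd0 : (2 : ℝ) ≤ d := by exact_mod_cast hd
  have hsub : ∀ v, nb (Gout2 G EH (spv Ys)) v ⊆ nb G v := by
    intro v w hw
    simp only [nb, Gout2, mem_filter, mem_univ, true_and] at hw ⊢
    exact hw.1
  have heq : ∀ v, v ∉ spv Ys → nb (Gout2 G EH (spv Ys)) v = nb G v := by
    intro v hv
    apply Finset.Subset.antisymm (hsub v)
    intro w hw
    simp only [nb, Gout2, mem_filter, mem_univ, true_and] at hw ⊢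
    exact ⟨hw, fun h => absurd h hv⟩
  have hmem : ∀ Y ∈ Ys, Y ⊆ spv Ys := by
    intro Y hY1 v hv
    exact Finset.mem_biUnion.2 ⟨Y, hY1, hv⟩
  have hlight : ∀ s ∈ spv Ys, ((nb (Gout2 G EH (spv Ys)) s).card : ℝ) ≤ 2 * ζ * d + 1 := by
    intro s hs
    obtain ⟨Y, hY1, hsY⟩ := Finset.mem_biUnion.1 hs
    have h1 := hY.out Y hY1 s hsY
    have h2 : nb (Gout2 G EH (spv Ys)) s ⊆ (nb G s \ Y) ∪ nb EH s := by
      intro w hw
      simp only [nb, Gout2, mem_filter, mem_univ, true_and] at hw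
      by_cases hwY : w ∈ Y
      · refine mem_union_right _ ?_
        simp only [nb, mem_filter, mem_univ, true_and]
        exact hw.2 hs (hmem Y hY1 hwY)
      · refine mem_union_left _ (mem_sdiff.2 ⟨?_, hwY⟩)
        simp only [nb, mem_filter, mem_univ, true_and]
        exact hw.1
    have h3 : (nb EH s).card ≤ 1 := hH.mat s
    have h4 := (card_le_card h2).trans (card_union_le _ _)
    have h5 : ((nb (Gout2 G EH (spv Ys)) s).card : ℝ) ≤ (nb G s \ Y).card + 1 := by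
      have : (nb (Gout2 G EH (spv Ys)) s).card ≤ (nb G s \ Y).card + 1 := by omega
      exact_mod_cast this
    linarith
  have hfree : ∀ v, (1 - g) * d ≤ ((nb (Gout2 G EH (spv Ys)) v).card : ℝ) → v ∉ spv Ys := by
    intro v hv hs
    have h1 := hlight v hs
    have h2 : ζ * d ≤ 1 / 10 * d := mul_le_mul_of_nonneg_right hζ1 (by positivity)
    nlinarith
  refine ⟨?_, fun v => (card_le_card (hsub v)).trans (hdeg v), hlight, ?_, ?_, ?_, ?_, heq, ?_⟩
  · exact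
      { EG := fun v w h => ⟨hH.EG h, fun _ _ => h⟩
        mat := hH.mat
        EU := hH.EU
        cov := hH.cov
        ind := fun u hu u' hu' h => hH.ind u hu u' hu' h.1
        far := fun v u hu u' hu' h h' => hH.far v u hu u' hu' h.1 h'.1
        cc := hH.cc
        ct := hH.ct
        tt := hH.tt }
  · intro s hs s' hs' h
    exact h.2 hs hs'
  · intro S T hST hT hc
    have h1 : ∀ t ∈ T, nb (Gout2 G EH (spv Ys)) t = nb G t := fun t ht =>
      heq t (hfree t (hT t ht))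
    have h2 : ∑ t ∈ T, ((nb (Gout2 G EH (spv Ys)) t \ S).card : ℝ) =
        ∑ t ∈ T, ((nb G t \ S).card : ℝ) :=
      Finset.sum_congr rfl fun t ht => by rw [h1 t ht]
    rw [h2]
    have hT0 : (0 : ℝ) ≤ T.card := Nat.cast_nonneg _
    have h3 := hbip S T hST (fun t ht => by
      have h4 := hT t ht
      rw [h1 t ht] at h4
      have h5 : (1 - g0) * (d : ℝ) ≤ (1 - g) * d := by
        apply mul_le_mul_of_nonneg_right _ (by positivity)
        linarith
      linarith) (by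
      have : (1 + g) * (T.card : ℝ) ≤ (1 + g0) * T.card := by
        apply mul_le_mul_of_nonneg_right _ hT0
        linarith
      linarith)
    refine le_trans ?_ h3
    apply mul_le_mul_of_nonneg_right _ hT0
    apply mul_le_mul_of_nonneg_right hgg (by positivity)
  · intro C hC hc
    have h1 : ∀ t ∈ C, nb (Gout2 G EH (spv Ys)) t = nb G t := fun t ht =>
      heq t (hfree t (hC t ht))
    have h2 : ∑ t ∈ C, ((nb (Gout2 G EH (spv Ys)) t \ C).card : ℝ) =
        ∑ t ∈ C, ((nb G t \ C).card : ℝ) :=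
      Finset.sum_congr rfl fun t ht => by rw [h1 t ht]
    rw [h2]
    refine hY.nsc C ?_ ?_ hc
    · intro Y hY1
      rw [Finset.disjoint_left]
      intro v hv hvY
      exact hfree v (hC v hv) (hmem Y hY1 hvY)
    · intro v hv
      rw [← h1 v hv]
      exact hC v hv
  · intro Y hY1
    refine ⟨hmem Y hY1, ?_⟩
    have h1 := hY.upp Y hY1
    have h2 : (Y.card : ℝ) ≤ 2 * d := by nlinarith
    exact_mod_cast h2
  · intro y hy Y hY1
    rw [heq y hy]
    exact hY.far Y hY1 y (fun Y' hY2 h => hy (hmem Y' hY2 h))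

end Pool.Agent.Work.MP_db9399_th.helper59
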