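import Pool.Agent.Work.MP_db9399_th.Interface
import Pool.Agent.Work.MP_db9399_all_helper6.LLLI
import Pool.Agent.Work.MP_db9399_px_helper31.PBM
import Pool.Agent.Work.MP_db9399_px_helper31.CNT
import Pool.Agent.Work.MP_db9399_px_helper99.BALL
import Pool.Agent.Work.MP_db9399_px_helper89.WALK

/-!
# MP_db9399, THIN: block EDGX (local lemma over connected pairs of sets)
-/

set_option autoImplicit false

namespace Pool.Agent.Work.MP_db9399_th.helper59

open Finset Classical
open Pool.Agent.Work.MP_db9399_all (nb pr DepOnI PackI)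
open Pool.Agent.Work.MP_db9399_px
open Pool.Agent.Work.MP_db9399_th

universe u

section
variable {V J : Type u} [Fintype V] [Fintype J]

/-- `ed v w` names the edge `v w` -/
structure Ed {V J : Type u} (ed : V → V → J) : Prop where
  sy : ∀ v w, ed v w = ed w v
  inj : ∀ a b v w, ed a b = ed v w → (a = v ∧ b = w) ∨ (a = w ∧ b = v)

/-- the adjacent pairs between `T` and `S` -/
noncomputable def prs (G : SimpleGraph V) (T S : Finset V) : Finset (V × V) :=
  (T ×ˢ S).filter (fun p => G.Adj p.1 p.2)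

/-- those of colour `i` -/
noncomputable def prc {M : ℕ} (ed : V → V → J) (G : SimpleGraph V) (f : J → Fin M) (i : Fin M)
    (T S : Finset V) : Finset (V × V) :=
  (prs G T S).filter (fun p => f (ed p.1 p.2) = i)

theorem ee_eq (G : SimpleGraph V) (T S : Finset V) : ee G T S = ((prs G T S).card : ℝ) := by
  have h : (prs G T S).card = ∑ a ∈ T, (nb G a ∩ S).card := by
    rw [Finset.card_eq_sum_card_fiberwise (s := prs G T S) (f := Prod.fst) (t := T)
      (fun p hp => (mem_product.1 (mem_filter.1 hp).1).1)]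
    refine Finset.sum_congr rfl fun a ha => ?_
    refine Finset.card_bij' (fun p _ => p.2) (fun b _ => (a, b)) ?_ ?_ ?_ ?_
    · intro p hp
      simp only [prs, mem_filter, mem_product] at hp
      simp only [mem_inter, nb, mem_filter, mem_univ, true_and]
      obtain ⟨⟨⟨h1, h2⟩, h3⟩, h4⟩ := hp
      subst h4
      exact ⟨h3, h2⟩
    · intro b hb
      simp only [mem_inter, nb, mem_filter, mem_univ, true_and] at hb
      simp only [prs, mem_filter, mem_product]
      exact ⟨⟨⟨ha, hb.2⟩, hb.1⟩, trivial⟩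
    · intro p hp
      have h4 : p.1 = a := (mem_filter.1 hp).2
      exact Prod.ext h4.symm rfl
    · intro b hb
      rfl
  unfold ee
  rw [h]
  push_cast
  rfl

omit [Fintype J] in
theorem ee_cls {M : ℕ} (ed : V → V → J) (he : Ed ed) (G : SimpleGraph V) (f : J → Fin M)
    (i : Fin M) (T S : Finset V) :
    ee (cls G (fun v w => f (ed v w)) i) T S = ((prc ed G f i T S).card : ℝ) := by
  rw [ee_eq]
  congr 2
  ext p
  simp only [prs, prc, cls, mem_filter, mem_product]
  constructor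
  · rintro ⟨h1, h2, h3, h4⟩
    exact ⟨⟨h1, h2⟩, h3⟩
  · rintro ⟨⟨h1, h2⟩, h3⟩
    exact ⟨h1, h2, h3, by rw [he.sy]; exact h3⟩

theorem card_fix (M : ℕ) (hM : 0 < M) (e : J) (i : Fin M) :
    ((univ.filter (fun f : J → Fin M => f e = i)).card : ℝ) =
      (Fintype.card (J → Fin M) : ℝ) / M := by
  have h1 : univ.filter (fun f : J → Fin M => f e = i) =
      Fintype.piFinset (fun j => if j = e then ({i} : Finset (Fin M)) else univ) := by
    ext f
    simp only [mem_filter, mem_univ, true_and, Fintype.mem_piFinset]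
    constructor
    · intro h j
      by_cases hj : j = e
      · simp [hj, h]
      · simp [hj]
    · intro h
      have := h e
      simpa using this
  have h2 : ∏ j ∈ univ.erase e, (if j = e then ({i} : Finset (Fin M)) else univ).card =
      ∏ j ∈ univ.erase e, M := by
    refine Finset.prod_congr rfl fun j hj => ?_
    have : j ≠ e := (mem_erase.1 hj).1
    simp [this]
  rw [h1, Fintype.card_piFinset, ← Finset.mul_prod_erase univ _ (mem_univ e), h2]
  simp only [if_true, card_singleton, one_mul]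
  rw [Fintype.card_fun, Fintype.card_fin, ← Finset.card_univ, ← Finset.prod_const,
    ← Finset.mul_prod_erase univ (fun _ => M) (mem_univ e)]
  push_cast
  field_simp

theorem avg_prc {M : ℕ} (hM : 0 < M) (ed : V → V → J) (G : SimpleGraph V) (i : Fin M)
    (T S : Finset V) :
    avg (fun f : J → Fin M => ((prc ed G f i T S).card : ℝ)) = ee G T S / M := by
  have h0 : (0 : ℝ) < (Fintype.card (J → Fin M) : ℝ) := by
    have : Nonempty (J → Fin M) := ⟨fun _ => ⟨0, hM⟩⟩
    exact_mod_cast Fintype.card_pos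
  unfold avg
  have h1 : ∑ f : J → Fin M, ((prc ed G f i T S).card : ℝ) =
      ∑ p ∈ prs G T S, ((univ.filter (fun f : J → Fin M => f (ed p.1 p.2) = i)).card : ℝ) := by
    have h2 : ∀ f : J → Fin M, ((prc ed G f i T S).card : ℝ) =
        ∑ p ∈ prs G T S, (if f (ed p.1 p.2) = i then (1 : ℝ) else 0) := by
      intro f
      simp only [prc]
      rw [Finset.card_filter]
      push_cast
      rfl
    rw [Finset.sum_congr rfl (fun f _ => h2 f), Finset.sum_comm]
    refine Finset.sum_congr rfl fun p _ => ?_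
    rw [Finset.card_filter]
    push_cast
    rfl
  rw [h1, Finset.sum_congr rfl (fun p _ => card_fix M hM (ed p.1 p.2) i),
    Finset.sum_const, nsmul_eq_mul, ee_eq]
  field_simp

/-- the number of pairs on the edge `y` -/
noncomputable def cy (ed : V → V → J) (G : SimpleGraph V) (T S : Finset V) (y : J) : ℕ :=
  ((prs G T S).filter (fun p => ed p.1 p.2 = y)).card

omit [Fintype J] in
theorem cy_le (ed : V → V → J) (he : Ed ed) (G : SimpleGraph V) (T S : Finset V) (y : J) :
    cy ed G T S y ≤ 2 := by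
  by_cases h : ∃ a b, ed a b = y
  · obtain ⟨a, b, hab⟩ := h
    refine (Finset.card_le_card (t := {(a, b), (b, a)}) ?_).trans ?_
    · intro p hp
      have h1 := (mem_filter.1 hp).2
      rcases he.inj _ _ _ _ (h1.trans hab.symm) with ⟨h1, h2⟩ | ⟨h1, h2⟩
      · exact mem_insert.2 (Or.inl (Prod.ext h1 h2))
      · exact mem_insert.2 (Or.inr (mem_singleton.2 (Prod.ext h1 h2)))
    · exact Finset.card_le_two
  · have : cy ed G T S y = 0 := by
      unfold cy
      rw [Finset.card_eq_zero, Finset.filter_eq_empty_iff]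
      intro p _ hp
      exact h ⟨_, _, hp⟩
    omega

theorem sum_cy (ed : V → V → J) (G : SimpleGraph V) (T S : Finset V) :
    ∑ y : J, (cy ed G T S y : ℝ) = ee G T S := by
  rw [ee_eq, Finset.card_eq_sum_card_fiberwise (s := prs G T S)
    (f := fun p : V × V => ed p.1 p.2) (t := (univ : Finset J)) (fun p _ => mem_univ _)]
  push_cast
  rfl

/-- concentration -/
theorem conc {M : ℕ} (hM : 0 < M) (ed : V → V → J) (he : Ed ed) (G : SimpleGraph V) (i : Fin M)
    (T S : Finset V) (t s : ℝ) (ht : 0 ≤ t) (hs : 0 < s) (h : 2 * ee G T S ≤ s) :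
    pr (fun f : J → Fin M => t ≤ |((prc ed G f i T S).card : ℝ) - ee G T S / M|) ≤
      2 * Real.exp (-t ^ 2 / (2 * s)) := by
  have key := Pool.Agent.Work.MP_db9399_px.helper31.stmt_PBM (J := J) M
    (fun f => ((prc ed G f i T S).card : ℝ)) (fun y => (cy ed G T S y : ℝ)) s t hM ?_ ?_ hs ht
  · rw [avg_prc hM] at key
    exact key
  · intro y f f' hff
    have hsub : ∀ g g' : J → Fin M, (∀ z, z ≠ y → g z = g' z) →
        (prc ed G g i T S).card ≤ (prc ed G g' i T S).card + cy ed G T S y := by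
      intro g g' hg
      refine (Finset.card_le_card (t := prc ed G g' i T S ∪
        (prs G T S).filter (fun p => ed p.1 p.2 = y)) ?_).trans (Finset.card_union_le _ _)
      intro p hp
      simp only [prc, mem_filter, mem_union] at hp ⊢
      by_cases hy : ed p.1 p.2 = y
      · exact Or.inr ⟨hp.1, hy⟩
      · exact Or.inl ⟨hp.1, by rw [← hg _ hy]; exact hp.2⟩
    have h1 := hsub f f' hff
    have h2 := hsub f' f (fun z hz => (hff z hz).symm)
    rw [abs_le]
    constructor
    · have : ((prc ed G f' i T S).card : ℝ) ≤ (prc ed G f i T S).card + cy ed G T S y := by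
        exact_mod_cast h2
      linarith
    · have : ((prc ed G f i T S).card : ℝ) ≤ (prc ed G f' i T S).card + cy ed G T S y := by
        exact_mod_cast h1
      linarith
  · refine le_trans ?_ h
    rw [← sum_cy ed, Finset.mul_sum]
    refine Finset.sum_le_sum fun y _ => ?_
    have h1 : (cy ed G T S y : ℝ) ≤ 2 := by exact_mod_cast cy_le ed he G T S y
    have h0 : (0 : ℝ) ≤ cy ed G T S y := Nat.cast_nonneg _
    nlinarith


/-! ### packages -/

/-- the edges which meet the ball -/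
noncomputable def Sc (ed : V → V → J) (G : SimpleGraph V) (x : V) (L : ℕ) : Finset J :=
  univ.filter (fun y => ∃ a ∈ lball G L x, ∃ b, ed a b = y)

/-- the coordinates of an event -/
noncomputable def QQ (ed : V → V → J) (G : SimpleGraph V) (x : V) (T S : Finset V) : Finset J :=
  insert (ed x x) ((prs G T S).image (fun p => ed p.1 p.2))

omit [Fintype V] [Fintype J] in
theorem prc_congr {M : ℕ} (ed : V → V → J) (G : SimpleGraph V) (x : V) (i : Fin M)
    (T S : Finset V) (f f' : J → Fin M) (h : ∀ y ∈ QQ ed G x T S, f y = f' y) :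
    prc ed G f i T S = prc ed G f' i T S := by
  unfold prc
  refine Finset.filter_congr fun p hp => ?_
  rw [h _ (mem_insert_of_mem (mem_image_of_mem (fun p : V × V => ed p.1 p.2) hp))]

omit [Fintype J] in
theorem card_QQ (ed : V → V → J) (G : SimpleGraph V) (x : V) (T S : Finset V) :
    ((QQ ed G x T S).card : ℝ) ≤ ee G T S + 1 := by
  rw [ee_eq]
  have h1 : (QQ ed G x T S).card ≤ (prs G T S).card + 1 :=
    (card_insert_le _ _).trans (Nat.add_le_add_right card_image_le 1)
  exact_mod_cast h1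

theorem self_lball (G : SimpleGraph V) (k : ℕ) (v : V) : v ∈ lball G k v :=
  mem_filter.2 ⟨mem_univ _, fun _ => v, fun _ _ => Or.inl rfl, rfl, rfl⟩

theorem QQ_sub (ed : V → V → J) (G : SimpleGraph V) (x : V) (L : ℕ) (T S : Finset V)
    (hT : T ⊆ lball G L x) : QQ ed G x T S ⊆ Sc ed G x L := by
  intro y hy
  simp only [Sc, mem_filter, mem_univ, true_and]
  rcases mem_insert.1 hy with hy | hy
  · exact ⟨x, self_lball G L x, x, hy.symm⟩
  · obtain ⟨p, hp, rfl⟩ := mem_image.1 hy
    exact ⟨p.1, hT (mem_product.1 (mem_filter.1 hp).1).1, p.2, rfl⟩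

theorem ee_le (G : SimpleGraph V) (d : ℕ) (hd : ∀ v, (nb G v).card ≤ d) (T S : Finset V) :
    2 * ee G T S ≤ d * ((T.card : ℝ) + S.card) := by
  have h1 : ∀ A B : Finset V, ee G A B ≤ d * A.card := by
    intro A B
    unfold ee
    have : ∑ a ∈ A, ((nb G a ∩ B).card : ℝ) ≤ ∑ a ∈ A, (d : ℝ) := by
      refine Finset.sum_le_sum fun a _ => ?_
      exact_mod_cast (card_le_card inter_subset_left).trans (hd a)
    rw [Finset.sum_const, nsmul_eq_mul] at this
    linarith
  have h2 : ee G T S = ee G S T := by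
    rw [ee_eq, ee_eq]
    congr 1
    refine Finset.card_bij' (fun p _ => (p.2, p.1)) (fun p _ => (p.2, p.1)) ?_ ?_ ?_ ?_
    · intro p hp
      simp only [prs, mem_filter, mem_product] at hp ⊢
      exact ⟨⟨hp.1.2, hp.1.1⟩, hp.2.symm⟩
    · intro p hp
      simp only [prs, mem_filter, mem_product] at hp ⊢
      exact ⟨⟨hp.1.2, hp.1.1⟩, hp.2.symm⟩
    · intro p _
      rfl
    · intro p _
      rfl
  have h3 := h1 T S
  have h4 := h1 S T
  linarith

theorem ee_nonneg (G : SimpleGraph V) (T S : Finset V) : 0 ≤ ee G T S := by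
  rw [ee_eq]; positivity

theorem pr_le_of_imp {Ω : Type u} [Fintype Ω] {E E' : Ω → Prop} (h : ∀ ω, E ω → E' ω) :
    pr E ≤ pr E' := by
  simp only [pr]
  refine div_le_div_of_nonneg_right ?_ (Nat.cast_nonneg _)
  exact_mod_cast card_le_card (fun ω hω => mem_filter.2 ⟨mem_univ _, h ω (mem_filter.1 hω).2⟩)

theorem pr_nonneg {Ω : Type u} [Fintype Ω] (E : Ω → Prop) : 0 ≤ pr E := by
  simp only [pr]; positivity

theorem pr_false {Ω : Type u} [Fintype Ω] (E : Ω → Prop) (h : ∀ ω, ¬ E ω) : pr E = 0 := by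
  simp only [pr]
  rw [filter_false_of_mem (fun f _ => h f)]
  simp

/-- one event with its weight -/
theorem one_event {M : ℕ} (hM : 0 < M) (ε : ℝ) (he0 : 0 < ε) (he1 : ε ≤ 1) (ed : V → V → J)
    (he : Ed ed) (G : SimpleGraph V) (d : ℕ) (x : V) (i : Fin M) (T S : Finset V) (m : ℝ)
    (hm : 1 ≤ m) (hd1 : 1 ≤ d) (hee : 2 * ee G T S ≤ 2 * (d * m)) (t : ℝ) (ht : t = ε * (d * m)) :
    pr (fun f : J → Fin M => t < |((prc ed G f i T S).card : ℝ) - ee G T S / M|) *
      Real.exp (2 * (ε ^ 2 / 16) * (QQ ed G x T S).card) ≤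
      4 * Real.exp (-(ε ^ 2 / 8 * (d * m))) := by
  have hd0 : (1 : ℝ) ≤ d := by exact_mod_cast hd1
  have hdm : 0 < (d : ℝ) * m := by positivity
  have h1 := conc hM ed he G i T S t (2 * (d * m)) (by rw [ht]; positivity) (by positivity) hee
  have h2 : pr (fun f : J → Fin M => t < |((prc ed G f i T S).card : ℝ) - ee G T S / M|) ≤
      2 * Real.exp (-t ^ 2 / (2 * (2 * (d * m)))) :=
    (pr_le_of_imp fun f hf => hf.le).trans h1
  have h3 : -t ^ 2 / (2 * (2 * ((d : ℝ) * m))) = -(ε ^ 2 / 4 * (d * m)) := by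
    rw [ht]
    have hd' : (d : ℝ) ≠ 0 := by positivity
    have hm' : m ≠ 0 := by positivity
    field_simp
    ring
  rw [h3] at h2
  have h4 : ((QQ ed G x T S).card : ℝ) ≤ d * m + 1 := by
    have := card_QQ ed G x T S
    linarith
  have h5 : 2 * (ε ^ 2 / 16) * ((QQ ed G x T S).card : ℝ) ≤ ε ^ 2 / 8 * (d * m) + 1 / 8 := by
    have h6 : ε ^ 2 ≤ 1 := by nlinarith
    have h7 : 2 * (ε ^ 2 / 16) * ((QQ ed G x T S).card : ℝ) ≤ 2 * (ε ^ 2 / 16) * (d * m + 1) :=
      mul_le_mul_of_nonneg_left h4 (by positivity)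
    nlinarith
  have h8 : Real.exp (1 / 8) ≤ 2 := by
    have h9 : Real.exp (1 / 8) ≤ Real.exp (1 / 2) := Real.exp_le_exp.2 (by norm_num)
    have h10 : Real.exp (1 / 2) ^ 2 = Real.exp 1 := by
      rw [← Real.exp_nat_mul]; norm_num
    have h11 := Real.exp_one_lt_d9
    have h12 : 0 < Real.exp (1 / 2) := Real.exp_pos _
    nlinarith
  calc pr (fun f : J → Fin M => t < |((prc ed G f i T S).card : ℝ) - ee G T S / M|) *
        Real.exp (2 * (ε ^ 2 / 16) * (QQ ed G x T S).card)
      ≤ (2 * Real.exp (-(ε ^ 2 / 4 * (d * m)))) * Real.exp (ε ^ 2 / 8 * (d * m) + 1 / 8) :=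
        mul_le_mul h2 (Real.exp_le_exp.2 h5) (Real.exp_pos _).le (by positivity)
    _ = 2 * Real.exp (1 / 8) * Real.exp (-(ε ^ 2 / 8 * (d * m))) := by
        rw [mul_assoc, ← Real.exp_add, mul_assoc, ← Real.exp_add]
        congr 2
        ring
    _ ≤ 2 * 2 * Real.exp (-(ε ^ 2 / 8 * (d * m))) := by
        apply mul_le_mul_of_nonneg_right _ (Real.exp_pos _).le
        linarith
    _ = _ := by ring

/-- what the package of `(x, L)` gives -/
def PX {M : ℕ} (ε : ℝ) (ed : V → V → J) (G : SimpleGraph V) (d : ℕ) (x : V) (L : ℕ)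
    (f : J → Fin M) : Prop :=
  ∀ c ∈ Codes G x L, ∀ i, L ≤ 8 * (c.1.card + c.2.card) →
    |((prc ed G f i c.1 c.2).card : ℝ) - ee G c.1 c.2 / M| ≤
      ε * (d * ((c.1.card : ℝ) + c.2.card))

/-- what the package of `x` gives -/
def PV {M : ℕ} (ε : ℝ) (ed : V → V → J) (G : SimpleGraph V) (d : ℕ) (x : V)
    (f : J → Fin M) : Prop :=
  ∀ i, |((prc ed G f i {x} (nb G x)).card : ℝ) - ee G {x} (nb G x) / M| ≤ ε * (d * 1)

theorem packX {M : ℕ} (hM : 0 < M) (ε : ℝ) (he0 : 0 < ε) (he1 : ε ≤ 1) (ed : V → V → J)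
    (he : Ed ed) (G : SimpleGraph V) (d : ℕ) (hdeg : ∀ v, (nb G v).card ≤ d) (hd1 : 1 ≤ d)
    (x : V) (L : ℕ) (hL : 1 ≤ L) :
    PackI (ε ^ 2 / 16) (Sc ed G x L)
      ((4 * ((d : ℝ) + 1)) ^ (L + 1) * M * (4 * Real.exp (-(ε ^ 2 / 64 * (d * L)))))
      (PX (M := M) ε ed G d x L) := by
  have hcnt := Pool.Agent.Work.MP_db9399_px.helper31.stmt_CNT G d L x hdeg
  obtain ⟨-, -, -, hb⟩ := Pool.Agent.Work.MP_db9399_px.helper99.stmt_BALL G d hdeg
  have hd0 : (1 : ℝ) ≤ d := by exact_mod_cast hd1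
  refine ⟨{c // c ∈ Codes G x L} × Fin M, inferInstance,
    fun k => QQ ed G x k.1.1.1 k.1.1.2,
    fun k f => L ≤ 8 * (k.1.1.1.card + k.1.1.2.card) ∧
      ε * (d * ((k.1.1.1.card : ℝ) + k.1.1.2.card)) <
        |((prc ed G f k.2 k.1.1.1 k.1.1.2).card : ℝ) - ee G k.1.1.1 k.1.1.2 / M|, ?_, ?_, ?_,
    ?_, ?_⟩
  · intro k f f' h
    have := prc_congr ed G x k.2 k.1.1.1 k.1.1.2 f f' h
    simp only [this]
  · intro k
    exact ⟨_, mem_insert_self _ _⟩
  · intro k
    refine QQ_sub ed G x L _ _ ?_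
    obtain ⟨w, hw, hw0, hc⟩ := (mem_filter.1 k.1.2).2
    intro v hv
    obtain ⟨i, hi, rfl⟩ := hc v (mem_union_left _ hv)
    rw [← hw0]
    exact hb L w hw i hi
  · have hone : ∀ k ∈ (univ : Finset ({c // c ∈ Codes G x L} × Fin M)),
        pr (fun f : J → Fin M => L ≤ 8 * (k.1.1.1.card + k.1.1.2.card) ∧
          ε * (d * ((k.1.1.1.card : ℝ) + k.1.1.2.card)) <
          |((prc ed G f k.2 k.1.1.1 k.1.1.2).card : ℝ) - ee G k.1.1.1 k.1.1.2 / M|) *
          Real.exp (2 * (ε ^ 2 / 16) * ((QQ ed G x k.1.1.1 k.1.1.2).card : ℝ)) ≤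
        4 * Real.exp (-(ε ^ 2 / 64 * (d * L))) := by
      intro k _
      by_cases hk : L ≤ 8 * (k.1.1.1.card + k.1.1.2.card)
      · have hk1 : 1 ≤ k.1.1.1.card + k.1.1.2.card := by omega
        have hk2 : (1 : ℝ) ≤ (k.1.1.1.card : ℝ) + k.1.1.2.card := by exact_mod_cast hk1
        have h1 := ee_le G d hdeg k.1.1.1 k.1.1.2
        have h2 := one_event hM ε he0 he1 ed he G d x k.2 k.1.1.1 k.1.1.2
          ((k.1.1.1.card : ℝ) + k.1.1.2.card) hk2 hd1 (by nlinarith) _ rfl
        refine (mul_le_mul_of_nonneg_right (pr_le_of_imp fun f hf => hf.2)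
          (Real.exp_pos _).le).trans (h2.trans ?_)
        refine mul_le_mul_of_nonneg_left (Real.exp_le_exp.2 ?_) (by norm_num)
        have h3 : (L : ℝ) ≤ 8 * ((k.1.1.1.card : ℝ) + k.1.1.2.card) := by exact_mod_cast hk
        have h4 : (d : ℝ) * L ≤ d * (8 * ((k.1.1.1.card : ℝ) + k.1.1.2.card)) :=
          mul_le_mul_of_nonneg_left h3 (by positivity)
        have h5 : ε ^ 2 / 64 * ((d : ℝ) * L) ≤
            ε ^ 2 / 64 * (d * (8 * ((k.1.1.1.card : ℝ) + k.1.1.2.card))) :=
          mul_le_mul_of_nonneg_left h4 (by positivity)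
        linarith
      · rw [pr_false _ (fun f hf => hk hf.1), zero_mul]
        positivity
    refine (sum_le_card_nsmul _ _ _ hone).trans ?_
    rw [card_univ, Fintype.card_prod, Fintype.card_coe, Fintype.card_fin, nsmul_eq_mul]
    push_cast
    have h1 : ((Codes G x L).card : ℝ) ≤ (4 * ((d : ℝ) + 1)) ^ (L + 1) := by exact_mod_cast hcnt
    have h2 : 0 ≤ 4 * Real.exp (-(ε ^ 2 / 64 * ((d : ℝ) * L))) := by positivity
    refine mul_le_mul_of_nonneg_right ?_ h2
    exact mul_le_mul_of_nonneg_right h1 (by positivity)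
  · intro f hf c hc i hci
    have := hf ⟨⟨c, hc⟩, i⟩
    simp only [not_and, not_lt] at this
    exact this hci

theorem packV {M : ℕ} (hM : 0 < M) (ε : ℝ) (he0 : 0 < ε) (he1 : ε ≤ 1) (ed : V → V → J)
    (he : Ed ed) (G : SimpleGraph V) (d : ℕ) (hdeg : ∀ v, (nb G v).card ≤ d) (hd1 : 1 ≤ d)
    (x : V) :
    PackI (ε ^ 2 / 16) (Sc ed G x 0) (M * (4 * Real.exp (-(ε ^ 2 / 8 * d))))
      (PV (M := M) ε ed G d x) := by
  have hd0 : (1 : ℝ) ≤ d := by exact_mod_cast hd1
  refine ⟨ULift.{u} (Fin M), inferInstance, fun k => QQ ed G x {x} (nb G x),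
    fun k f => ε * (d * 1) <
        |((prc ed G f k.down {x} (nb G x)).card : ℝ) - ee G {x} (nb G x) / M|, ?_, ?_, ?_,
    ?_, ?_⟩
  · intro k f f' h
    have := prc_congr ed G x k.down {x} (nb G x) f f' h
    simp only [this]
  · intro k
    exact ⟨_, mem_insert_self _ _⟩
  · intro k
    refine QQ_sub ed G x 0 _ _ ?_
    intro v hv
    rw [mem_singleton.1 hv]
    exact self_lball G 0 x
  · have hone : ∀ k ∈ (univ : Finset (ULift.{u} (Fin M))),
        pr (fun f : J → Fin M => ε * (d * 1) <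
          |((prc ed G f k.down {x} (nb G x)).card : ℝ) - ee G {x} (nb G x) / M|) *
          Real.exp (2 * (ε ^ 2 / 16) * ((QQ ed G x {x} (nb G x)).card : ℝ)) ≤
        4 * Real.exp (-(ε ^ 2 / 8 * d)) := by
      intro k _
      have h1 : ee G {x} (nb G x) ≤ d := by
        unfold ee
        rw [Finset.sum_singleton]
        exact_mod_cast (card_le_card inter_subset_left).trans (hdeg x)
      have h2 := one_event hM ε he0 he1 ed he G d x k.down {x} (nb G x) 1 le_rfl hd1
        (by nlinarith) _ rfl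
      rw [mul_one] at h2
      simpa using h2
    refine (sum_le_card_nsmul _ _ _ hone).trans ?_
    rw [card_univ, Fintype.card_ulift, Fintype.card_fin, nsmul_eq_mul]
  · intro f hf i
    have := hf ⟨i⟩
    simpa using this

/-- a coordinate `y` is in the scope of few roots -/
theorem roots (ed : V → V → J) (he : Ed ed) (G : SimpleGraph V) (d : ℕ)
    (hd : ∀ v, (nb G v).card ≤ d) (k : ℕ) (y : J) :
    ((univ.filter (fun x => y ∈ Sc ed G x k)).card : ℝ) ≤ 2 * (d + 1) ^ k := by
  obtain ⟨h1, h2, -, -⟩ := Pool.Agent.Work.MP_db9399_px.helper99.stmt_BALL G d hd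
  have h3 : (univ.filter (fun x => y ∈ Sc ed G x k)).card ≤ 2 * (d + 1) ^ k := by
    by_cases hy : ∃ a b, ed a b = y
    · obtain ⟨a, b, hab⟩ := hy
      refine (Finset.card_le_card (t := lball G k a ∪ lball G k b) ?_).trans ?_
      · intro x hx
        simp only [Sc, mem_filter, mem_univ, true_and] at hx
        obtain ⟨a', ha', b', hb'⟩ := hx
        rcases he.inj _ _ _ _ (hb'.trans hab.symm) with ⟨e1, e2⟩ | ⟨e1, e2⟩
        · subst e1
          exact mem_union_left _ (h2 k x _ ha')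
        · subst e1
          exact mem_union_right _ (h2 k x _ ha')
      · refine (card_union_le _ _).trans ?_
        have := h1 k a
        have := h1 k b
        omega
    · have : univ.filter (fun x => y ∈ Sc ed G x k) = ∅ := by
        rw [Finset.filter_eq_empty_iff]
        intro x _ hx
        simp only [Sc, mem_filter, mem_univ, true_and] at hx
        obtain ⟨a', _, b', hb'⟩ := hx
        exact hy ⟨a', b', hb'⟩
      rw [this]
      simp
  exact_mod_cast h3

end

/-! ### numbers -/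

theorem pow_le_exp (k : ℕ) (b c : ℝ) (hb : 0 < b) (hc : 0 < c) :
    ∃ X : ℝ, 1 ≤ X ∧ ∀ x : ℝ, X ≤ x → x ^ k ≤ c * Real.exp (b * x) := by
  have h := (isLittleO_pow_exp_pos_mul_atTop k hb).def hc
  obtain ⟨X, hX⟩ := Filter.eventually_atTop.mp h
  refine ⟨max X 1, le_max_right _ _, ?_⟩
  intro x hx
  have h1 := hX x (le_trans (le_max_left _ _) hx)
  have hx1 : 1 ≤ x := le_trans (le_max_right _ _) hx
  rw [Real.norm_of_nonneg (by positivity), Real.norm_of_nonneg (Real.exp_pos _).le] at h1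
  exact h1

theorem nums (M : ℕ) (hM : 0 < M) (b T : ℝ) (hb : 0 < b) (hT : 0 < T) (hT1 : T ≤ 1) :
    ∃ d0 : ℕ, 1 ≤ d0 ∧ ∀ d : ℕ, d0 ≤ d → ∀ L : ℕ, 1 ≤ L →
      2 * ((d : ℝ) + 1) ^ L * ((4 * ((d : ℝ) + 1)) ^ (L + 1) * M *
        (4 * Real.exp (-(b * (d * L))))) ≤ T / 2 * (1 / 2) ^ L := by
  have hMr : (1 : ℝ) ≤ M := by exact_mod_cast hM
  obtain ⟨X, hX1, hX⟩ := pow_le_exp 3 b (T / (4 * 1024 * M)) hb (by positivity)
  refine ⟨⌈X⌉₊ + 1, by omega, ?_⟩
  intro d hd L hL
  have hdX : X ≤ d := le_trans (Nat.le_ceil _) (by exact_mod_cast (by omega : ⌈X⌉₊ ≤ d))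
  have hd1 : (1 : ℝ) ≤ d := hX1.trans hdX
  have h1 := hX d hdX
  set E : ℝ := Real.exp (-(b * d)) with hE
  have hE0 : 0 < E := Real.exp_pos _
  have hEE : E * Real.exp (b * d) = 1 := by
    rw [hE, ← Real.exp_add]; simp
  have hY : 128 * M * ((d : ℝ) + 1) ^ 3 * E ≤ T / 4 := by
    have h2 : ((d : ℝ) + 1) ^ 3 ≤ 8 * (d : ℝ) ^ 3 := by
      have : ((d : ℝ) + 1) ^ 3 ≤ (2 * (d : ℝ)) ^ 3 :=
        pow_le_pow_left₀ (by linarith) (by linarith) 3
      calc ((d : ℝ) + 1) ^ 3 ≤ (2 * (d : ℝ)) ^ 3 := this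
        _ = _ := by ring
    calc 128 * M * ((d : ℝ) + 1) ^ 3 * E ≤ 128 * M * (8 * (d : ℝ) ^ 3) * E := by
          apply mul_le_mul_of_nonneg_right _ hE0.le
          exact mul_le_mul_of_nonneg_left h2 (by positivity)
      _ ≤ 128 * M * (8 * (T / (4 * 1024 * M) * Real.exp (b * d))) * E := by
          apply mul_le_mul_of_nonneg_right _ hE0.le
          apply mul_le_mul_of_nonneg_left _ (by positivity)
          linarith
      _ = T / 4 * (E * Real.exp (b * d)) := by
          have : (M : ℝ) ≠ 0 := by positivity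
          field_simp
          norm_num
      _ = T / 4 := by rw [hEE, mul_one]
  have hexp : Real.exp (-(b * (d * L))) = E ^ L := by
    rw [hE, ← Real.exp_nat_mul]
    congr 1
    ring
  rw [hexp]
  have hMp : (M : ℝ) ≤ (M : ℝ) ^ L := by
    calc (M : ℝ) = (M : ℝ) ^ 1 := (pow_one _).symm
      _ ≤ (M : ℝ) ^ L := pow_le_pow_right₀ hMr hL
  have h8 : (8 : ℝ) ≤ 8 ^ L := by
    calc (8 : ℝ) = 8 ^ 1 := (pow_one _).symm
      _ ≤ 8 ^ L := pow_le_pow_right₀ (by norm_num) hL
  have h16 : (4 : ℝ) ^ (L + 1) ≤ 16 ^ L := by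
    calc (4 : ℝ) ^ (L + 1) ≤ 4 ^ (2 * L) := pow_le_pow_right₀ (by norm_num) (by omega)
      _ = 16 ^ L := by rw [pow_mul]; norm_num
  have hdp : ((d : ℝ) + 1) ^ (L + 1) ≤ ((d : ℝ) + 1) ^ (2 * L) :=
    pow_le_pow_right₀ (by linarith) (by omega)
  calc 2 * ((d : ℝ) + 1) ^ L * ((4 * ((d : ℝ) + 1)) ^ (L + 1) * M * (4 * E ^ L))
      = 8 * M * 4 ^ (L + 1) * (((d : ℝ) + 1) ^ L * ((d : ℝ) + 1) ^ (L + 1)) * E ^ L := by
        rw [mul_pow]; ring
    _ ≤ 8 ^ L * (M : ℝ) ^ L * 16 ^ L * (((d : ℝ) + 1) ^ L * ((d : ℝ) + 1) ^ (2 * L)) * E ^ L := by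
        apply mul_le_mul_of_nonneg_right _ (by positivity)
        apply mul_le_mul _ _ (by positivity) (by positivity)
        · apply mul_le_mul _ h16 (by positivity) (by positivity)
          exact mul_le_mul h8 hMp (by positivity) (by positivity)
        · exact mul_le_mul_of_nonneg_left hdp (by positivity)
    _ = (128 * M * ((d : ℝ) + 1) ^ 3 * E) ^ L := by
        rw [mul_pow, mul_pow, mul_pow, ← pow_add]
        have e1 : (128 : ℝ) ^ L = 8 ^ L * 16 ^ L := by rw [← mul_pow]; norm_num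
        have e2 : (((d : ℝ) + 1) ^ 3) ^ L = ((d : ℝ) + 1) ^ (L + 2 * L) := by
          rw [← pow_mul]; congr 1; ring
        rw [e1, e2]
        ring
    _ ≤ (T / 4) ^ L := pow_le_pow_left₀ (by positivity) hY L
    _ ≤ T / 2 * (1 / 2) ^ L := by
        obtain ⟨k, rfl⟩ : ∃ k, L = k + 1 := ⟨L - 1, by omega⟩
        have h9 : (T / 4) ^ k ≤ (1 / 2) ^ k := pow_le_pow_left₀ (by positivity) (by linarith) k
        calc (T / 4) ^ (k + 1) = (T / 4) ^ k * (T / 4) := pow_succ _ _
          _ ≤ (1 / 2) ^ k * (T / 4) := mul_le_mul_of_nonneg_right h9 (by positivity)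
          _ = T / 2 * (1 / 2) ^ (k + 1) := by rw [pow_succ]; ring

/-! ### components -/

section
variable {V J : Type u} [Fintype V] [Fintype J]

/-- the part of a set of vertices which is connected to `x` -/
theorem component (G : SimpleGraph V) (U : Finset V) (x : V) (hx : x ∈ U) :
    ∃ U1 : Finset V, U1 ⊆ U ∧ x ∈ U1 ∧ (∀ a ∈ U1, ∀ b ∈ U, b ∉ U1 → ¬ G.Adj a b) ∧
      ∃ w : ℕ → V, LWalk G (8 * U1.card) w ∧ w 0 = x ∧ ∀ v ∈ U1, ∃ i ≤ 8 * U1.card, w i = v := by
  have h0 : ∃ n : ℕ, ∃ U1 : Finset V, U1.card = n ∧ U1 ⊆ U ∧ x ∈ U1 ∧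
      (∀ a ∈ U1, ∀ b ∈ U, b ∉ U1 → ¬ G.Adj a b) :=
    ⟨U.card, U, rfl, Subset.refl _, hx, fun a _ b hb hb' => absurd hb hb'⟩
  obtain ⟨U1, h1, h2, h3, h4⟩ := Nat.find_spec h0
  refine ⟨U1, h2, h3, h4, ?_⟩
  apply Pool.Agent.Work.MP_db9399_px.helper89.stmt_WALK G U1 x h3
  intro U2 hU2 hx2 hne
  by_contra hcon
  have h5 : ∀ a ∈ U2, ∀ b ∈ U, b ∉ U2 → ¬ G.Adj a b := by
    intro a ha b hb hb2 hab
    by_cases hb1 : b ∈ U1
    · apply hcon
      refine ⟨a, ha, b, hb1, hb2, fun j => if j = 0 then a else b, ?_, by simp, by simp⟩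
      intro i _
      rcases Nat.eq_zero_or_pos i with h0 | h0
      · subst h0
        right
        simpa using hab
      · left
        simp [h0.ne']
    · exact h4 a (hU2 ha) b hb hb1 hab
  have h6 := Nat.find_min' h0 ⟨U2, rfl, hU2.trans h2, hx2, h5⟩
  have h7 : U2.card < U1.card := card_lt_card (Finset.ssubset_iff_subset_ne.2 ⟨hU2, hne⟩)
  omega

omit [Fintype J] in
/-- from connected pairs to all pairs -/
theorem all_pairs {M : ℕ} (ε : ℝ) (ed : V → V → J) (G : SimpleGraph V)
    (d : ℕ) (f : J → Fin M) (hf : ∀ x : V, ∀ L, 1 ≤ L → L ≤ 8 * Fintype.card V →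
      PX ε ed G d x L f) (i : Fin M) :
    ∀ n : ℕ, ∀ T S : Finset V, (T ∪ S).card = n →
      |((prc ed G f i T S).card : ℝ) - ee G T S / M| ≤
        ε * (d * ((T.card : ℝ) + S.card)) := by
  intro n
  induction n using Nat.strong_induction_on with
  | _ n ih =>
    intro T S hn
    rcases (T ∪ S).eq_empty_or_nonempty with h0 | ⟨x, hx⟩
    · have hT : T = ∅ := by
        rw [← Finset.subset_empty, ← h0]; exact subset_union_left
      have hS : S = ∅ := by
        rw [← Finset.subset_empty, ← h0]; exact subset_union_right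
      subst hT hS
      simp [ee_eq, prc, prs]
    · obtain ⟨U1, h1, h2, h3, w, hw, hw0, hwc⟩ := component G (T ∪ S) x hx
      set T1 := T ∩ U1
      set S1 := S ∩ U1
      set T2 := T \ U1
      set S2 := S \ U1
      have hU1 : T1 ∪ S1 = U1 := by
        ext v
        simp only [T1, S1, mem_union, mem_inter]
        constructor
        · rintro (h | h)
          · exact h.2
          · exact h.2
        · intro h
          rcases mem_union.1 (h1 h) with h' | h'
          · exact Or.inl ⟨h', h⟩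
          · exact Or.inr ⟨h', h⟩
      have hU1pos : 0 < U1.card := card_pos.2 ⟨x, h2⟩
      have hcode : (T1, S1) ∈ Codes G x (8 * U1.card) := by
        refine mem_filter.2 ⟨mem_univ _, w, hw, hw0, ?_⟩
        intro v hv
        rw [hU1] at hv
        exact hwc v hv
      have hk1 := hf x (8 * U1.card) (by omega)
        (Nat.mul_le_mul_left _ (Finset.card_le_univ _)) (T1, S1) hcode i
        (by
          have : U1.card ≤ T1.card + S1.card := by
            rw [← hU1]; exact card_union_le _ _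
          simp only
          omega)
      simp only at hk1
      have hlt : (T2 ∪ S2).card < n := by
        rw [← hn]
        apply card_lt_card
        refine ⟨?_, fun h => ?_⟩
        · intro v hv
          rcases mem_union.1 hv with h | h
          · exact mem_union_left _ (mem_sdiff.1 h).1
          · exact mem_union_right _ (mem_sdiff.1 h).1
        · have := h hx
          rcases mem_union.1 this with h' | h'
          · exact (mem_sdiff.1 h').2 h2
          · exact (mem_sdiff.1 h').2 h2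
      have hk2 := ih _ hlt T2 S2 rfl
      -- splitting
      have hsplit : prs G T S = prs G T1 S1 ∪ prs G T2 S2 := by
        ext p
        simp only [prs, mem_filter, mem_product, mem_union, T1, S1, T2, S2, mem_inter, mem_sdiff]
        constructor
        · rintro ⟨⟨ha, hb⟩, hab⟩
          by_cases hp1 : p.1 ∈ U1
          · by_cases hp2 : p.2 ∈ U1
            · exact Or.inl ⟨⟨⟨ha, hp1⟩, ⟨hb, hp2⟩⟩, hab⟩
            · exact absurd hab (h3 _ hp1 _ (mem_union_right _ hb) hp2)
          · by_cases hp2 : p.2 ∈ U1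
            · exact absurd hab.symm (h3 _ hp2 _ (mem_union_left _ ha) hp1)
            · exact Or.inr ⟨⟨⟨ha, hp1⟩, ⟨hb, hp2⟩⟩, hab⟩
        · rintro (h | h)
          · exact ⟨⟨h.1.1.1, h.1.2.1⟩, h.2⟩
          · exact ⟨⟨h.1.1.1, h.1.2.1⟩, h.2⟩
      have hdis : Disjoint (prs G T1 S1) (prs G T2 S2) := by
        rw [Finset.disjoint_left]
        intro p hp hp'
        have e1 := (mem_product.1 (mem_filter.1 hp).1).1
        have e2 := (mem_product.1 (mem_filter.1 hp').1).1
        exact (mem_sdiff.1 e2).2 (mem_inter.1 e1).2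
      have hee : ee G T S = ee G T1 S1 + ee G T2 S2 := by
        rw [ee_eq, ee_eq, ee_eq, hsplit, card_union_of_disjoint hdis]
        push_cast
        rfl
      have hprc : ((prc ed G f i T S).card : ℝ) =
          (prc ed G f i T1 S1).card + (prc ed G f i T2 S2).card := by
        have : prc ed G f i T S = prc ed G f i T1 S1 ∪ prc ed G f i T2 S2 := by
          unfold prc
          rw [hsplit, filter_union]
        have hdis2 : Disjoint (prc ed G f i T1 S1) (prc ed G f i T2 S2) :=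
          Finset.disjoint_filter_filter hdis
        rw [this, card_union_of_disjoint hdis2]
        push_cast
        rfl
      have hT : (T.card : ℝ) = T1.card + T2.card := by
        have := Finset.card_inter_add_card_sdiff T U1
        exact_mod_cast this.symm
      have hS : (S.card : ℝ) = S1.card + S2.card := by
        have := Finset.card_inter_add_card_sdiff S U1
        exact_mod_cast this.symm
      have e1 : ((prc ed G f i T S).card : ℝ) - ee G T S / M =
          (((prc ed G f i T1 S1).card : ℝ) - ee G T1 S1 / M) +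
          (((prc ed G f i T2 S2).card : ℝ) - ee G T2 S2 / M) := by
        rw [hee, hprc]; ring
      rw [e1]
      refine (abs_add_le _ _).trans ?_
      have e2 : ε * ((d : ℝ) * ((T.card : ℝ) + S.card)) =
          ε * (d * ((T1.card : ℝ) + S1.card)) + ε * (d * ((T2.card : ℝ) + S2.card)) := by
        rw [hT, hS]; ring
      rw [e2]
      exact add_le_add hk1 hk2

end

/-- the local lemma -/
theorem local_lemma (M : ℕ) (ε' : ℝ) (hM : 0 < M) (he0 : 0 < ε') (he1 : ε' ≤ 1) :
    ∃ d0 : ℕ, 1 ≤ d0 ∧ ∀ {V J : Type u} [Fintype V] [Fintype J] (ed : V → V → J)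
      (G : SimpleGraph V) (d : ℕ), Ed ed → d0 ≤ d → (∀ v, (nb G v).card ≤ d) →
      ∃ f : J → Fin M, (∀ x, PV ε' ed G d x f) ∧
        ∀ x : V, ∀ L, 1 ≤ L → L ≤ 8 * Fintype.card V → PX ε' ed G d x L f := by
  have hMr : (1 : ℝ) ≤ M := by exact_mod_cast hM
  have hT0 : 0 < ε' ^ 2 / 16 := by positivity
  have hT1 : ε' ^ 2 / 16 ≤ 1 / 16 := by nlinarith
  obtain ⟨d0, hd01, HN⟩ := nums M hM (ε' ^ 2 / 64) (ε' ^ 2 / 16) (by positivity) hT0
    (by linarith)
  refine ⟨d0, hd01, ?_⟩
  intro V J _ _ ed G d he hd hdeg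
  have hd1 : 1 ≤ d := hd01.trans hd
  have hd1r : (1 : ℝ) ≤ d := by exact_mod_cast hd1
  set W0 : ℝ := M * (4 * Real.exp (-(ε' ^ 2 / 8 * d))) with hW0
  set WL : ℕ → ℝ := fun L => (4 * ((d : ℝ) + 1)) ^ (L + 1) * M *
    (4 * Real.exp (-(ε' ^ 2 / 64 * (d * L)))) with hWL
  have hW0' : 0 ≤ W0 := by positivity
  have hWL' : ∀ L, 0 ≤ WL L := fun L => by simp only [hWL]; positivity
  have hnum0 : 2 * ((d : ℝ) + 1) ^ 0 * W0 ≤ ε' ^ 2 / 16 / 2 * (1 / 2) ^ 0 := by
    have h1 := HN d hd 1 le_rfl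
    have h2 : Real.exp (-(ε' ^ 2 / 8 * d)) ≤ Real.exp (-(ε' ^ 2 / 64 * (d * (1 : ℕ)))) := by
      apply Real.exp_le_exp.2
      push_cast
      have : 0 ≤ ε' ^ 2 * (d : ℝ) := by positivity
      nlinarith
    have h3 : (1 : ℝ) ≤ ((d : ℝ) + 1) ^ 1 * (4 * ((d : ℝ) + 1)) ^ (1 + 1) := by
      have : (1 : ℝ) ≤ (4 * ((d : ℝ) + 1)) ^ (1 + 1) := one_le_pow₀ (by linarith)
      have h4 : (1 : ℝ) ≤ ((d : ℝ) + 1) ^ 1 := one_le_pow₀ (by linarith)
      nlinarith
    have h5 : 0 < Real.exp (-(ε' ^ 2 / 64 * ((d : ℝ) * (1 : ℕ)))) := Real.exp_pos _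
    rw [hW0, pow_zero, pow_zero, mul_one, mul_one]
    calc 2 * (M * (4 * Real.exp (-(ε' ^ 2 / 8 * (d : ℝ)))))
        ≤ 2 * (M * (4 * Real.exp (-(ε' ^ 2 / 64 * ((d : ℝ) * (1 : ℕ)))))) * 1 := by
          rw [mul_one]
          apply mul_le_mul_of_nonneg_left _ (by norm_num)
          apply mul_le_mul_of_nonneg_left _ (by positivity)
          linarith
      _ ≤ 2 * (M * (4 * Real.exp (-(ε' ^ 2 / 64 * ((d : ℝ) * (1 : ℕ)))))) *
          (((d : ℝ) + 1) ^ 1 * (4 * ((d : ℝ) + 1)) ^ (1 + 1)) := by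
          apply mul_le_mul_of_nonneg_left h3 (by positivity)
      _ = 2 * ((d : ℝ) + 1) ^ 1 * ((4 * ((d : ℝ) + 1)) ^ (1 + 1) * M *
          (4 * Real.exp (-(ε' ^ 2 / 64 * ((d : ℝ) * (1 : ℕ)))))) := by ring
      _ ≤ ε' ^ 2 / 16 / 2 * (1 / 2) ^ 1 := h1
      _ ≤ _ := by linarith
  have key := Pool.Agent.Work.MP_db9399_all.stmt_LLLI J M
    (V × Fin (8 * Fintype.card V + 1)) (ε' ^ 2 / 16)
    (fun r => Sc ed G r.1 r.2)
    (fun r => if (r.2 : ℕ) = 0 then W0 else WL r.2)
    (fun r f => if (r.2 : ℕ) = 0 then PV (M := M) ε' ed G d r.1 f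
      else PX (M := M) ε' ed G d r.1 r.2 f)
    hM hT0.le (by linarith)
    (by
      intro r
      by_cases hr : (r.2 : ℕ) = 0
      · simp only [hr, if_true]
        exact packV hM ε' he0 he1 _ he G d hdeg hd1 r.1
      · simp only [hr, if_false]
        exact packX hM ε' he0 he1 _ he G d hdeg hd1 r.1 r.2 (Nat.one_le_iff_ne_zero.2 hr))
    (by
      intro y
      have h1 : ∑ r ∈ univ.filter (fun r : V × Fin (8 * Fintype.card V + 1) =>
            y ∈ Sc ed G r.1 r.2),
            (if (r.2 : ℕ) = 0 then W0 else WL r.2) =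
          ∑ L : Fin (8 * Fintype.card V + 1), ∑ x : V,
            (if y ∈ Sc ed G x L then
              (if (L : ℕ) = 0 then W0 else WL L) else 0) := by
        rw [Finset.sum_filter, Fintype.sum_prod_type, Finset.sum_comm]
      rw [h1]
      have h2 : ∀ L : Fin (8 * Fintype.card V + 1), (∑ x : V,
            (if y ∈ Sc ed G x L then
              (if (L : ℕ) = 0 then W0 else WL L) else 0)) ≤
            ε' ^ 2 / 16 / 2 * (1 / 2) ^ (L : ℕ) := by
        intro L
        rw [← Finset.sum_filter, Finset.sum_const, nsmul_eq_mul]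
        have hr := roots ed he G d hdeg L y
        by_cases hL : (L : ℕ) = 0
        · simp only [hL, if_true] at hr ⊢
          exact (mul_le_mul_of_nonneg_right hr hW0').trans hnum0
        · simp only [hL, if_false] at hr ⊢
          exact (mul_le_mul_of_nonneg_right hr (hWL' _)).trans
            (HN d hd L (Nat.one_le_iff_ne_zero.2 hL))
      refine (Finset.sum_le_sum fun L _ => h2 L).trans ?_
      rw [← Finset.mul_sum, ← Finset.sum_range (fun L => ((1 : ℝ) / 2) ^ L)]
      have h3 := sum_geometric_two_le (8 * Fintype.card V + 1)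
      nlinarith)
  obtain ⟨f, hf⟩ := key
  refine ⟨f, ?_, ?_⟩
  · intro x
    have h1 := hf (x, ⟨0, by omega⟩)
    simp only [if_true] at h1
    exact h1
  · intro x L hL hL2
    have h1 := hf (x, ⟨L, by omega⟩)
    simp only [Nat.one_le_iff_ne_zero.1 hL, if_false] at h1
    exact h1

/-- Block EDGX. -/
theorem stmt_EDGX : Stmt_EDGX.{u} := by
  intro M ε hM hε
  set ε' : ℝ := min ε 1 with hε'
  have he0 : 0 < ε' := lt_min hε one_pos
  have he1 : ε' ≤ 1 := min_le_right _ _
  have hee' : ε' ≤ ε := min_le_left _ _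
  obtain ⟨d0, hd01, H⟩ := local_lemma.{u} M ε' hM he0 he1
  refine ⟨d0, ?_⟩
  intro V _ G d hd hdeg
  have he : Ed (fun v w : V => s(v, w)) := by
    constructor
    · intro v w
      exact Sym2.eq_swap
    · intro a b v w h
      exact Sym2.eq_iff.1 h
  obtain ⟨f, hfV, hfX⟩ := H (fun v w : V => s(v, w)) G d he hd hdeg
  refine ⟨fun v w => f s(v, w), fun v w => congrArg f Sym2.eq_swap, ?_, ?_⟩
  · intro v i
    have h2 := hfV v i
    have h3 : ((prc (fun v w : V => s(v, w)) G f i {v} (nb G v)).card : ℝ) =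
        (((nb G v).filter (fun w => f s(v, w) = i)).card : ℝ) := by
      congr 1
      refine Finset.card_bij' (fun p _ => p.2) (fun w _ => (v, w)) ?_ ?_ ?_ ?_
      · intro p hp
        simp only [prc, prs, mem_filter, mem_product, mem_singleton] at hp
        obtain ⟨⟨⟨e1, e2⟩, e3⟩, e4⟩ := hp
        rw [e1] at e4
        exact mem_filter.2 ⟨e2, e4⟩
      · intro w hw
        obtain ⟨e1, e2⟩ := mem_filter.1 hw
        simp only [prc, prs, mem_filter, mem_product, mem_singleton]
        exact ⟨⟨⟨trivial, e1⟩, by simpa [nb] using e1⟩, e2⟩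
      · intro p hp
        simp only [prc, prs, mem_filter, mem_product, mem_singleton] at hp
        exact Prod.ext hp.1.1.1.symm rfl
      · intro w hw
        rfl
    have h4 : ee G {v} (nb G v) = ((nb G v).card : ℝ) := by
      unfold ee
      rw [Finset.sum_singleton, Finset.inter_self]
    rw [h3, h4] at h2
    refine h2.trans ?_
    rw [mul_one]
    exact mul_le_mul_of_nonneg_right hee' (by positivity)
  · intro i T S
    have h1 := all_pairs ε' (fun v w : V => s(v, w)) G d f hfX i _ T S rfl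
    rw [ee_cls _ he]
    refine h1.trans ?_
    have h2 : 0 ≤ (d : ℝ) * ((T.card : ℝ) + S.card) := by positivity
    calc ε' * ((d : ℝ) * ((T.card : ℝ) + S.card)) ≤ ε * ((d : ℝ) * ((T.card : ℝ) + S.card)) :=
          mul_le_mul_of_nonneg_right hee' h2
      _ = _ := by ring

end Pool.Agent.Work.MP_db9399_th.helper59
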