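import Pool.Agent.Work.MP_db9399_th_helper59.TYP

/-!
# MP_db9399, THIN with inner H-edges: the spot vertices have at most one neighbour in `Sp`
-/

set_option autoImplicit false

namespace Pool.Agent.Work.MP_db9399_th

open Finset Classical
open Pool.Agent.Work.MP_db9399_all (nb)

/-- `Bdry` with at most one edge inside `Sp` at every vertex of `Sp` -/
structure Bdry2 {V : Type*} [Fintype V] (θ : ℝ) (G : SimpleGraph V) (d : ℕ) (Sp : Finset V)
    (B : SimpleGraph V) : Prop where
  le : B ≤ G
  one : ∀ v w, B.Adj v w → (v ∈ Sp ↔ w ∉ Sp)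
  ind : ∀ v ∈ Sp, (nb G v ∩ Sp).card ≤ 1
  deg : ∀ s ∈ Sp, ((nb B s).card : ℝ) ≤ θ * d
  fak : ∀ y, y ∉ Sp → ((nb G y ∩ Sp) \ nb B y).card ≤ 1

end Pool.Agent.Work.MP_db9399_th

namespace Pool.Agent.Work.MP_db9399_th.helper59

open Finset Classical
open Pool.Agent.Work.MP_db9399_all (nb)
open Pool.Agent.Work.MP_db9399_px (ee)
open Pool.Agent.Work.MP_db9399_lc (BL)
open Pool.Agent.Work.MP_db9399_th

universe u

open TYP

/-- the types (`C` any finite set of types, `ch` the host) -/
theorem types2 (hE : Stmt_EDGX.{u}) (K : ℕ) (th η : ℝ) (hth : 0 < th) (hη : 0 < η)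
    (hK : 0 < K) :
    ∃ (ε0 σ : ℝ) (d0 : ℕ), 0 < ε0 ∧ 0 < σ ∧
    ∀ {V : Type u} [Fintype V] {L C : Type} [Fintype L] [Fintype C] [Nonempty C]
      (G : SimpleGraph V) (d : ℕ)
      (Sp : Finset V) (B : SimpleGraph V) (lb : V → L) (q : L → C → ℝ)
      (φ : C → ℝ) (ch : C), d0 ≤ d → (∀ v, (nb G v).card ≤ d) →
      (∀ v, (1 - ε0) * d ≤ ((nb G v).card : ℝ)) → Bdry2 (th / 100) G d Sp B →
      Fintype.card L = K → (∀ l c, 0 ≤ q l c) → (∀ l, ∑ c, q l c = 1) →
      (∀ c, ∑ l, q l c = Fintype.card L * φ c) → (∀ c, th ≤ φ c) →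
      (∀ y, y ∉ Sp → ∀ l, |(((nb B y).filter (fun s => lb s = l)).card : ℝ) -
        (nb B y).card / K| ≤ σ * d) →
      ∃ ty : V → V → C, (∀ v w, ty v w = ty w v) ∧
        (∀ c v, |((nb (cls G ty c) v).card : ℝ) - φ c * d| ≤ η * d) ∧
        (∀ T S : Finset V, Disjoint T Sp → Disjoint S Sp →
          ee (cls G ty ch) T S ≤ φ ch * ee G T S + η * d * ((T.card : ℝ) + S.card)) ∧
        ∀ y s, B.Adj y s → s ∈ Sp → 0 < q (lb s) (ty y s) := by
  obtain ⟨M0, hM0⟩ := exists_nat_ge (8 * ((K : ℝ) + 1) / η)
  set M : ℕ := M0 + 1 with hMdef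
  have hM : 0 < M := by omega
  have hMr : (0 : ℝ) < M := by exact_mod_cast hM
  have hKr : (0 : ℝ) < K := by exact_mod_cast hK
  have hM1 : 8 * ((K : ℝ) + 1) / η ≤ M := by
    rw [hMdef]; push_cast; linarith
  have hM2 : ((K : ℝ) + 1) / M ≤ η / 8 := by
    rw [div_le_iff₀ hη] at hM1
    rw [div_le_iff₀ hMr]
    linarith
  set ε1 : ℝ := η / (8 * ((K : ℝ) + 1) * M) with hε1
  have hε1p : 0 < ε1 := by positivity
  have hε1M : ((K : ℝ) + 1) * (M * ε1) = η / 8 := by
    rw [hε1]; field_simp
  obtain ⟨dE, hdE⟩ := hE M ε1 hM hε1p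
  obtain ⟨d1, hd1⟩ := exists_nat_ge (16 / η)
  obtain ⟨d2, hd2⟩ := exists_nat_ge (4 / th)
  refine ⟨min (η / 8) (1 / 2), η / (8 * K), max dE (max d1 (max d2 1)), by positivity,
    by positivity, ?_⟩
  intro V _ L C _ _ _ G d Sp B lb q φ ch hd hdeg hlow hB hLK hqpos hqsum hqavg hφ hlab
  have hdE' : dE ≤ d := (le_max_left _ _).trans hd
  have hd1' : d1 ≤ d := ((le_max_left _ _).trans (le_max_right _ _)).trans hd
  have hd2' : d2 ≤ d :=
    ((le_max_left _ _).trans ((le_max_right _ _).trans (le_max_right _ _))).trans hd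
  have hd0' : 1 ≤ d :=
    ((le_max_right _ _).trans ((le_max_right _ _).trans (le_max_right _ _))).trans hd
  have hdr : (1 : ℝ) ≤ d := by exact_mod_cast hd0'
  have hηd : 16 ≤ η * d := by
    have : 16 / η ≤ d := hd1.trans (by exact_mod_cast hd1')
    rw [div_le_iff₀ hη] at this
    linarith
  have hthd : 4 ≤ th * d := by
    have : 4 / th ≤ d := hd2.trans (by exact_mod_cast hd2')
    rw [div_le_iff₀ hth] at this
    linarith
  have hLne : Nonempty L := Fintype.card_pos_iff.1 (by rw [hLK]; exact hK)
  -- the average distribution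
  have hφ0 : ∀ c, 0 ≤ φ c := fun c => hth.le.trans (hφ c)
  have hφ1 : ∑ c, φ c = 1 := by
    have h1 : ∑ c, ∑ l, q l c = (K : ℝ) * ∑ c, φ c := by
      rw [Finset.mul_sum]
      refine Finset.sum_congr rfl fun c _ => ?_
      rw [hqavg c, hLK]
    rw [Finset.sum_comm, Finset.sum_congr rfl (fun l _ => hqsum l), Finset.sum_const,
      Finset.card_univ, hLK, nsmul_eq_mul, mul_one] at h1
    have h2 : (K : ℝ) * (∑ c, φ c - 1) = 0 := by linarith
    rcases mul_eq_zero.1 h2 with h3 | h3
    · exact absurd h3 hKr.ne'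
    · linarith
  have hφle : ∀ c, φ c ≤ 1 := fun c => by
    rw [← hφ1]; exact Finset.single_le_sum (fun c _ => hφ0 c) (mem_univ c)
  obtain ⟨χ0, hχ0, -⟩ := disc φ M hφ0 hφ1
  have hχx : ∀ l, ∃ χ : Fin M → C,
      (∀ c, |((univ.filter (fun i => χ i = c)).card : ℝ) - M * q l c| ≤ 1) ∧
      ∀ i, 0 < q l (χ i) := fun l => disc (q l) M (hqpos l) (hqsum l)
  choose χ hχ hχp using hχx
  -- the uniform colourings
  have hGfd : ∀ v, (nb (Gf G Sp) v).card ≤ d := fun v => by
    refine (card_le_card ?_).trans (hdeg v)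
    intro w hw
    simp only [nb, Gf, mem_filter, mem_univ, true_and] at hw ⊢
    exact hw.1
  have hBld : ∀ l v, (nb (Bl B Sp lb l) v).card ≤ d := fun l v => by
    refine (card_le_card ?_).trans (hdeg v)
    intro w hw
    simp only [nb, Bl, mem_filter, mem_univ, true_and] at hw ⊢
    exact hB.le hw.1
  obtain ⟨f0, hf0s, hf0d, hf0e⟩ := hdE (Gf G Sp) d hdE' hGfd
  have hfx : ∀ l, ∃ f : V → V → Fin M, (∀ v w, f v w = f w v) ∧
      (∀ v i, |(((nb (Bl B Sp lb l) v).filter (fun w => f v w = i)).card : ℝ) -
        (nb (Bl B Sp lb l) v).card / M| ≤ ε1 * d) := fun l => by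
    obtain ⟨f, h1, h2, -⟩ := hdE (Bl B Sp lb l) d hdE' (hBld l)
    exact ⟨f, h1, h2⟩
  choose f hfs hfd using hfx
  -- the fake edges
  have hfake : ∀ s, s ∈ Sp → ∃ τ : V → C, ∀ c,
      |((((nb B s).filter (fun y => χ (lb s) (f (lb s) s y) = c)).card +
        ((nb G s \ nb B s).filter (fun y => τ y = c)).card : ℕ) : ℝ) -
          φ c * (nb G s).card| ≤ 1 := by
    intro s hs
    obtain ⟨m, hm, hm1, -⟩ := round_sum (fun c => φ c * ((nb G s).card : ℝ)) (nb G s).card
      (fun c => mul_nonneg (hφ0 c) (Nat.cast_nonneg _)) (by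
        rw [← Finset.sum_mul, hφ1, one_mul])
    set k : C → ℕ := fun c =>
      ((nb B s).filter (fun y => χ (lb s) (f (lb s) s y) = c)).card with hk
    have hkm : ∀ c, k c ≤ m c := by
      intro c
      have h1 : k c ≤ (nb B s).card := card_le_card (filter_subset _ _)
      have h2 := hB.deg s hs
      have h3 : (1 / 2) * (d : ℝ) ≤ (nb G s).card := by
        refine le_trans ?_ (hlow s)
        apply mul_le_mul_of_nonneg_right _ (by positivity)
        have := min_le_right (η / 8) (1 / 2 : ℝ)
        linarith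
      have h4 := (abs_le.1 (hm1 c)).1
      have h5 : th * ((1 / 2) * (d : ℝ)) ≤ φ c * (nb G s).card :=
        mul_le_mul (hφ c) h3 (by positivity) (hφ0 c)
      have h6 : (k c : ℝ) ≤ (nb B s).card := by exact_mod_cast h1
      have h7 : (k c : ℝ) ≤ m c := by
        nlinarith
      exact_mod_cast h7
    have hksum : ∑ c, k c = (nb B s).card := by
      rw [hk]
      exact (Finset.card_eq_sum_card_fiberwise (fun y _ => mem_univ _)).symm
    have hBsub : nb B s ⊆ nb G s := by
      intro w hw
      simp only [nb, mem_filter, mem_univ, true_and] at hw ⊢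
      exact hB.le hw
    obtain ⟨τ, hτ⟩ := fiber (nb G s \ nb B s) (fun c => m c - k c) (by
      rw [Finset.card_sdiff_of_subset hBsub, ← hm, ← hksum]
      exact Finset.sum_tsub_distrib _ (fun c _ => hkm c))
    refine ⟨τ, fun c => ?_⟩
    rw [hτ c]
    have h8 : k c + (m c - k c) = m c := by
      have := hkm c
      omega
    have h9 := hm1 c
    rw [← h8] at h9
    exact h9
  have hfake' : ∀ s, ∃ τ : V → C, s ∈ Sp → ∀ c,
      |((((nb B s).filter (fun y => χ (lb s) (f (lb s) s y) = c)).card +
        ((nb G s \ nb B s).filter (fun y => τ y = c)).card : ℕ) : ℝ) -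
          φ c * (nb G s).card| ≤ 1 := by
    intro s
    by_cases hs : s ∈ Sp
    · obtain ⟨τ, hτ⟩ := hfake s hs
      exact ⟨τ, fun _ => hτ⟩
    · exact ⟨fun _ => ch, fun h => absurd h hs⟩
  choose τ hτ using hfake'
  -- the types
  set st : V → V → C := fun s y =>
    if B.Adj s y then χ (lb s) (f (lb s) s y) else τ s y with hst
  set ty : V → V → C := fun v w =>
    if v ∈ Sp ∧ w ∉ Sp then st v w else if w ∈ Sp ∧ v ∉ Sp then st w v else χ0 (f0 v w)
    with hty
  have htys : ∀ v w, ty v w = ty w v := by
    intro v w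
    simp only [hty]
    by_cases hv : v ∈ Sp <;> by_cases hw : w ∈ Sp <;> simp [hv, hw, hf0s v w]
  have hty1 : ∀ s y, s ∈ Sp → y ∉ Sp → ty s y = st s y := by
    intro s y hs hy
    simp [hty, hs, hy]
  have hty2 : ∀ v w, v ∉ Sp → w ∉ Sp → ty v w = χ0 (f0 v w) := by
    intro v w hv hw
    simp [hty, hv, hw]
  refine ⟨ty, htys, ?_, ?_, ?_⟩
  · intro c v
    rw [nb_cls G ty htys]
    have hlowv := hlow v
    have hdegv : ((nb G v).card : ℝ) ≤ d := by exact_mod_cast hdeg v
    have hgd : |φ c * ((nb G v).card : ℝ) - φ c * d| ≤ η / 8 * d := by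
      rw [← mul_sub, abs_mul, abs_of_nonneg (hφ0 c)]
      have h1 : |((nb G v).card : ℝ) - d| ≤ η / 8 * d := by
        rw [abs_le]
        constructor
        · have h2 : (1 - η / 8) * (d : ℝ) ≤ (1 - min (η / 8) (1 / 2)) * d := by
            apply mul_le_mul_of_nonneg_right _ (by positivity)
            have := min_le_left (η / 8) (1 / 2 : ℝ)
            linarith
          nlinarith
        · have : 0 ≤ η / 8 * (d : ℝ) := by positivity
          linarith
      calc φ c * |((nb G v).card : ℝ) - d| ≤ 1 * (η / 8 * d) :=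
            mul_le_mul (hφle c) h1 (abs_nonneg _) (by norm_num)
        _ = _ := one_mul _
    by_cases hv : v ∈ Sp
    · -- spot vertices
      obtain ⟨A, hA⟩ : ∃ A : Finset V, A =
          ((nb B v).filter (fun y => χ (lb v) (f (lb v) v y) = c)) ∪
          ((nb G v \ nb B v).filter (fun y => τ v y = c)) := ⟨_, rfl⟩
      obtain ⟨X, hX⟩ : ∃ X : Finset V, X = (nb G v).filter (fun w => ty v w = c) := ⟨_, rfl⟩
      have hXA : ∀ w, w ∉ Sp → (w ∈ X ↔ w ∈ A) := by
        intro w hw'
        rw [hX, hA]
        simp only [mem_filter, mem_union, mem_sdiff]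
        by_cases hw : w ∈ nb G v
        · rw [hty1 v w hv hw']
          by_cases hb : w ∈ nb B v
          · have hb' : B.Adj v w := by simpa [nb] using hb
            simp [hst, hb, hb', hw]
          · have hb' : ¬ B.Adj v w := by simpa [nb] using hb
            simp [hst, hb, hb', hw]
        · have hb : w ∉ nb B v := by
            intro h
            apply hw
            simp only [nb, mem_filter, mem_univ, true_and] at h ⊢
            exact hB.le h
          simp [hw, hb]
      have hAG : A ⊆ nb G v := by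
        rw [hA]
        intro w hw
        rcases mem_union.1 hw with h | h
        · have h1 := (mem_filter.1 h).1
          simp only [nb, mem_filter, mem_univ, true_and] at h1 ⊢
          exact hB.le h1
        · exact (mem_sdiff.1 (mem_filter.1 h).1).1
      have hXG : X ⊆ nb G v := by
        rw [hX]
        exact filter_subset _ _
      have hin := hB.ind v hv
      have hXle : X.card ≤ A.card + 1 := by
        have h1 : X ⊆ A ∪ (nb G v ∩ Sp) := by
          intro w hw
          by_cases hs : w ∈ Sp
          · exact mem_union_right _ (mem_inter.2 ⟨hXG hw, hs⟩)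
          · exact mem_union_left _ ((hXA w hs).1 hw)
        have h2 := (card_le_card h1).trans (card_union_le _ _)
        omega
      have hAle : A.card ≤ X.card + 1 := by
        have h1 : A ⊆ X ∪ (nb G v ∩ Sp) := by
          intro w hw
          by_cases hs : w ∈ Sp
          · exact mem_union_right _ (mem_inter.2 ⟨hAG hw, hs⟩)
          · exact mem_union_left _ ((hXA w hs).2 hw)
        have h2 := (card_le_card h1).trans (card_union_le _ _)
        omega
      have hdis : Disjoint ((nb B v).filter (fun y => χ (lb v) (f (lb v) v y) = c))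
          ((nb G v \ nb B v).filter (fun y => τ v y = c)) := by
        rw [Finset.disjoint_left]
        intro w h2 h3
        exact (mem_sdiff.1 (mem_filter.1 h3).1).2 (mem_filter.1 h2).1
      have hAc : A.card = ((nb B v).filter (fun y => χ (lb v) (f (lb v) v y) = c)).card +
          ((nb G v \ nb B v).filter (fun y => τ v y = c)).card := by
        rw [hA, card_union_of_disjoint hdis]
      have h2 := hτ v hv c
      rw [← hAc] at h2
      have hXle' : (X.card : ℝ) ≤ A.card + 1 := by exact_mod_cast hXle
      have hAle' : (A.card : ℝ) ≤ X.card + 1 := by exact_mod_cast hAle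
      have h2' := abs_le.1 h2
      have h3' := abs_le.1 hgd
      rw [← hX, abs_le]
      constructor
      · linarith [h2'.1, h3'.1]
      · linarith [h2'.2, h3'.2]
    · -- the other vertices
      set X := (nb G v).filter (fun w => ty v w = c) with hX
      -- free edges
      have hXf : X ∩ nb (Gf G Sp) v = (nb (Gf G Sp) v).filter (fun w => χ0 (f0 v w) = c) := by
        ext w
        simp only [hX, mem_inter, mem_filter]
        constructor
        · rintro ⟨⟨h1, h2⟩, h3⟩
          have hw : w ∉ Sp := by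
            simp only [nb, Gf, mem_filter, mem_univ, true_and] at h3
            exact h3.2.2
          exact ⟨h3, by rw [← hty2 v w hv hw]; exact h2⟩
        · rintro ⟨h3, h2⟩
          have h3' := h3
          simp only [nb, Gf, mem_filter, mem_univ, true_and] at h3'
          refine ⟨⟨?_, by rw [hty2 v w hv h3'.2.2]; exact h2⟩, h3⟩
          simp only [nb, mem_filter, mem_univ, true_and]
          exact h3'.1
      have hc0 := count hM (nb (Gf G Sp) v) (f0 v) χ0 c (φ c) (ε1 * d) (hf0d v) (hχ0 c)
      -- boundary edges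
      have hBSp : ∀ w ∈ nb B v, w ∈ Sp := by
        intro w hw
        simp only [nb, mem_filter, mem_univ, true_and] at hw
        by_contra h
        exact hv ((hB.one v w hw).2 h)
      have hBl : ∀ l, nb (Bl B Sp lb l) v = (nb B v).filter (fun w => lb w = l) := by
        intro l
        ext w
        simp only [nb, Bl, mem_filter, mem_univ, true_and]
        constructor
        · rintro ⟨h1, -, h3⟩
          exact ⟨h1, h3 (hBSp w (by simpa [nb] using h1))⟩
        · rintro ⟨h1, h2⟩
          exact ⟨h1, fun h => absurd h hv, fun _ => h2⟩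
      have hXb : ((X ∩ nb B v).card : ℝ) =
          ∑ l, (((nb (Bl B Sp lb l) v).filter (fun w => χ l (f l v w) = c)).card : ℝ) := by
        have h1 : (X ∩ nb B v).card = ∑ l, ((X ∩ nb B v).filter (fun w => lb w = l)).card :=
          Finset.card_eq_sum_card_fiberwise (fun w _ => mem_univ _)
        rw [h1]
        push_cast
        refine Finset.sum_congr rfl fun l _ => ?_
        congr 2
        ext w
        rw [hBl]
        simp only [hX, mem_filter, mem_inter]
        constructor
        · rintro ⟨⟨⟨h2, h3⟩, h4⟩, h5⟩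
          refine ⟨⟨h4, h5⟩, ?_⟩
          have hw := hBSp w h4
          rw [htys, hty1 w v hw hv] at h3
          have hb' : B.Adj w v := by
            have : B.Adj v w := by simpa [nb] using h4
            exact this.symm
          simp only [hst, hb', if_true] at h3
          rw [← h5, hfs]
          exact h3
        · rintro ⟨⟨h4, h5⟩, h3⟩
          have hw := hBSp w h4
          have hb' : B.Adj w v := by
            have : B.Adj v w := by simpa [nb] using h4
            exact this.symm
          refine ⟨⟨⟨?_, ?_⟩, h4⟩, h5⟩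
          · simp only [nb, mem_filter, mem_univ, true_and]
            exact hB.le hb'.symm
          · rw [htys, hty1 w v hw hv]
            simp only [hst, hb', if_true]
            rw [← h5, hfs] at h3
            exact h3
      have hcl : ∀ l, |(((nb (Bl B Sp lb l) v).filter (fun w => χ l (f l v w) = c)).card : ℝ) -
          q l c * ((nb B v).card / K)| ≤ M * (ε1 * d) + d / M + η / (8 * K) * d := by
        intro l
        have h1 := count hM (nb (Bl B Sp lb l) v) (f l v) (χ l) c (q l c) (ε1 * d) (hfd l v)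
          (hχ l c)
        have h2 := hlab v hv l
        rw [← hBl l] at h2
        have hq1 : q l c ≤ 1 := by
          rw [← hqsum l]
          exact Finset.single_le_sum (fun c _ => hqpos l c) (mem_univ c)
        have h3 : |q l c * ((nb (Bl B Sp lb l) v).card : ℝ) - q l c * ((nb B v).card / K)| ≤
            η / (8 * K) * d := by
          rw [← mul_sub, abs_mul, abs_of_nonneg (hqpos l c)]
          calc q l c * |((nb (Bl B Sp lb l) v).card : ℝ) - (nb B v).card / K| ≤
                1 * (η / (8 * K) * d) := mul_le_mul hq1 h2 (abs_nonneg _) (by norm_num)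
            _ = _ := one_mul _
        have h4 : ((nb (Bl B Sp lb l) v).card : ℝ) / M ≤ d / M := by
          apply div_le_div_of_nonneg_right _ hMr.le
          exact_mod_cast hBld l v
        have h5 : (((nb (Bl B Sp lb l) v).filter (fun w => χ l (f l v w) = c)).card : ℝ) -
            q l c * ((nb B v).card / K) =
            ((((nb (Bl B Sp lb l) v).filter (fun w => χ l (f l v w) = c)).card : ℝ) -
              q l c * ((nb (Bl B Sp lb l) v).card : ℝ)) +
            (q l c * ((nb (Bl B Sp lb l) v).card : ℝ) - q l c * ((nb B v).card / K)) := by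
          ring
        rw [h5]
        refine (abs_add_le _ _).trans ?_
        linarith
      have hbsum : |((X ∩ nb B v).card : ℝ) - φ c * (nb B v).card| ≤
          K * (M * (ε1 * d) + d / M + η / (8 * K) * d) := by
        have h1 : φ c * ((nb B v).card : ℝ) = ∑ l, q l c * ((nb B v).card / K) := by
          rw [← Finset.sum_mul, hqavg c, hLK]
          field_simp
        rw [hXb, h1, ← Finset.sum_sub_distrib]
        refine (Finset.abs_sum_le_sum_abs _ _).trans ?_
        refine (Finset.sum_le_sum fun l _ => hcl l).trans ?_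
        rw [Finset.sum_const, Finset.card_univ, hLK, nsmul_eq_mul]
      -- all together
      have hpart : ∀ Y : Finset V, Y ⊆ nb G v → Y.card =
          (Y ∩ nb (Gf G Sp) v).card + (Y ∩ nb B v).card +
            (Y ∩ ((nb G v ∩ Sp) \ nb B v)).card := by
        intro Y hY
        have h1 : Disjoint (Y ∩ nb (Gf G Sp) v) (Y ∩ nb B v) := by
          rw [Finset.disjoint_left]
          intro w h2 h3
          have h4 := (mem_inter.1 h2).2
          simp only [nb, Gf, mem_filter, mem_univ, true_and] at h4
          exact h4.2.2 (hBSp w (mem_inter.1 h3).2)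
        have h2 : Disjoint (Y ∩ nb (Gf G Sp) v ∪ Y ∩ nb B v)
            (Y ∩ ((nb G v ∩ Sp) \ nb B v)) := by
          rw [Finset.disjoint_left]
          intro w h3 h4
          have h5 := mem_sdiff.1 (mem_inter.1 h4).2
          rcases mem_union.1 h3 with h6 | h6
          · have h7 := (mem_inter.1 h6).2
            simp only [nb, Gf, mem_filter, mem_univ, true_and] at h7
            exact h7.2.2 (mem_inter.1 h5.1).2
          · exact h5.2 (mem_inter.1 h6).2
        rw [← card_union_of_disjoint h1, ← card_union_of_disjoint h2]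
        congr 1
        ext w
        simp only [mem_union, mem_inter, mem_sdiff]
        constructor
        · intro hw
          have hw' := hY hw
          by_cases hs : w ∈ Sp
          · by_cases hb : w ∈ nb B v
            · exact Or.inl (Or.inr ⟨hw, hb⟩)
            · exact Or.inr ⟨hw, ⟨hw', hs⟩, hb⟩
          · refine Or.inl (Or.inl ⟨hw, ?_⟩)
            simp only [nb, Gf, mem_filter, mem_univ, true_and] at hw' ⊢
            exact ⟨hw', hv, hs⟩
        · rintro ((h | h) | h)
          · exact h.1
          · exact h.1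
          · exact h.1
      have hpX := hpart X (filter_subset _ _)
      have hpG := hpart (nb G v) (Subset.refl _)
      have hfk := hB.fak v hv
      have hGfsub : nb (Gf G Sp) v ⊆ nb G v := by
        intro w hw
        simp only [nb, Gf, mem_filter, mem_univ, true_and] at hw ⊢
        exact hw.1
      have hBsub : nb B v ⊆ nb G v := by
        intro w hw
        simp only [nb, mem_filter, mem_univ, true_and] at hw ⊢
        exact hB.le hw
      have hfsub : (nb G v ∩ Sp) \ nb B v ⊆ nb G v :=
        sdiff_subset.trans inter_subset_left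
      rw [Finset.inter_eq_right.2 hGfsub, Finset.inter_eq_right.2 hBsub,
        Finset.inter_eq_right.2 hfsub] at hpG
      have hXk : (X ∩ ((nb G v ∩ Sp) \ nb B v)).card ≤ 1 :=
        (card_le_card inter_subset_right).trans hfk
      have hpX' : (X.card : ℝ) = (X ∩ nb (Gf G Sp) v).card + (X ∩ nb B v).card +
          (X ∩ ((nb G v ∩ Sp) \ nb B v)).card := by exact_mod_cast hpX
      have hpG' : ((nb G v).card : ℝ) = (nb (Gf G Sp) v).card + (nb B v).card +
          ((nb G v ∩ Sp) \ nb B v).card := by exact_mod_cast hpG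
      have hXk' : ((X ∩ ((nb G v ∩ Sp) \ nb B v)).card : ℝ) ≤ 1 := by exact_mod_cast hXk
      have hfk' : (((nb G v ∩ Sp) \ nb B v).card : ℝ) ≤ 1 := by exact_mod_cast hfk
      have hX0 : (0 : ℝ) ≤ (X ∩ ((nb G v ∩ Sp) \ nb B v)).card := Nat.cast_nonneg _
      have hf0' : (0 : ℝ) ≤ ((nb G v ∩ Sp) \ nb B v).card := Nat.cast_nonneg _
      rw [← hXf] at hc0
      have hGfM : ((nb (Gf G Sp) v).card : ℝ) / M ≤ d / M := by
        apply div_le_div_of_nonneg_right _ hMr.le
        exact_mod_cast hGfd v
      have hK1 : (K : ℝ) * (η / (8 * K) * d) = η / 8 * d := by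
        field_simp
      have hsum : (M * (ε1 * d) + d / M) + K * (M * (ε1 * d) + d / M + η / (8 * K) * d) ≤
          3 * (η / 8 * d) := by
        have h1 : (M * (ε1 * d) + d / M) + K * (M * (ε1 * d) + d / M + η / (8 * K) * d) =
            (((K : ℝ) + 1) * (M * ε1)) * d + (((K : ℝ) + 1) / M) * d +
              K * (η / (8 * K) * d) := by
          ring
        rw [h1, hε1M, hK1]
        have h2 : (((K : ℝ) + 1) / M) * d ≤ η / 8 * d :=
          mul_le_mul_of_nonneg_right hM2 (by positivity)
        linarith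
      have hff : |φ c * ((((nb G v ∩ Sp) \ nb B v).card : ℕ) : ℝ)| ≤ 1 := by
        rw [abs_of_nonneg (mul_nonneg (hφ0 c) hf0')]
        calc φ c * ((((nb G v ∩ Sp) \ nb B v).card : ℕ) : ℝ) ≤ 1 * 1 :=
              mul_le_mul (hφle c) hfk' hf0' (by norm_num)
          _ = 1 := by norm_num
      have h1 := abs_le.1 hc0
      have h2 := abs_le.1 hbsum
      have h3 := abs_le.1 hgd
      have h4 := abs_le.1 hff
      rw [hpG'] at h3
      rw [hpX', abs_le]
      constructor <;> nlinarith [h1.1, h1.2, h2.1, h2.2, h3.1, h3.2, h4.1, h4.2]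
  · intro T S hT hS
    have hTS : ee (cls G ty ch) T S =
        ee (cls (Gf G Sp) (fun v w => χ0 (f0 v w)) ch) T S := by
      unfold ee
      refine Finset.sum_congr rfl fun a ha => ?_
      congr 2
      ext w
      have ha' : a ∉ Sp := Finset.disjoint_left.1 hT ha
      simp only [nb, cls, Gf, mem_inter, mem_filter, mem_univ, true_and]
      constructor
      · rintro ⟨⟨h1, h2, h3⟩, h4⟩
        have hw : w ∉ Sp := Finset.disjoint_left.1 hS h4
        refine ⟨⟨⟨h1, ha', hw⟩, ?_, ?_⟩, h4⟩
        · rw [← hty2 a w ha' hw]; exact h2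
        · rw [← hty2 w a hw ha']; exact h3
      · rintro ⟨⟨⟨h1, h5, h6⟩, h2, h3⟩, h4⟩
        refine ⟨⟨h1, ?_, ?_⟩, h4⟩
        · rw [hty2 a w ha' h6]; exact h2
        · rw [hty2 w a h6 ha']; exact h3
    have hGG : ee (Gf G Sp) T S = ee G T S := by
      unfold ee
      refine Finset.sum_congr rfl fun a ha => ?_
      congr 2
      ext w
      have ha' : a ∉ Sp := Finset.disjoint_left.1 hT ha
      simp only [nb, Gf, mem_inter, mem_filter, mem_univ, true_and]
      constructor
      · rintro ⟨⟨h1, -, -⟩, h4⟩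
        exact ⟨h1, h4⟩
      · rintro ⟨h1, h4⟩
        exact ⟨⟨h1, ha', Finset.disjoint_left.1 hS h4⟩, h4⟩
    have hdT : ee (Gf G Sp) T S ≤ d * ((T.card : ℝ) + S.card) := by
      have h1 : ee (Gf G Sp) T S ≤ d * T.card := by
        unfold ee
        have : ∑ a ∈ T, ((nb (Gf G Sp) a ∩ S).card : ℝ) ≤ ∑ a ∈ T, (d : ℝ) := by
          refine Finset.sum_le_sum fun a _ => ?_
          exact_mod_cast (card_le_card inter_subset_left).trans (hGfd a)
        rw [Finset.sum_const, nsmul_eq_mul] at this
        linarith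
      have h2 : (0 : ℝ) ≤ d * S.card := by positivity
      linarith
    have h1 := ee_count hM (Gf G Sp) f0 hf0s χ0 ch (φ ch) (ε1 * d * ((T.card : ℝ) + S.card))
      T S (d * ((T.card : ℝ) + S.card)) (fun i => hf0e i T S) (hχ0 ch) hdT
    rw [hTS]
    refine h1.trans ?_
    rw [hGG]
    have hX : (0 : ℝ) ≤ d * ((T.card : ℝ) + S.card) := by positivity
    have hMe : (M : ℝ) * ε1 ≤ η / 8 := by
      have h2 : (M : ℝ) * ε1 ≤ ((K : ℝ) + 1) * (M * ε1) := by
        have : 0 ≤ (M : ℝ) * ε1 := by positivity
        nlinarith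
      linarith
    have h1M : (1 : ℝ) / M ≤ η / 8 := by
      refine le_trans ?_ hM2
      apply div_le_div_of_nonneg_right _ hMr.le
      linarith
    have h2 : (M : ℝ) * (ε1 * d * ((T.card : ℝ) + S.card)) ≤
        η / 8 * (d * ((T.card : ℝ) + S.card)) := by
      calc (M : ℝ) * (ε1 * d * ((T.card : ℝ) + S.card)) =
            (M * ε1) * (d * ((T.card : ℝ) + S.card)) := by ring
        _ ≤ _ := mul_le_mul_of_nonneg_right hMe hX
    have h3 : (d : ℝ) * ((T.card : ℝ) + S.card) / M ≤ η / 8 * (d * ((T.card : ℝ) + S.card)) := by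
      calc (d : ℝ) * ((T.card : ℝ) + S.card) / M = (1 / M) * (d * ((T.card : ℝ) + S.card)) := by
            ring
        _ ≤ _ := mul_le_mul_of_nonneg_right h1M hX
    have h4 : 0 ≤ η * (d * ((T.card : ℝ) + S.card)) := by positivity
    linarith
  · intro y s hys hs
    have hy : y ∉ Sp := fun h => ((hB.one y s hys).1 h) hs
    rw [htys, hty1 s y hs hy]
    simp only [hst, hys.symm, if_true]
    exact hχp _ _

end Pool.Agent.Work.MP_db9399_th.helper59
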