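import Pool.Agent.Work.MP_db9399_th_helper59.HOSTOF
import Pool.Agent.Work.MP_db9399_th_helper59.TYP2

/-!
# MP_db9399, THIN with inner H-edges: the host inherits bip and nsc
-/

set_option autoImplicit false

namespace Pool.Agent.Work.MP_db9399_th.helper59

open Finset Classical
open Pool.Agent.Work.MP_db9399_all (nb)
open Pool.Agent.Work.MP_db9399_px (ee)
open Pool.Agent.Work.MP_db9399_lc (BL)
open Pool.Agent.Work.MP_db9399_th

universe u

namespace HOSTOF

variable {V : Type u} [Fintype V]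

/-- the edges between vertices outside `Sp` and vertices of `Sp` -/
theorem cross2 (θ : ℝ) (G H B : SimpleGraph V) (d : ℕ) (Sp : Finset V) (hHG : H ≤ G)
    (hB : Bdry2 θ G d Sp B) (T S : Finset V) (hT : Disjoint T Sp) (hS : S ⊆ Sp) :
    ee H T S ≤ θ * d * S.card + T.card := by
  have h1 : ee H T S ≤ ee B T S + T.card := by
    unfold ee
    have : ((T.card : ℕ) : ℝ) = ∑ t ∈ T, (1 : ℝ) := by simp
    rw [this, ← Finset.sum_add_distrib]
    refine Finset.sum_le_sum fun y hy => ?_
    have hy' : y ∉ Sp := Finset.disjoint_left.1 hT hy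
    have h2 := hB.fak y hy'
    have h3 : nb H y ∩ S ⊆ (nb B y ∩ S) ∪ ((nb G y ∩ Sp) \ nb B y) := by
      intro s hs
      obtain ⟨hs1, hs2⟩ := mem_inter.1 hs
      have hs3 : s ∈ nb G y := by
        simp only [nb, mem_filter, mem_univ, true_and] at hs1 ⊢
        exact hHG hs1
      by_cases hb : s ∈ nb B y
      · exact mem_union_left _ (mem_inter.2 ⟨hb, hs2⟩)
      · exact mem_union_right _ (mem_sdiff.2 ⟨mem_inter.2 ⟨hs3, hS hs2⟩, hb⟩)
    have h4 := (card_le_card h3).trans (card_union_le _ _)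
    have h5 : (nb H y ∩ S).card ≤ (nb B y ∩ S).card + 1 := by omega
    exact_mod_cast h5
  have h2 : ee B T S ≤ θ * d * S.card := by
    rw [ee_symm]
    unfold ee
    have : ∑ a ∈ S, ((nb B a ∩ T).card : ℝ) ≤ ∑ a ∈ S, (θ * d) := by
      refine Finset.sum_le_sum fun a ha => ?_
      have h3 : ((nb B a ∩ T).card : ℝ) ≤ (nb B a).card := by
        exact_mod_cast card_le_card inter_subset_left
      exact h3.trans (hB.deg a (hS ha))
    rw [Finset.sum_const, nsmul_eq_mul] at this
    linarith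
  linarith

theorem host_of2 (g ε0 ρ ε2 θ : ℝ) (G H B : SimpleGraph V) (d D : ℕ) (Sp : Finset V) (hg : 0 < g)
    (hg1 : g ≤ 1 / 10) (hHG : H ≤ G) (hBL : BL g ε0 G d) (hB : Bdry2 θ G d Sp B) (hρ0 : 0 ≤ ρ)
    (hρD : ρ * d ≤ D) (hθ : 100 * (θ * d) ≤ D) (hdeg : ∀ v, (nb H v).card ≤ D)
    (hlow : ∀ v, (1 - g / 20) * D ≤ ((nb H v).card : ℝ))
    (hkey : ∀ T S : Finset V, Disjoint T Sp → Disjoint S Sp →
      ee H T S ≤ ρ * ee G T S + ε2 * d * ((T.card : ℝ) + S.card))
    (hε2 : 0 ≤ ε2) (h1 : 3 * (ε2 * d) ≤ g / 20 * D) (h2 : 6 ≤ g / 20 * D) :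
    (∀ S T : Finset V, Disjoint S T → (S.card : ℝ) ≤ (1 + g / 20) * T.card →
      g / 20 * D * T.card ≤ ∑ t ∈ T, ((nb H t \ S).card : ℝ)) ∧
    ∀ C : Finset V, (C.card : ℝ) ≤ (1 + g) * d →
      g / 20 * D * C.card ≤ ∑ v ∈ C, ((nb H v \ C).card : ℝ) := by
  have hD0 : (0 : ℝ) ≤ D := Nat.cast_nonneg _
  have hd0 : (0 : ℝ) ≤ d := Nat.cast_nonneg _
  have hHlow : ∀ T : Finset V, (1 - g / 20) * D * T.card ≤ ∑ t ∈ T, ((nb H t).card : ℝ) := by
    intro T
    have : ∑ t ∈ T, ((1 - g / 20) * (D : ℝ)) ≤ ∑ t ∈ T, ((nb H t).card : ℝ) :=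
      Finset.sum_le_sum fun t _ => hlow t
    rw [Finset.sum_const, nsmul_eq_mul] at this
    linarith
  have hGdeg : ∀ T : Finset V, ∑ t ∈ T, ((nb G t).card : ℝ) ≤ d * T.card := by
    intro T
    have : ∑ t ∈ T, ((nb G t).card : ℝ) ≤ ∑ t ∈ T, (d : ℝ) :=
      Finset.sum_le_sum fun t _ => by exact_mod_cast hBL.deg t
    rw [Finset.sum_const, nsmul_eq_mul] at this
    linarith
  -- decomposition of a set
  have hdec : ∀ T : Finset V, T = (T \ Sp) ∪ (T ∩ Sp) ∧ Disjoint (T \ Sp) (T ∩ Sp) ∧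
      Disjoint (T \ Sp) Sp ∧ (T.card : ℝ) = (T \ Sp).card + (T ∩ Sp).card := by
    intro T
    refine ⟨(Finset.sdiff_union_inter T Sp).symm, Finset.disjoint_sdiff_inter T Sp,
      Finset.sdiff_disjoint, ?_⟩
    have := Finset.card_sdiff_add_card_inter T Sp
    exact_mod_cast this.symm
  have hindep : ∀ T S : Finset V, ee H (T ∩ Sp) (S ∩ Sp) ≤ (T ∩ Sp).card := by
    intro T S
    unfold ee
    have h0 : ((((T ∩ Sp).card : ℕ)) : ℝ) = ∑ a ∈ T ∩ Sp, (1 : ℝ) := by simp
    rw [h0]
    refine Finset.sum_le_sum fun a ha => ?_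
    have h1 := hB.ind a (mem_inter.1 ha).2
    have h3 : (nb H a ∩ (S ∩ Sp)).card ≤ 1 := by
      refine le_trans (card_le_card ?_) h1
      intro b hb
      obtain ⟨hb1, hb2⟩ := mem_inter.1 hb
      refine mem_inter.2 ⟨?_, (mem_inter.1 hb2).2⟩
      simp only [nb, mem_filter, mem_univ, true_and] at hb1 ⊢
      exact hHG hb1
    exact_mod_cast h3
  have hc1 : ∀ T S : Finset V, ee H (T \ Sp) (S ∩ Sp) ≤
      θ * d * (S ∩ Sp).card + (T \ Sp).card := fun T S =>
    cross2 θ G H B d Sp hHG hB _ _ Finset.sdiff_disjoint Finset.inter_subset_right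
  have hc2 : ∀ T S : Finset V, ee H (T ∩ Sp) (S \ Sp) ≤
      θ * d * (T ∩ Sp).card + (S \ Sp).card := fun T S => by
    rw [ee_symm]
    exact cross2 θ G H B d Sp hHG hB _ _ Finset.sdiff_disjoint Finset.inter_subset_right
  have hsplit : ∀ T S : Finset V, ee H T S ≤ ee H (T \ Sp) S + ee H (T ∩ Sp) (S \ Sp) +
      (T ∩ Sp).card := by
    intro T S
    obtain ⟨e1, e2, -, -⟩ := hdec T
    obtain ⟨e3, e4, -, -⟩ := hdec S
    have h3 : ee H T S = ee H (T \ Sp) S + ee H (T ∩ Sp) S := by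
      conv_lhs => rw [e1]
      exact ee_add_left H _ _ _ e2
    have h4 : ee H (T ∩ Sp) S = ee H (T ∩ Sp) (S \ Sp) + ee H (T ∩ Sp) (S ∩ Sp) := by
      conv_lhs => rw [e3]
      exact ee_add_right H _ _ _ e4
    rw [h3, h4]
    linarith [hindep T S]
  have hsplit2 : ∀ T S : Finset V, ee H (T \ Sp) S =
      ee H (T \ Sp) (S \ Sp) + ee H (T \ Sp) (S ∩ Sp) := by
    intro T S
    obtain ⟨e3, e4, -, -⟩ := hdec S
    conv_lhs => rw [e3]
    exact ee_add_right H _ _ _ e4
  constructor
  · intro S T hST hc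
    rw [sum_sdiff_eq]
    have hlowT := hHlow T
    obtain ⟨-, -, -, hTc⟩ := hdec T
    obtain ⟨-, -, -, hSc⟩ := hdec S
    set Ts : ℝ := ((T ∩ Sp).card : ℝ) with hTs
    set Tf : ℝ := ((T \ Sp).card : ℝ) with hTf
    set Ss : ℝ := ((S ∩ Sp).card : ℝ) with hSs
    set Sf : ℝ := ((S \ Sp).card : ℝ) with hSf
    have hTs0 : 0 ≤ Ts := Nat.cast_nonneg _
    have hTf0 : 0 ≤ Tf := Nat.cast_nonneg _
    have hSs0 : 0 ≤ Ss := Nat.cast_nonneg _
    have hSf0 : 0 ≤ Sf := Nat.cast_nonneg _
    have hT0 : (0 : ℝ) ≤ T.card := Nat.cast_nonneg _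
    have hS2 : (S.card : ℝ) ≤ 2 * T.card := by nlinarith
    have h3T : 6 * (T.card : ℝ) ≤ g / 20 * D * T.card := mul_le_mul_of_nonneg_right h2 hT0
    -- the goal: ee H T S is at most (1 - 2 (g / 20)) D |T|
    suffices hgoal : ee H T S ≤ (1 - 2 * (g / 20)) * D * T.card by nlinarith
    by_cases hi : 8 * (g / 20) * T.card ≤ Ts
    · have e1 := hsplit T S
      have e2 : ee H (T \ Sp) S ≤ D * Tf := ee_deg H D hdeg _ _
      have e3 := hc2 T S
      have e4 : θ * d * Ts ≤ D / 100 * Ts := by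
        apply mul_le_mul_of_nonneg_right _ hTs0
        linarith
      have e5 : (D : ℝ) / 2 * (8 * (g / 20) * T.card) ≤ D / 2 * Ts :=
        mul_le_mul_of_nonneg_left hi (by linarith)
      have e6 : ee H T S ≤ D * Tf + (D / 100 * Ts + Sf) + Ts := by
        linarith
      have e7 : (D : ℝ) * T.card = D * Tf + D * Ts := by rw [hTc]; ring
      have e8 : (0 : ℝ) ≤ D * Ts := mul_nonneg hD0 hTs0
      nlinarith
    · push Not at hi
      by_cases hii : 8 * (g / 20) * T.card ≤ Ss
      · have e1 : ee H T S = ee H S T := ee_symm _ _ _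
        have e2 := hsplit S T
        have e3 : ee H (S \ Sp) T ≤ D * Sf := ee_deg H D hdeg _ _
        have e4 := hc2 S T
        have e5 : θ * d * Ss ≤ D / 100 * Ss := by
          apply mul_le_mul_of_nonneg_right _ hSs0
          linarith
        have e6 : (D : ℝ) / 2 * (8 * (g / 20) * T.card) ≤ D / 2 * Ss :=
          mul_le_mul_of_nonneg_left hii (by linarith)
        have e7 : ee H T S ≤ D * Sf + (D / 100 * Ss + Tf) + Ss := by
          rw [e1]
          linarith
        have e8 : (D : ℝ) * S.card = D * Sf + D * Ss := by rw [hSc]; ring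
        have e9 : (D : ℝ) * S.card ≤ D * ((1 + g / 20) * T.card) :=
          mul_le_mul_of_nonneg_left hc hD0
        have e10 : (0 : ℝ) ≤ D * Ss := mul_nonneg hD0 hSs0
        nlinarith
      · push Not at hii
        have e1 := hsplit T S
        have e2 := hsplit2 T S
        have e3 := hc1 T S
        have e4 := hc2 T S
        have e5 : θ * d * Ss ≤ D / 100 * Ss := by
          apply mul_le_mul_of_nonneg_right _ hSs0
          linarith
        have e6 : θ * d * Ts ≤ D / 100 * Ts := by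
          apply mul_le_mul_of_nonneg_right _ hTs0
          linarith
        have e5' : (D : ℝ) / 100 * Ss ≤ D / 100 * (8 * (g / 20) * T.card) :=
          mul_le_mul_of_nonneg_left hii.le (by linarith)
        have e6' : (D : ℝ) / 100 * Ts ≤ D / 100 * (8 * (g / 20) * T.card) :=
          mul_le_mul_of_nonneg_left hi.le (by linarith)
        have hcard : ((S \ Sp).card : ℝ) ≤ (1 + g) * (T \ Sp).card := by
          rw [← hSf, ← hTf]
          have e7 : (1 - 8 * (g / 20)) * T.card ≤ Tf := by linarith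
          have e8 : (1 + g / 20) * T.card ≤ (1 + g) * ((1 - 8 * (g / 20)) * T.card) := by
            have : (1 + g / 20) ≤ (1 + g) * (1 - 8 * (g / 20)) := by nlinarith
            calc (1 + g / 20) * (T.card : ℝ) ≤ ((1 + g) * (1 - 8 * (g / 20))) * T.card :=
                  mul_le_mul_of_nonneg_right this hT0
              _ = _ := by ring
          have e9 : (1 + g) * ((1 - 8 * (g / 20)) * T.card) ≤ (1 + g) * Tf :=
            mul_le_mul_of_nonneg_left e7 (by linarith)
          linarith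
        have hdis : Disjoint (S \ Sp) (T \ Sp) :=
          hST.mono Finset.sdiff_subset Finset.sdiff_subset
        have e10 := hBL.bip (S \ Sp) (T \ Sp) hdis hcard
        rw [sum_sdiff_eq] at e10
        have e11 := hGdeg (T \ Sp)
        have e12 : ee G (T \ Sp) (S \ Sp) ≤ (1 - g) * d * Tf := by
          rw [hTf]
          nlinarith
        have e13 := hkey (T \ Sp) (S \ Sp) Finset.sdiff_disjoint Finset.sdiff_disjoint
        have e14 : ρ * ee G (T \ Sp) (S \ Sp) ≤ (1 - g) * D * Tf := by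
          calc ρ * ee G (T \ Sp) (S \ Sp) ≤ ρ * ((1 - g) * d * Tf) :=
                mul_le_mul_of_nonneg_left e12 hρ0
            _ = (1 - g) * Tf * (ρ * d) := by ring
            _ ≤ (1 - g) * Tf * D := by
                apply mul_le_mul_of_nonneg_left hρD
                apply mul_nonneg (by linarith) hTf0
            _ = _ := by ring
        have e15 : (1 - g) * D * Tf ≤ (1 - g) * D * T.card := by
          apply mul_le_mul_of_nonneg_left (by linarith)
          apply mul_nonneg (by linarith) hD0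
        have e16 : ε2 * d * (Tf + Sf) ≤ ε2 * d * (3 * T.card) := by
          apply mul_le_mul_of_nonneg_left (by linarith)
          positivity
        have e17 : 3 * (ε2 * d) * T.card ≤ g / 20 * D * T.card :=
          mul_le_mul_of_nonneg_right h1 hT0
        have e18 : ee H T S ≤ (1 - g) * D * T.card + ε2 * d * (3 * T.card) +
            (D / 100 * (8 * (g / 20) * T.card) + Tf) + (D / 100 * (8 * (g / 20) * T.card) + Sf) +
              Ts := by
          linarith
        have e19 : (0 : ℝ) ≤ g * (D * T.card) := mul_nonneg hg.le (mul_nonneg hD0 hT0)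
        nlinarith
  · intro C hC
    rw [sum_sdiff_eq]
    have hlowC := hHlow C
    obtain ⟨-, -, -, hCc⟩ := hdec C
    set Cs : ℝ := ((C ∩ Sp).card : ℝ) with hCs
    set Cf : ℝ := ((C \ Sp).card : ℝ) with hCf
    have hCs0 : 0 ≤ Cs := Nat.cast_nonneg _
    have hCf0 : 0 ≤ Cf := Nat.cast_nonneg _
    have hC0 : (0 : ℝ) ≤ C.card := Nat.cast_nonneg _
    have h3C : 6 * (C.card : ℝ) ≤ g / 20 * D * C.card := mul_le_mul_of_nonneg_right h2 hC0
    suffices hgoal : ee H C C ≤ (1 - 2 * (g / 20)) * D * C.card by nlinarith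
    have e1 := hsplit C C
    have e2 := hsplit2 C C
    have e3 := hc1 C C
    have e4 := hc2 C C
    have e5 : θ * d * Cs ≤ D / 100 * Cs := by
      apply mul_le_mul_of_nonneg_right _ hCs0
      linarith
    have hcard : ((C \ Sp).card : ℝ) ≤ (1 + g) * d := by
      rw [← hCf]; linarith
    have e10 := hBL.nsc (C \ Sp) hcard
    rw [sum_sdiff_eq] at e10
    have e11 := hGdeg (C \ Sp)
    have e12 : ee G (C \ Sp) (C \ Sp) ≤ (1 - g) * d * Cf := by
      rw [hCf]
      nlinarith
    have e13 := hkey (C \ Sp) (C \ Sp) Finset.sdiff_disjoint Finset.sdiff_disjoint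
    have e14 : ρ * ee G (C \ Sp) (C \ Sp) ≤ (1 - g) * D * Cf := by
      calc ρ * ee G (C \ Sp) (C \ Sp) ≤ ρ * ((1 - g) * d * Cf) :=
            mul_le_mul_of_nonneg_left e12 hρ0
        _ = (1 - g) * Cf * (ρ * d) := by ring
        _ ≤ (1 - g) * Cf * D := by
            apply mul_le_mul_of_nonneg_left hρD
            apply mul_nonneg (by linarith) hCf0
        _ = _ := by ring
    have e16 : ε2 * d * (Cf + Cf) ≤ ε2 * d * (3 * C.card) := by
      apply mul_le_mul_of_nonneg_left (by linarith)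
      positivity
    have e17 : 3 * (ε2 * d) * C.card ≤ g / 20 * D * C.card :=
      mul_le_mul_of_nonneg_right h1 hC0
    have e18 : ee H C C ≤ (1 - g) * D * Cf + ε2 * d * (3 * C.card) +
        (D / 100 * Cs + Cf) + (D / 100 * Cs + Cf) + Cs := by
      linarith
    have e19 : (D : ℝ) / 50 * Cs ≤ (1 - g) * D * Cs := by
      have : (D : ℝ) / 50 ≤ (1 - g) * D := by nlinarith
      exact mul_le_mul_of_nonneg_right this hCs0
    have e20 : (1 - g) * (D : ℝ) * C.card = (1 - g) * D * Cf + (1 - g) * D * Cs := by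
      rw [hCc]; ring
    have e21 : (0 : ℝ) ≤ g * (D * C.card) := mul_nonneg hg.le (mul_nonneg hD0 hC0)
    nlinarith

end HOSTOF

end Pool.Agent.Work.MP_db9399_th.helper59
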