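import Pool.Agent.Work.MP_db9399_th_helper59.THIN2
import Pool.Agent.Work.MP_db9399_th_helper59.EDGX
import Pool.Agent.Work.MP_db9399_ot.Interface

/-!
# MP_db9399, THIN in the form used by THEOREM OUT: host and `n` classes of the same
degree, with inner H-edges
-/

set_option autoImplicit false

namespace Pool.Agent.Work.MP_db9399_th.helper59

open Finset Classical
open Pool.Agent.Work.MP_db9399_all (nb)
open Pool.Agent.Work.MP_db9399_lc (BL)
open Pool.Agent.Work.MP_db9399_th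

universe u

/-- `THIN` for `n + 1` types of the same density: `H` the host, `Gc i` the classes -/
theorem thin_uniform2 (n K : ℕ) (g ε : ℝ) (hg : 0 < g) (hg1 : g ≤ 1 / 10) (hε : 0 < ε)
    (hK : 0 < K) (hn0 : 0 < n) :
    ∃ (ε0 σ : ℝ) (d0 : ℕ), 0 < ε0 ∧ 0 < σ ∧
    ∀ {V : Type u} [Fintype V] {L : Type} [Fintype L] (G : SimpleGraph V) (d : ℕ)
      (Sp : Finset V) (B : SimpleGraph V) (lb : V → L) (q : L → Option (Fin n) → ℝ),
      d0 ≤ d → BL g ε0 G d → Bdry2 (1 / (100 * ((n : ℝ) + 1))) G d Sp B →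
      Fintype.card L = K → Kern q (fun _ => 1 / ((n : ℝ) + 1)) →
      (∀ y, y ∉ Sp → ∀ l, |(((nb B y).filter (fun s => lb s = l)).card : ℝ) -
        (nb B y).card / K| ≤ σ * d) →
      ∃ (H : SimpleGraph V) (Gc : Fin n → SimpleGraph V) (D : ℕ),
        MP_db9399_ot.BH (g / 20) ε ((1 + g) * d) H D ∧ MP_db9399_ot.Cls ε G H Gc d D ∧ D ≤ d ∧
        (∀ v, |((nb H v).card : ℝ) - d / ((n : ℝ) + 1)| ≤ ε * d) ∧
        ∀ y s, B.Adj y s → s ∈ Sp → (H.Adj y s → 0 < q (lb s) none) ∧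
          ∀ i, (Gc i).Adj y s → 0 < q (lb s) (some i) := by
  have hn : (0 : ℝ) < (n : ℝ) + 1 := by positivity
  set ε1 : ℝ := min ε 1 / (4 * ((n : ℝ) + 1)) with hε1
  have hm : 0 < min ε 1 := lt_min hε one_pos
  have hε1p : 0 < ε1 := by positivity
  have hε1m : 4 * (((n : ℝ) + 1) * ε1) = min ε 1 := by
    rw [hε1]; field_simp
  have hmε : min ε 1 ≤ ε := min_le_left _ _
  have hm1 : min ε 1 ≤ 1 := min_le_right _ _
  have hε1ε : ε1 ≤ ε := by nlinarith
  obtain ⟨ε0, σ, d0, hε0, hσ, H⟩ := stmt_THIN2 stmt_EDGX n K g (1 / ((n : ℝ) + 1)) ε1 hg hg1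
    (by positivity) hε1p hK
  refine ⟨ε0, σ, d0, hε0, hσ, ?_⟩
  intro V _ L _ G d Sp B lb q hd hBL hB hLK hq hlab
  have hB' : Bdry2 (1 / ((n : ℝ) + 1) / 100) G d Sp B := by
    have : 1 / ((n : ℝ) + 1) / 100 = 1 / (100 * ((n : ℝ) + 1)) := by
      field_simp
    rw [this]
    exact hB
  obtain ⟨ty, D, hty, hdeg, hDρ, hhost, hsup⟩ := H G d Sp B lb q (fun _ => 1 / ((n : ℝ) + 1)) hd
    hBL hB' hLK hq (fun _ => le_rfl) hlab
  have hdn : (0 : ℝ) ≤ d := Nat.cast_nonneg _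
  have hDn : (0 : ℝ) ≤ D := Nat.cast_nonneg _
  have hDa := abs_le.1 hDρ
  have hDlow : (3 / 4) * (1 / ((n : ℝ) + 1) * d) ≤ D := by
    have h1 : ε1 * d ≤ (1 / 4) * (1 / ((n : ℝ) + 1) * d) := by
      have : ε1 ≤ 1 / (4 * ((n : ℝ) + 1)) := by
        rw [hε1]
        exact div_le_div_of_nonneg_right hm1 (by positivity)
      calc ε1 * d ≤ (1 / (4 * ((n : ℝ) + 1))) * d := mul_le_mul_of_nonneg_right this hdn
        _ = _ := by field_simp
    linarith [hDa.1]
  have hεD : 2 * (ε1 * d) ≤ ε * D := by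
    have h1 : ε * ((3 / 4) * (1 / ((n : ℝ) + 1) * d)) ≤ ε * D :=
      mul_le_mul_of_nonneg_left hDlow hε.le
    have h2 : 2 * (ε1 * d) ≤ ε * ((3 / 4) * (1 / ((n : ℝ) + 1) * d)) := by
      have h3 : 2 * ε1 ≤ ε * (3 / 4) * (1 / ((n : ℝ) + 1)) := by
        rw [mul_one_div, le_div_iff₀ hn]
        nlinarith
      calc 2 * (ε1 * d) = 2 * ε1 * d := by ring
        _ ≤ ε * (3 / 4) * (1 / ((n : ℝ) + 1)) * d := mul_le_mul_of_nonneg_right h3 hdn
        _ = _ := by ring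
    linarith
  refine ⟨cls G ty none, fun i => cls G ty (some i), D, ?_, ?_, ?_, ?_, ?_⟩
  · refine ⟨hhost.deg, ?_, hhost.bip, hhost.nsc, hhost.big⟩
    intro v
    refine le_trans ?_ (hhost.low v)
    apply mul_le_mul_of_nonneg_right _ hDn
    linarith
  · refine ⟨fun v w h => h.1, fun i v w h => h.1, ?_, ?_, ?_, ?_, ?_⟩
    · intro v w hvw
      rcases h : ty v w with _ | i
      · exact Or.inl ⟨hvw, h, by rw [hty]; exact h⟩
      · exact Or.inr ⟨i, hvw, h, by rw [hty]; exact h⟩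
    · rintro i v w ⟨-, h1, -⟩ ⟨-, h2, -⟩
      rw [h1] at h2
      simp at h2
    · rintro i j hij v w ⟨-, h1, -⟩ ⟨-, h2, -⟩
      rw [h1] at h2
      exact hij (by simpa using h2)
    · intro i v
      have h1 := abs_le.1 (hdeg (some i) v)
      rw [abs_le]
      constructor <;> linarith [h1.1, h1.2, hDa.1, hDa.2]
    · have h1 : ((n : ℝ) + 1) * D - d = ((n : ℝ) + 1) * ((D : ℝ) - 1 / ((n : ℝ) + 1) * d) := by
        field_simp
      rw [h1, abs_mul, abs_of_pos hn]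
      calc ((n : ℝ) + 1) * |(D : ℝ) - 1 / ((n : ℝ) + 1) * d| ≤ ((n : ℝ) + 1) * (ε1 * d) :=
            mul_le_mul_of_nonneg_left hDρ hn.le
        _ = (((n : ℝ) + 1) * ε1) * d := by ring
        _ ≤ ε * d := by
            apply mul_le_mul_of_nonneg_right _ hdn
            linarith
  · -- `D ≤ d`
    have hn1 : (1 : ℝ) ≤ n := by exact_mod_cast hn0
    have h1 : 1 / ((n : ℝ) + 1) * d ≤ (1 / 2) * d := by
      apply mul_le_mul_of_nonneg_right _ hdn
      rw [div_le_div_iff₀ hn (by norm_num)]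
      linarith
    have h2 : ε1 * d ≤ (1 / 4) * d := by
      apply mul_le_mul_of_nonneg_right _ hdn
      nlinarith
    have h3 : (D : ℝ) ≤ d := by linarith [hDa.2]
    exact_mod_cast h3
  · intro v
    have h1 := hdeg none v
    have h2 : 1 / ((n : ℝ) + 1) * (d : ℝ) = d / ((n : ℝ) + 1) := by ring
    rw [h2] at h1
    refine h1.trans ?_
    exact mul_le_mul_of_nonneg_right hε1ε hdn
  · intro y s hys hs
    refine ⟨fun h => ?_, fun i h => ?_⟩
    · have h1 := hsup y s hys hs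
      rw [h.2.1] at h1
      exact h1
    · have h1 := hsup y s hys hs
      rw [h.2.1] at h1
      exact h1

end Pool.Agent.Work.MP_db9399_th.helper59
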