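import Pool.Agent.Work.MP_db9399_ot_helper1.OUTR
import Pool.Agent.Work.MP_db9399_ot_helper1.MAIN
import Pool.Agent.Work.MP_db9399_th_helper59.THINU2

/-!
# THEOREM OUTD: THEOREM OUT with a conflict graph, the edges inside `Sp` may be edges of `EH`

(adaptation of helper1's OUTR and MAIN to `thin_uniform2`)
-/

set_option autoImplicit false
set_option linter.unusedSectionVars false

namespace Pool.Agent.Work.MP_db9399_ot

open Finset Classical
open Pool.Agent.Work.MP_db9399_all (nb)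
open Pool.Agent.Work.MP_db9399_dn (NB IsMat Tot)
open Pool.Agent.Work.MP_db9399_bg (HPre LabP Ix)
open _root_.MP_db9399_co

universe u

/-- THEOREM OUTD = THEOREM OUTC, where the edges of `G` inside `Sp` are edges of `EH`. -/
def Stmt_OUTD : Prop :=
  ∀ (δ π : ℝ), 0 < δ → 0 < π → π < 1 / 3 → ∃ θ : ℝ, 0 < θ ∧ θ ≤ 1 / 100 ∧ ∀ g : ℝ, 0 < g →
    g ≤ 1 / 10 → ∃ (ε : ℝ) (d0 : ℕ), 0 < ε ∧ ∀ {V : Type u} [Fintype V] (G Cf : SimpleGraph V)
      (d k : ℕ) (Sp : Finset V) (Ys : Finset (Finset V)) (UH : Finset V) (c0 : V → Fin k)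
      (EH : SimpleGraph V) (tu : V → Fin k), d0 ≤ d → d ≤ Fintype.card V → d + 2 ≤ k →
      (∀ v, (nb G v).card ≤ d) → (∀ s ∈ Sp, ((nb G s).card : ℝ) ≤ θ * d) →
      (∀ s ∈ Sp, ∀ s' ∈ Sp, G.Adj s s' → EH.Adj s s') →
      (∀ S T : Finset V, Disjoint S T → (∀ t ∈ T, (1 - g) * d ≤ ((nb G t).card : ℝ)) →
        (S.card : ℝ) ≤ (1 + g) * T.card → g * d * T.card ≤ ∑ t ∈ T, ((nb G t \ S).card : ℝ)) →
      (∀ C : Finset V, (∀ v ∈ C, (1 - g) * d ≤ ((nb G v).card : ℝ)) →
        (C.card : ℝ) ≤ (1 + g) * d → g * d * C.card ≤ ∑ v ∈ C, ((nb G v \ C).card : ℝ)) →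
      (∀ v, ((nb Cf v).card : ℝ) ≤ ε * d) →
      (∀ Y ∈ Ys, Y ⊆ Sp ∧ Y.card ≤ 2 * d) →
      (∀ Y ∈ Ys, ∀ Y' ∈ Ys, Y ≠ Y' → Disjoint Y Y') → HPre G UH c0 EH tu →
      ∃ (c : V → Fin k) (t : V → V → Fin k) (K0 : Finset (Fin k)) (C : Fin 3 → Finset (Fin k))
        (p : V → Fin 3) (a : V → Bool) (Z : Finset V),
        Tot G c t ∧ (∀ v ∈ UH, c v = c0 v) ∧ (∀ v v', EH.Adj v v' → t v v' = tu v) ∧
        OutR δ π G d Sp Ys UH EH c t K0 C p a Z ∧
        ∀ v w, v ∉ UH → w ∉ UH → Cf.Adj v w → c v ≠ c w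

end Pool.Agent.Work.MP_db9399_ot

namespace Pool.Agent.Work.MP_db9399_th.helper59

open Finset Classical
open Pool.Agent.Work.MP_db9399_all (nb)
open Pool.Agent.Work.MP_db9399_dn (NB IsMat Tot)
open Pool.Agent.Work.MP_db9399_mad (EG)
open Pool.Agent.Work.MP_db9399_bg (HPre den cl LabP)
open Pool.Agent.Work.MP_db9399_th (Kern Bdry2 Host)
open Pool.Agent.Work.MP_db9399_lc (BL)
open Pool.Agent.Work.MP_db9399_ot
open Pool.Agent.Work.MP_db9399_ot.helper1

universe u

section main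
variable {V : Type u} [Fintype V] {W : Type} [Fintype W]

/-- `G` without the edges inside `Sp` -/
def bx (G : SimpleGraph V) (Sp : Finset V) : SimpleGraph V where
  Adj v w := G.Adj v w ∧ ¬ (v ∈ Sp ∧ w ∈ Sp)
  symm := ⟨fun _ _ h => ⟨h.1.symm, fun h' => h.2 ⟨h'.2, h'.1⟩⟩⟩
  loopless := ⟨fun v h => G.loopless.irrefl v h.1⟩

theorem card_nb_bx (G : SimpleGraph V) (Sp : Finset V) (a : V) :
    (nb (bx G Sp) a).card ≤ (nb G a).card := by
  apply card_le_card
  intro x hx
  rw [mem_nb] at hx ⊢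
  exact hx.1

theorem bdry2 {G EH : SimpleGraph V} {Sp : Finset V} {d : ℕ} {θ : ℝ}
    (h1 : ∀ s ∈ Sp, ((nb G s).card : ℝ) ≤ θ * d)
    (h2 : ∀ s ∈ Sp, ∀ s' ∈ Sp, G.Adj s s' → EH.Adj s s') (hm : IsMat EH)
    (K : SimpleGraph W) (R : V → W → Prop) (hR : ∀ w a b, R a w → R b w → a = b) :
    Bdry2 θ (EG G K R) d (ul Sp) (bg (bx G Sp) Sp) where
  le := by
    intro x y h
    obtain ⟨a, b, rfl, rfl, h3, -⟩ := h
    exact h3.1
  one := by
    intro x y h
    obtain ⟨a, b, rfl, rfl, h3, h4⟩ := h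
    rw [mem_ul, mem_ul]
    constructor
    · intro h5 h6
      exact h3.2 ⟨h5, h6⟩
    · intro h5
      exact h4.resolve_right h5
  ind := by
    intro x hx
    rw [card_le_one]
    intro y hy z hz
    simp only [mem_inter, mem_nb] at hy hz
    rcases x with a | a
    · rcases y with b | b
      · rcases z with c | c
        · have h3 := hm a
          rw [card_le_one] at h3
          rw [h3 b ((mem_nb _ _ _).mpr (h2 a (mem_ul.mp hx) b (mem_ul.mp hy.2) hy.1)) c
            ((mem_nb _ _ _).mpr (h2 a (mem_ul.mp hx) c (mem_ul.mp hz.2) hz.1))]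
        · exact absurd hz.2 not_ul
      · exact absurd hy.2 not_ul
    · exact absurd hx not_ul
  deg := by
    intro x hx
    rcases x with a | a
    · refine le_trans ?_ (h1 a (mem_ul.mp hx))
      exact_mod_cast (card_nb_bg (bx G Sp) Sp a).trans (card_nb_bx G Sp a)
    · exact absurd hx not_ul
  fak := by
    intro x hx
    rw [card_le_one]
    intro y hy z hz
    simp only [mem_sdiff, mem_inter, mem_nb] at hy hz
    rcases y with b | b
    · rcases z with c | c
      · rcases x with a | w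
        · exfalso
          exact hy.2 (bg_ll.mpr ⟨⟨hy.1.1, fun h => hx (mem_ul.mpr h.1)⟩,
            Or.inr (mem_ul.mp hy.1.2)⟩)
        · rw [hR w b c hy.1.1 hz.1.1]
      · exact absurd hz.1.2 not_ul
    · exact absurd hy.1.2 not_ul

theorem outR2 {k n M1 R0 : ℕ} (e : Kp M1 × Fin R0 ≃ Fin n) {δ π η σ ε : ℝ} {G : SimpleGraph V}
    {K : SimpleGraph W} {R : V → W → Prop} {H : SimpleGraph (V ⊕ W)}
    {Gc : Fin n → SimpleGraph (V ⊕ W)} {d D : ℕ} {Sp : Finset V} {Ys : Finset (Finset V)}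
    {UH : Finset V} {EH : SimpleGraph V} {c : V ⊕ W → Fin k} {t : V ⊕ W → V ⊕ W → Fin k}
    {K0 E1 : Finset (Fin k)} {cs : Fin k → Option (Fin n)} {lb : V ⊕ W → Lb M1 R0}
    (hres : Res η (EG G K R) H (qg Ys) Gc d D (ul UH) (eh EH) c t K0 E1 cs)
    (hlab : LabP (qg Ys : SimpleGraph (V ⊕ W)) d σ 1 lb)
    (hsup : ∀ y s, (bg G Sp : SimpleGraph (V ⊕ W)).Adj y s → ¬ (eh EH).Adj y s → s ∈ ul Sp →
      (H.Adj y s → 0 < qk e (lb s) none) ∧
      ∀ i, (Gc i).Adj y s → 0 < qk e (lb s) (some i))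
    (hYs : ∀ Y ∈ Ys, Y ⊆ Sp ∧ Y.card ≤ 2 * d)
    (hdis : ∀ Y ∈ Ys, ∀ Y' ∈ Ys, Y ≠ Y' → Disjoint Y Y')
    (hδ : 0 < δ) (hπ3 : π < 1 / 3) (hM1 : π * (3 * (M1 : ℝ) + 1) + 2 ≤ M1)
    (hR0 : 4 ≤ δ * R0) (hR1 : (1 : ℝ) ≤ R0) (hσ0 : 0 ≤ σ) (hσ : σ ≤ δ / 8)
    (hd : 16 ≤ δ * d) (hη : η ≤ δ / 2) (hη0 : 0 ≤ η) (hηn : η ≤ 1 / (4 * ((n : ℝ) + 1)))
    (hεn : ε ≤ 1 / (4 * ((n : ℝ) + 1))) (hε0 : 0 ≤ ε)
    (hD : (1 - ε) * d ≤ ((n : ℝ) + 1) * D) :
    OutR δ π G d Sp Ys UH EH (fun v => c (Sum.inl v)) (fun v w => t (Sum.inl v) (Sum.inl w)) K0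
      (fun j => K0.filter (fun b => b ∉ E1 ∧ ∃ i, cs b = some i ∧ kt (e.symm i).1 = some j))
      (fun v => (lb (Sum.inl v)).1) (fun v => (lb (Sum.inl v)).2.1)
      (univ.filter (fun v => (lb (Sum.inl v)).2.2 = none)) := by
  have hd0 : (0 : ℝ) ≤ d := Nat.cast_nonneg _
  have hn0 : (0 : ℝ) ≤ n := Nat.cast_nonneg _
  have hncard : ((3 * (M1 : ℝ) + 1) * R0 : ℝ) = n := by
    have h := card_n e
    rw [← h]; push_cast; ring
  have hYd : ∀ Y ∈ Ys, (Y.card : ℝ) ≤ 2 * d := by
    intro Y hY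
    exact_mod_cast (hYs Y hY).2
  -- boundary edges at `s` outside `Z`
  have key : ∀ s ∈ Sp, (lb (Sum.inl s)).2.2 ≠ none → ∀ v, G.Adj s v → ¬ EH.Adj s v →
      ¬ H.Adj (Sum.inl s) (Sum.inl v) ∧ (t (Sum.inl s) (Sum.inl v) ∉ E1 →
        ∃ i κ', cs (t (Sum.inl s) (Sum.inl v)) = some i ∧
          (lb (Sum.inl s)).2.2 = some (κ', (e.symm i).2) ∧
          kt (e.symm i).1 ≠ some (lb (Sum.inl s)).1) := by
    intro s hs hZ v hsv hEH
    have hb : (bg G Sp : SimpleGraph (V ⊕ W)).Adj (Sum.inl v) (Sum.inl s) :=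
      bg_ll.mpr ⟨hsv.symm, Or.inr hs⟩
    have hH : ¬ H.Adj (Sum.inl s) (Sum.inl v) := by
      intro h
      have h1 := (hsup _ _ hb (fun h' => hEH (eh_ll.mp h'.symm)) (mem_ul.mpr hs)).1 h.symm
      rcases qk_pos e h1 with h2 | ⟨κ', v', κ, h2, h3, h4⟩
      · exact hZ h2.1
      · cases h3
    refine ⟨hH, fun hE1 => ?_⟩
    have h5 := hres.edg (Sum.inl s) (Sum.inl v) hsv (fun h => hEH (eh_ll.mp h)) hE1
    rcases h5 with h5 | ⟨i, h5, h6⟩
    · exact absurd h5 hH
    · have h1 := (hsup _ _ hb (fun h' => hEH (eh_ll.mp h'.symm)) (mem_ul.mpr hs)).2 i h6.symm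
      rcases qk_pos e h1 with h2 | ⟨κ', v', κ, h2, h3, h4⟩
      · exact absurd h2.1 hZ
      · have h7 := Option.some.inj h3
        refine ⟨i, κ', h5, ?_, ?_⟩
        · rw [h2, h7, Equiv.symm_apply_apply]
        · rw [h7, Equiv.symm_apply_apply]
          exact h4
  exact
  { K0c := hres.K0c
    vK := fun v hv => hres.vK _ (fun h => hv (mem_ul.mp h))
    tK := fun v v' hvv hE => hres.tK _ _ hvv (fun h => hE (eh_ll.mp h))
    CK := fun j => filter_subset _ _
    Cc := by
      intro j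
      have hdisj : ∀ i ∈ univ.filter (fun i : Fin n => kt (e.symm i).1 = some j),
          ∀ i' ∈ univ.filter (fun i : Fin n => kt (e.symm i).1 = some j), i ≠ i' →
          Disjoint (K0.filter (fun b => b ∉ E1 ∧ cs b = some i))
            (K0.filter (fun b => b ∉ E1 ∧ cs b = some i')) := by
        intro i _ i' _ hii
        rw [Finset.disjoint_left]
        intro b hb hb'
        rw [mem_filter] at hb hb'
        exact hii (Option.some.inj (hb.2.2.symm.trans hb'.2.2))
      have hsub : (univ.filter (fun i : Fin n => kt (e.symm i).1 = some j)).biUnion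
          (fun i => K0.filter (fun b => b ∉ E1 ∧ cs b = some i)) ⊆
          K0.filter (fun b => b ∉ E1 ∧ ∃ i, cs b = some i ∧ kt (e.symm i).1 = some j) := by
        intro b hb
        rw [mem_biUnion] at hb
        obtain ⟨i, hi, hb⟩ := hb
        rw [mem_filter] at hi hb ⊢
        exact ⟨hb.1, hb.2.1, i, hb.2.2, hi.2⟩
      have h1 := card_le_card hsub
      rw [card_biUnion hdisj] at h1
      have h2 : ((M1 * R0 : ℕ) : ℝ) * ((1 - η) * D) ≤
          ((∑ i ∈ univ.filter (fun i : Fin n => kt (e.symm i).1 = some j),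
            (K0.filter (fun b => b ∉ E1 ∧ cs b = some i)).card : ℕ) : ℝ) := by
        rw [Nat.cast_sum]
        have h3 : ∀ i ∈ univ.filter (fun i : Fin n => kt (e.symm i).1 = some j),
            (1 - η) * D ≤ ((K0.filter (fun b => b ∉ E1 ∧ cs b = some i)).card : ℝ) :=
          fun i _ => hres.cnt i
        have h4 := Finset.card_nsmul_le_sum _ _ _ h3
        rw [card_kt, nsmul_eq_mul] at h4
        exact h4
      have h5 : ((∑ i ∈ univ.filter (fun i : Fin n => kt (e.symm i).1 = some j),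
            (K0.filter (fun b => b ∉ E1 ∧ cs b = some i)).card : ℕ) : ℝ) ≤
          ((K0.filter (fun b => b ∉ E1 ∧
            ∃ i, cs b = some i ∧ kt (e.symm i).1 = some j)).card : ℝ) := by
        exact_mod_cast h1
      refine le_trans ?_ (h2.trans h5)
      exact num_Cc (M := (M1 : ℝ)) (R0 := (R0 : ℝ)) (x := ((M1 * R0 : ℕ) : ℝ))
        (by push_cast; ring) (Nat.cast_nonneg _) hR1 hn0 hncard hM1 hπ3 hη0 hηn hε0 hεn hd0 hD
    Cd := by
      intro i j hij
      rw [Finset.disjoint_left]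
      intro b hb hb'
      rw [mem_filter] at hb hb'
      obtain ⟨x, hx, hx'⟩ := hb.2.2
      obtain ⟨y, hy, hy'⟩ := hb'.2.2
      have h1 : x = y := Option.some.inj (hx.symm.trans hy)
      rw [h1] at hx'
      exact hij (Option.some.inj (hx'.symm.trans hy'))
    av := by
      intro s hs hZ v hsv hEH hC
      rw [mem_filter] at hC
      have hZ' : (lb (Sum.inl s)).2.2 ≠ none := fun h =>
        hZ (mem_filter.mpr ⟨mem_univ _, h⟩)
      obtain ⟨h1, h2⟩ := key s hs hZ' v hsv hEH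
      obtain ⟨i, κ', h3, h4, h5⟩ := h2 hC.2.1
      obtain ⟨i', h6, h7⟩ := hC.2.2
      have h8 : i = i' := Option.some.inj (h3.symm.trans h6)
      rw [h8] at h5
      exact h5 h7
    ZY := by
      intro Y hY
      have h1 := eqY hdis hlab hσ0 hY
        (univ.filter (fun l : Lb M1 R0 => l.2.2 = none))
      rw [card_P0 e] at h1
      have h2 : ((Y ∩ univ.filter (fun v => (lb (Sum.inl v)).2.2 = none)).card : ℝ) ≤
          ((Y.filter (fun v => lb (Sum.inl v) ∈
            univ.filter (fun l : Lb M1 R0 => l.2.2 = none))).card : ℝ) := by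
        have : Y ∩ univ.filter (fun v => (lb (Sum.inl v)).2.2 = none) ⊆
            Y.filter (fun v => lb (Sum.inl v) ∈
              univ.filter (fun l : Lb M1 R0 => l.2.2 = none)) := by
          intro x hx
          rw [mem_inter, mem_filter] at hx
          rw [mem_filter, mem_filter]
          exact ⟨hx.1, mem_univ _, hx.2.2⟩
        exact_mod_cast card_le_card this
      refine h2.trans ?_
      have h3 := (abs_le.mp h1).2
      have hnp : (0 : ℝ) < (n : ℝ) + 1 := by positivity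
      have h4 : 1 / ((n : ℝ) + 1) * Y.card ≤ δ / 2 * d := by
        have h5 : 1 / ((n : ℝ) + 1) ≤ δ / 4 := by
          rw [div_le_iff₀ hnp]
          have h6 : (R0 : ℝ) ≤ n := by
            rw [← hncard]
            have : (0 : ℝ) ≤ M1 := Nat.cast_nonneg _
            nlinarith
          nlinarith
        have h7 := hYd Y hY
        have h8 : (0 : ℝ) ≤ Y.card := Nat.cast_nonneg _
        nlinarith
      have h9 : σ * d ≤ δ / 8 * d := mul_le_mul_of_nonneg_right hσ hd0
      linarith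
    cell := by
      intro Y hY i l
      have h1 := eqY hdis hlab hσ0 hY
        (univ.filter (fun x : Lb M1 R0 => x.1 = i ∧ x.2.1 = l))
      rw [card_P1 e] at h1
      have h2 : Y.filter (fun v => (lb (Sum.inl v)).1 = i ∧ (lb (Sum.inl v)).2.1 = l) =
          Y.filter (fun v => lb (Sum.inl v) ∈
            univ.filter (fun x : Lb M1 R0 => x.1 = i ∧ x.2.1 = l)) := by
        ext v
        rw [mem_filter, mem_filter, mem_filter]
        constructor
        · rintro ⟨h, h'⟩
          exact ⟨h, mem_univ _, h'⟩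
        · rintro ⟨h, -, h'⟩
          exact ⟨h, h'⟩
      have h3 : (Y.card : ℝ) / 6 = 1 / 6 * Y.card := by ring
      rw [h2, h3]
      refine h1.trans ?_
      have h9 : σ * d ≤ δ / 8 * d := mul_le_mul_of_nonneg_right hσ hd0
      linarith
    ld := by
      intro Y hY b
      by_cases hb : b ∈ E1
      · rcases (Y.filter (fun s => s ∉ univ.filter (fun v => (lb (Sum.inl v)).2.2 = none) ∧
            ∃ v, G.Adj s v ∧ ¬ EH.Adj s v ∧ t (Sum.inl s) (Sum.inl v) = b)).eq_empty_or_nonempty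
            with h0 | ⟨a, ha⟩
        · rw [h0, card_empty, Nat.cast_zero]
          positivity
        · have haY : a ∈ Y := (mem_filter.mp ha).1
          have h1 := hres.spr (Sum.inl a) b hb
          have h2 : (Y.filter (fun s => s ∉ univ.filter (fun v => (lb (Sum.inl v)).2.2 = none) ∧
              ∃ v, G.Adj s v ∧ ¬ EH.Adj s v ∧ t (Sum.inl s) (Sum.inl v) = b)).card ≤
              ((nb (qg Ys : SimpleGraph (V ⊕ W)) (Sum.inl a)).filter (fun x => ∃ y,
                (EG G K R).Adj x y ∧ ¬ (eh EH).Adj x y ∧ ¬ H.Adj x y ∧ t x y = b)).card + 1 := by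
            have h3 : (ul (Y.filter (fun s =>
                s ∉ univ.filter (fun v => (lb (Sum.inl v)).2.2 = none) ∧
                ∃ v, G.Adj s v ∧ ¬ EH.Adj s v ∧ t (Sum.inl s) (Sum.inl v) = b)) :
                Finset (V ⊕ W)) ⊆
                ((nb (qg Ys : SimpleGraph (V ⊕ W)) (Sum.inl a)).filter (fun x => ∃ y,
                (EG G K R).Adj x y ∧ ¬ (eh EH).Adj x y ∧ ¬ H.Adj x y ∧ t x y = b)) ∪
                {Sum.inl a} := by
              intro x hx
              rcases x with s | w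
              · rw [mem_ul, mem_filter] at hx
                obtain ⟨hsY, hsZ, v, hsv, hEH, htb⟩ := hx
                rw [mem_union, mem_singleton]
                by_cases hsa : s = a
                · right; rw [hsa]
                · left
                  rw [mem_filter, nb_qg hdis hY haY, mem_ul, mem_erase]
                  refine ⟨⟨hsa, hsY⟩, Sum.inl v, hsv, fun h => hEH (eh_ll.mp h), ?_, htb⟩
                  exact (key s ((hYs Y hY).1 hsY)
                    (fun h => hsZ (mem_filter.mpr ⟨mem_univ _, h⟩)) v hsv hEH).1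
              · exact absurd hx not_ul
            have h4 := (card_le_card h3).trans (card_union_le _ _)
            rw [card_singleton] at h4
            refine le_trans ?_ h4
            unfold ul
            rw [card_map]
          have h5 : ((Y.filter (fun s => s ∉ univ.filter (fun v => (lb (Sum.inl v)).2.2 = none) ∧
              ∃ v, G.Adj s v ∧ ¬ EH.Adj s v ∧ t (Sum.inl s) (Sum.inl v) = b)).card : ℝ) ≤
              η * d + 1 := by
            have h6 : ((Y.filter (fun s =>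
              s ∉ univ.filter (fun v => (lb (Sum.inl v)).2.2 = none) ∧
              ∃ v, G.Adj s v ∧ ¬ EH.Adj s v ∧ t (Sum.inl s) (Sum.inl v) = b)).card : ℝ) ≤
              (((nb (qg Ys : SimpleGraph (V ⊕ W)) (Sum.inl a)).filter (fun x => ∃ y,
                (EG G K R).Adj x y ∧ ¬ (eh EH).Adj x y ∧ ¬ H.Adj x y ∧ t x y = b)).card : ℝ) +
                1 := by exact_mod_cast h2
            linarith
          refine h5.trans ?_
          have h7 : η * d ≤ δ / 2 * d := mul_le_mul_of_nonneg_right hη hd0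
          linarith
      · -- class colours
        rcases (Y.filter (fun s => s ∉ univ.filter (fun v => (lb (Sum.inl v)).2.2 = none) ∧
            ∃ v, G.Adj s v ∧ ¬ EH.Adj s v ∧ t (Sum.inl s) (Sum.inl v) = b)).eq_empty_or_nonempty
            with h0 | ⟨a, ha⟩
        · rw [h0, card_empty, Nat.cast_zero]
          positivity
        · obtain ⟨haY, haZ, v, hav, hEH, htb⟩ := mem_filter.mp ha
          obtain ⟨i0, κ0, h1, h2, h3⟩ := (key a ((hYs Y hY).1 haY)
            (fun h => haZ (mem_filter.mpr ⟨mem_univ _, h⟩)) v hav hEH).2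
            (by rw [htb]; exact hb)
          rw [htb] at h1
          have h4 : Y.filter (fun s => s ∉ univ.filter (fun v => (lb (Sum.inl v)).2.2 = none) ∧
              ∃ v, G.Adj s v ∧ ¬ EH.Adj s v ∧ t (Sum.inl s) (Sum.inl v) = b) ⊆
              Y.filter (fun v => lb (Sum.inl v) ∈
                univ.filter (fun l : Lb M1 R0 => ∃ κ, l.2.2 = some (κ, (e.symm i0).2))) := by
            intro s hs
            obtain ⟨hsY, hsZ, v', hsv, hEH', htb'⟩ := mem_filter.mp hs
            obtain ⟨i, κ', h5, h6, h7⟩ := (key s ((hYs Y hY).1 hsY)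
              (fun h => hsZ (mem_filter.mpr ⟨mem_univ _, h⟩)) v' hsv hEH').2
              (by rw [htb']; exact hb)
            rw [htb'] at h5
            have h8 : i = i0 := Option.some.inj (h5.symm.trans h1)
            rw [h8] at h6
            rw [mem_filter, mem_filter]
            exact ⟨hsY, mem_univ _, κ', h6⟩
          have h9 := eqY hdis hlab hσ0 hY
            (univ.filter (fun l : Lb M1 R0 => ∃ κ, l.2.2 = some (κ, (e.symm i0).2)))
          have h10 := (abs_le.mp h9).2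
          have h11 := card_P2 e (e.symm i0).2
          have h12 : ((Y.filter (fun s =>
              s ∉ univ.filter (fun v => (lb (Sum.inl v)).2.2 = none) ∧
              ∃ v, G.Adj s v ∧ ¬ EH.Adj s v ∧ t (Sum.inl s) (Sum.inl v) = b)).card : ℝ) ≤
              ((Y.filter (fun v => lb (Sum.inl v) ∈
                univ.filter (fun l : Lb M1 R0 =>
                  ∃ κ, l.2.2 = some (κ, (e.symm i0).2)))).card : ℝ) := by
            exact_mod_cast card_le_card h4
          refine h12.trans ?_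
          have h13 : den (univ.filter (fun l : Lb M1 R0 =>
              ∃ κ, l.2.2 = some (κ, (e.symm i0).2))) ≤ δ / 4 := by
            have h14 : 0 ≤ den (univ.filter (fun l : Lb M1 R0 =>
              ∃ κ, l.2.2 = some (κ, (e.symm i0).2))) := by
              unfold den; positivity
            nlinarith
          have h15 := hYd Y hY
          have h16 : (0 : ℝ) ≤ Y.card := Nat.cast_nonneg _
          have h17 : den (univ.filter (fun l : Lb M1 R0 =>
              ∃ κ, l.2.2 = some (κ, (e.symm i0).2))) * Y.card ≤ δ / 4 * (2 * d) := by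
            have h18 := mul_le_mul_of_nonneg_right h13 h16
            have h19 : δ / 4 * (Y.card : ℝ) ≤ δ / 4 * (2 * d) :=
              mul_le_mul_of_nonneg_left h15 (by positivity)
            linarith
          have h20 : σ * d ≤ δ / 8 * d := mul_le_mul_of_nonneg_right hσ hd0
          linarith }

end main

/-- **THEOREM OUT** with a conflict graph and inner H-edges -/
theorem stmt_OUTD (hEMBB : MP_db9399_lc.Stmt_EMBB.{u}) (hLABF : Stmt_LABF.{u})
    (hNRM : Stmt_NRMC.{u}) : Stmt_OUTD.{u} := by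
  intro δ π hδ hπ hπ3
  obtain ⟨M1, hM1⟩ := exists_M1 π hπ3
  obtain ⟨R0, hR0'⟩ := exists_nat_ge (4 / δ + 1)
  have hR0 : 4 ≤ δ * R0 := by
    have h1 : 4 / δ ≤ R0 := by linarith
    rw [div_le_iff₀ hδ] at h1
    linarith
  have hR1 : (1 : ℝ) ≤ R0 := by
    have : 0 < 4 / δ := by positivity
    linarith
  have hR1' : 1 ≤ R0 := by exact_mod_cast hR1
  obtain ⟨n, hn⟩ : ∃ n, n = (3 * M1 + 1) * R0 := ⟨_, rfl⟩
  have hcard : Fintype.card (Kp M1 × Fin R0) = n := by
    rw [Fintype.card_prod, card_Kp, Fintype.card_fin, hn]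
  obtain ⟨e⟩ : Nonempty (Kp M1 × Fin R0 ≃ Fin n) := ⟨Fintype.equivFinOfCardEq hcard⟩
  have hn0 : 0 < n := by
    rw [hn]
    positivity
  have hnR : (0 : ℝ) ≤ n := Nat.cast_nonneg _
  have hn1 : (0 : ℝ) < (n : ℝ) + 1 := by positivity
  refine ⟨1 / (100 * ((n : ℝ) + 1)), by positivity, ?_, ?_⟩
  · apply one_div_le_one_div_of_le (by norm_num)
    linarith
  intro g hg hg1
  obtain ⟨g', hg', hgg', hE⟩ := hEMBB g hg hg1
  obtain ⟨η, hηd⟩ : ∃ η : ℝ, η = min (1 / 10) (min (δ / 2) (1 / (4 * ((n : ℝ) + 1)))) := ⟨_, rfl⟩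
  have hη0 : 0 < η := by
    rw [hηd]
    exact lt_min (by norm_num) (lt_min (by positivity) (by positivity))
  have hη1 : η ≤ 1 / 10 := by rw [hηd]; exact min_le_left _ _
  have hη2 : η ≤ δ / 2 := by
    rw [hηd]; exact (min_le_right _ _).trans (min_le_left _ _)
  have hη3 : η ≤ 1 / (4 * ((n : ℝ) + 1)) := by
    rw [hηd]; exact (min_le_right _ _).trans (min_le_right _ _)
  obtain ⟨εN, dN, hεN, hN⟩ := hNRM g' (g' / 20) η n hg' (by linarith) (by positivity)
    (by linarith) hη0 hη1 hn0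
  obtain ⟨εC, hεCd⟩ : ∃ ε : ℝ, ε = min εN (1 / (4 * ((n : ℝ) + 1))) := ⟨_, rfl⟩
  have hεC : 0 < εC := by rw [hεCd]; exact lt_min hεN (by positivity)
  have hεC1 : εC ≤ εN := by rw [hεCd]; exact min_le_left _ _
  have hεC2 : εC ≤ 1 / (4 * ((n : ℝ) + 1)) := by rw [hεCd]; exact min_le_right _ _
  obtain ⟨εT, σT, dT, hεT, hσT, hT⟩ := MP_db9399_th.helper59.thin_uniform2.{u} n (6 * (n + 1)) g'
    εC hg' (by linarith) hεC (by omega) hn0
  obtain ⟨dE, hE'⟩ := hE (min εT εN) (lt_min hεT hεN)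
  obtain ⟨σ, hσd⟩ : ∃ σ : ℝ, σ = min σT (δ / 8) := ⟨_, rfl⟩
  have hσ0 : 0 < σ := by rw [hσd]; exact lt_min hσT (by positivity)
  have hσ1 : σ ≤ σT := by rw [hσd]; exact min_le_left _ _
  have hσ2 : σ ≤ δ / 8 := by rw [hσd]; exact min_le_right _ _
  have : NeZero R0 := ⟨by omega⟩
  obtain ⟨dL, hL⟩ := hLABF (Lb M1 R0) 2 σ 1 (1 / 2) hσ0 one_pos (by norm_num)
  refine ⟨εN, max (max dN dT) (max dE (max dL ⌈16 / δ⌉₊)), hεN, ?_⟩
  intro V _ G Cf d k Sp Ys UH c0 EH tu hd hdV hk hdeg hSp hind hbip hnsc hCf hYs hdis hH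
  have hdN : dN ≤ d := le_trans (le_trans (le_max_left _ _) (le_max_left _ _)) hd
  have hdT : dT ≤ d := le_trans (le_trans (le_max_right _ _) (le_max_left _ _)) hd
  have hdE : dE ≤ d := le_trans (le_trans (le_max_left _ _) (le_max_right _ _)) hd
  have hdL : dL ≤ d := le_trans (le_trans (le_trans (le_max_left _ _) (le_max_right _ _))
    (le_max_right _ _)) hd
  have hdδ : ⌈16 / δ⌉₊ ≤ d := le_trans (le_trans (le_trans (le_max_right _ _)
    (le_max_right _ _)) (le_max_right _ _)) hd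
  have hdδ' : 16 ≤ δ * d := by
    have h1 : 16 / δ ≤ d := (Nat.le_ceil _).trans (by exact_mod_cast hdδ)
    rw [div_le_iff₀ hδ] at h1
    linarith
  have hd0 : (0 : ℝ) ≤ d := Nat.cast_nonneg _
  obtain ⟨W, hW, K, R, hR, hBL⟩ := hE' G d hdE hdV hdeg hbip hnsc
  -- labels
  obtain ⟨lb, hlb⟩ := hL (V := V ⊕ W) ![bg (bx G Sp) Sp, qg Ys] (2 * d) (fun _ => d) (by omega)
    (by
      intro i x
      fin_cases i
      · change (nb (bg (bx G Sp) Sp : SimpleGraph (V ⊕ W)) x).card ≤ 2 * d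
        rcases x with a | w
        · have h1 := ((card_nb_bg (W := W) (bx G Sp) Sp a).trans (card_nb_bx G Sp a)).trans
            (hdeg a)
          omega
        · rw [card_nb_bg', card_empty]
          exact Nat.zero_le _
      · exact card_qg hdis (fun Y hY => (hYs Y hY).2) x)
    (by
      intro i
      push_cast
      constructor
      · linarith
      · linarith)
  have hlb0 : LabP (bg (bx G Sp) Sp : SimpleGraph (V ⊕ W)) d σ 1 lb := hlb 0
  have hlb1 : LabP (qg Ys : SimpleGraph (V ⊕ W)) d σ 1 lb := hlb 1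
  -- thinning
  obtain ⟨H, Gc, D, hBH, hCls, hDd, -, hsup⟩ := hT (EG G K R) d (ul Sp)
    (bg (bx G Sp) Sp) lb (qk e)
    hdT (bl_mono hBL (min_le_left _ _)) (bdry2 hSp hind hH.mat K R hR) (card_Lb e) (kern e)
    (by
      intro y hy l
      obtain ⟨X, hX, h1⟩ : ∃ X : Finset (V ⊕ W), (∀ x, x ∈ X ↔
          x ∈ nb (bg (bx G Sp) Sp : SimpleGraph (V ⊕ W)) y ∧ lb x ∈ ({l} : Finset (Lb M1 R0))) ∧
          |(X.card : ℝ) - den ({l} : Finset (Lb M1 R0)) *
            (nb (bg (bx G Sp) Sp : SimpleGraph (V ⊕ W)) y).card| ≤ σ * d :=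
        ⟨_, fun x => (@Finset.mem_inter _ (fun a b => Classical.propDecidable (a = b)) _ _ _).trans
          (and_congr_right fun _ => mem_cl), hlb0.deg y {l}⟩
      have h2 : den ({l} : Finset (Lb M1 R0)) = 1 / ((6 * (n + 1) : ℕ) : ℝ) := by
        unfold den
        rw [card_singleton, card_Lb e, Nat.cast_one]
      have h3 : X = (nb (bg (bx G Sp) Sp : SimpleGraph (V ⊕ W)) y).filter (fun s => lb s = l) := by
        ext s
        rw [hX, mem_filter, mem_singleton]
      rw [h3, h2] at h1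
      have h4 : 1 / ((6 * (n + 1) : ℕ) : ℝ) * (nb (bg (bx G Sp) Sp : SimpleGraph (V ⊕ W)) y).card =
          ((nb (bg (bx G Sp) Sp : SimpleGraph (V ⊕ W)) y).card : ℝ) / ((6 * (n + 1) : ℕ) : ℝ) := by
        ring
      rw [h4] at h1
      exact h1.trans (mul_le_mul_of_nonneg_right hσ1 hd0))
  -- the machine
  have hkpos : 0 < k := by omega
  obtain ⟨c, t, K0, E1, cs, hTot, hcU, htE, hres, hcf⟩ := hN (EG G K R) H (qg Ys) (eh Cf) Gc d D k
    (ul UH) (Sum.elim c0 (fun _ => ⟨0, hkpos⟩)) (eh EH) (Sum.elim tu (fun _ => ⟨0, hkpos⟩))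
    hdN hk (bl_mono hBL (min_le_right _ _))
    (bh_mono hBH hεC1 (by
      have : g' / 20 ≤ g' := by linarith
      exact mul_le_mul_of_nonneg_right (by linarith) hd0))
    (hCls.mono hεC1) (card_qg hdis (fun Y hY => (hYs Y hY).2))
    (by
      intro x
      rcases x with a | w
      · have h1 := card_nb_eh (W := W) Cf a
        refine le_trans ?_ (hCf a)
        exact_mod_cast h1
      · rw [card_nb_eh', card_empty, Nat.cast_zero]
        positivity)
    (hpre_lift hH K R hR _)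
  refine ⟨fun v => c (Sum.inl v), fun v w => t (Sum.inl v) (Sum.inl w), K0,
    fun j => K0.filter (fun b => b ∉ E1 ∧ ∃ i, cs b = some i ∧ kt (e.symm i).1 = some j),
    fun v => (lb (Sum.inl v)).1, fun v => (lb (Sum.inl v)).2.1,
    univ.filter (fun v => (lb (Sum.inl v)).2.2 = none), ?_, ?_, ?_, ?_, ?_⟩
  · obtain ⟨h1, h2, h3, h4⟩ := hTot
    refine ⟨fun v w hvw => h1 _ _ hvw, fun v w => h2 _ _, ?_, fun v w hvw => h4 _ _ hvw⟩
    intro v x hx y hy hxy
    have hx' : Sum.inl x ∈ (nb (EG G K R) (Sum.inl v) : Set (V ⊕ W)) := by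
      rw [mem_coe, mem_nb] at hx ⊢
      exact hx
    have hy' : Sum.inl y ∈ (nb (EG G K R) (Sum.inl v) : Set (V ⊕ W)) := by
      rw [mem_coe, mem_nb] at hy ⊢
      exact hy
    exact Sum.inl.inj (h3 (Sum.inl v) hx' hy' hxy)
  · intro v hv
    exact hcU (Sum.inl v) (mem_ul.mpr hv)
  · intro v v' hvv
    exact htE (Sum.inl v) (Sum.inl v') (eh_ll.mpr hvv)
  · refine outR2 e hres hlb1 ?_ hYs hdis hδ hπ3 hM1 hR0 hR1 hσ0.le hσ2 hdδ' hη2 hη0.le hη3
      hεC2 hεC.le hCls.le_D
    rintro y s ⟨a, b, rfl, rfl, hab, -⟩ hE hs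
    refine hsup _ _ ⟨a, b, rfl, rfl, ⟨hab, fun h => hE (eh_ll.mpr (hind a h.1 b h.2 hab))⟩,
      Or.inr (mem_ul.mp hs)⟩ hs
  · intro v w hv hw hvw
    exact hcf _ _ (fun h => hv (mem_ul.mp h)) (fun h => hw (mem_ul.mp h)) (eh_ll.mpr hvw)

end Pool.Agent.Work.MP_db9399_th.helper59
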