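import Pool.Agent.Work.MP_db9399_th_helper59.OUTD
import Pool.Agent.Work.MP_db9399_ot_helper1.Final

/-! # THEOREM OUTD, unconditional -/

set_option autoImplicit false

namespace Pool.Agent.Work.MP_db9399_th.helper59

universe u

theorem outd_holds : MP_db9399_ot.Stmt_OUTD.{u} :=
  stmt_OUTD MP_db9399_lc.helper85.stmt_EMBB MP_db9399_lf.helper6.stmt_LABF
    MP_db9399_ot.helper1.nrmc_holds

end Pool.Agent.Work.MP_db9399_th.helper59
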