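import Mathlib
import Pool.Agent.Work.MP_db9399_all.Interface

/-!
# MP_db9399, frame of THEOREM OUT: existence of the spots (block STRUCT)
-/

set_option autoImplicit false

namespace Pool.Agent.Work.MP_db9399_th.helper59

open Finset Classical
open Pool.Agent.Work.MP_db9399_all (nb)

universe u

/-- Disjoint almost complete spots `Ys` such that the rest has no near-components: sets disjoint
from the spots, heavy in `G`. -/
structure Spots {V : Type u} [Fintype V] (θ g : ℝ) (G : SimpleGraph V) (d : ℕ)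
    (Ys : Finset (Finset V)) : Prop where
  dis : ∀ Y ∈ Ys, ∀ Y' ∈ Ys, Y ≠ Y' → Disjoint Y Y'
  low : ∀ Y ∈ Ys, (1 - θ) * d ≤ (Y.card : ℝ)
  upp : ∀ Y ∈ Ys, (Y.card : ℝ) ≤ (1 + θ) * d
  out : ∀ Y ∈ Ys, ∀ v ∈ Y, ((nb G v \ Y).card : ℝ) ≤ θ * d
  inn : ∀ Y ∈ Ys, ∀ v ∈ Y, ((Y \ nb G v).card : ℝ) ≤ θ * d
  nsc : ∀ C : Finset V, (∀ Y ∈ Ys, Disjoint C Y) →
    (∀ v ∈ C, (1 - g) * d ≤ ((nb G v).card : ℝ)) → (C.card : ℝ) ≤ (1 + g) * d →
    g * d * C.card ≤ ∑ v ∈ C, ((nb G v \ C).card : ℝ)

namespace STRUCT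

variable {V : Type u} [Fintype V]

/-- raw spot -/
def Raw (θ1 g1 : ℝ) (G : SimpleGraph V) (d : ℕ) (S : Finset V) : Prop :=
  S.Nonempty ∧ (S.card : ℝ) ≤ (1 + g1) * d ∧
    ∑ v ∈ S, ((d : ℝ) - (nb G v ∩ S).card) ≤ θ1 * d * S.card

/-- trimming -/
noncomputable def trim (θ : ℝ) (G : SimpleGraph V) (d : ℕ) (S : Finset V) : Finset V :=
  S.filter (fun v => (d : ℝ) - (nb G v ∩ S).card ≤ θ / 4 * d)

/-- a family of raw spots: as many as possible, then as small as possible -/
theorem family (θ1 g1 : ℝ) (G : SimpleGraph V) (d : ℕ) :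
    ∃ F : Finset (Finset V), (∀ S ∈ F, Raw θ1 g1 G d S) ∧
      (∀ S ∈ F, ∀ S' ∈ F, S ≠ S' → Disjoint S S') ∧
      (∀ S ∈ F, ∀ S', S' ⊆ S → S' ≠ S → ¬ Raw θ1 g1 G d S') ∧
      ∀ C, Raw θ1 g1 G d C → ¬ ∀ S ∈ F, Disjoint C S := by
  set P : Finset (Finset (Finset V)) := univ.filter (fun F =>
    (∀ S ∈ F, Raw θ1 g1 G d S) ∧ ∀ S ∈ F, ∀ S' ∈ F, S ≠ S' → Disjoint S S') with hP
  have hne : P.Nonempty := ⟨∅, by simp [hP]⟩
  obtain ⟨F, hF, hmax⟩ := Finset.exists_max_image P
    (fun F => (F.card : ℤ) * (Fintype.card V + 1) - ∑ S ∈ F, (S.card : ℤ)) hne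
  obtain ⟨-, hF1, hF2⟩ := mem_filter.1 hF
  refine ⟨F, hF1, hF2, ?_, ?_⟩
  · intro S hS S' hsub hneS hraw
    have hS'ne : S'.Nonempty := hraw.1
    have hnot : S' ∉ F.erase S := by
      intro h
      obtain ⟨h1, h2⟩ := mem_erase.1 h
      have h3 := hF2 S' h2 S hS h1
      obtain ⟨x, hx⟩ := hS'ne
      exact Finset.disjoint_left.1 h3 hx (hsub hx)
    have hval : insert S' (F.erase S) ∈ P := by
      refine mem_filter.2 ⟨mem_univ _, ?_, ?_⟩
      · intro T hT
        rcases mem_insert.1 hT with h | h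
        · rw [h]; exact hraw
        · exact hF1 T (mem_erase.1 h).2
      · intro T hT T' hT' hTT
        rcases mem_insert.1 hT with h | h
        · rcases mem_insert.1 hT' with h' | h'
          · exact absurd (h.trans h'.symm) hTT
          · obtain ⟨h1, h2⟩ := mem_erase.1 h'
            rw [h]
            exact (hF2 S hS T' h2 h1.symm).mono_left hsub
        · obtain ⟨h1, h2⟩ := mem_erase.1 h
          rcases mem_insert.1 hT' with h' | h'
          · rw [h']
            exact ((hF2 T h2 S hS h1)).mono_right hsub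
          · exact hF2 T h2 T' (mem_erase.1 h').2 hTT
    have h4 := hmax _ hval
    rw [Finset.card_insert_of_notMem hnot, Finset.card_erase_of_mem hS,
      Finset.sum_insert hnot] at h4
    have h5 : 0 < F.card := card_pos.2 ⟨S, hS⟩
    have h6 : F.card - 1 + 1 = F.card := by omega
    rw [h6] at h4
    have h7 := Finset.sum_erase_add F (fun S => (S.card : ℤ)) hS
    have h8 : S'.card < S.card := card_lt_card (Finset.ssubset_iff_subset_ne.2 ⟨hsub, hneS⟩)
    have h9 : (S'.card : ℤ) < S.card := by exact_mod_cast h8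
    linarith
  · intro C hC hdis
    have hnot : C ∉ F := by
      intro h
      obtain ⟨x, hx⟩ := hC.1
      exact Finset.disjoint_left.1 (hdis C h) hx hx
    have hval : insert C F ∈ P := by
      refine mem_filter.2 ⟨mem_univ _, ?_, ?_⟩
      · intro T hT
        rcases mem_insert.1 hT with h | h
        · rw [h]; exact hC
        · exact hF1 T h
      · intro T hT T' hT' hTT
        rcases mem_insert.1 hT with h | h
        · rcases mem_insert.1 hT' with h' | h'
          · exact absurd (h.trans h'.symm) hTT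
          · rw [h]; exact hdis T' h'
        · rcases mem_insert.1 hT' with h' | h'
          · rw [h']; exact (hdis T h).symm
          · exact hF2 T h T' h' hTT
    have h4 := hmax _ hval
    rw [Finset.card_insert_of_notMem hnot, Finset.sum_insert hnot] at h4
    push_cast at h4
    have h8 : C.card ≤ Fintype.card V := Finset.card_le_univ C
    have h9 : (C.card : ℤ) ≤ Fintype.card V := by exact_mod_cast h8
    nlinarith

/-- a double count -/
theorem dbl (G : SimpleGraph V) (A B : Finset V) :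
    ∑ a ∈ A, ((nb G a ∩ B).card : ℝ) = ∑ b ∈ B, ((nb G b ∩ A).card : ℝ) := by
  have h : ∀ A B : Finset V, ∑ a ∈ A, ((nb G a ∩ B).card : ℝ) =
      ∑ a ∈ A, ∑ b ∈ B, (if G.Adj a b then (1 : ℝ) else 0) := by
    intro A B
    refine Finset.sum_congr rfl fun a _ => ?_
    rw [Finset.sum_boole]
    congr 2
    ext b
    simp [nb, and_comm]
  rw [h, h, Finset.sum_comm]
  refine Finset.sum_congr rfl fun a _ => Finset.sum_congr rfl fun b _ => ?_
  simp [G.adj_comm]

/-- inner degrees in a minimal raw spot -/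
theorem half (θ1 g1 : ℝ) (G : SimpleGraph V) (d : ℕ) (hd : 1 ≤ d) (_ : θ1 < 1) (S : Finset V)
    (hS : Raw θ1 g1 G d S) (hmin : ∀ S', S' ⊆ S → S' ≠ S → ¬ Raw θ1 g1 G d S') (v : V)
    (hv : v ∈ S) : (1 - θ1) / 2 * d ≤ ((nb G v ∩ S).card : ℝ) := by
  by_contra hcon
  push Not at hcon
  have hd0 : (1 : ℝ) ≤ d := by exact_mod_cast hd
  apply hmin (S.erase v) (Finset.erase_subset _ _) (by
    intro h
    have : v ∈ S.erase v := by rw [h]; exact hv
    exact (Finset.notMem_erase v S) this)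
  have hcard : ((S.erase v).card : ℝ) = S.card - 1 := by
    rw [Finset.card_erase_of_mem hv]
    have : 1 ≤ S.card := card_pos.2 ⟨v, hv⟩
    push_cast [Nat.cast_sub this]
    ring
  have hself : v ∉ nb G v := by simp [nb]
  have hsum : ∑ w ∈ S.erase v, ((d : ℝ) - (nb G w ∩ S.erase v).card) =
      ∑ w ∈ S, ((d : ℝ) - (nb G w ∩ S).card) - d + 2 * (nb G v ∩ S).card := by
    have h1 : ∀ w ∈ S.erase v, ((nb G w ∩ S.erase v).card : ℝ) =
        (nb G w ∩ S).card - (if G.Adj v w then 1 else 0) := by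
      intro w _
      have h2 : nb G w ∩ S.erase v = (nb G w ∩ S).erase v := by
        ext x
        simp only [mem_inter, mem_erase]
        tauto
      rw [h2]
      by_cases hvw : G.Adj v w
      · have h3 : v ∈ nb G w ∩ S := by
          simp only [mem_inter, nb, mem_filter, mem_univ, true_and]
          exact ⟨hvw.symm, hv⟩
        rw [Finset.card_erase_of_mem h3, if_pos hvw]
        have : 1 ≤ (nb G w ∩ S).card := card_pos.2 ⟨v, h3⟩
        push_cast [Nat.cast_sub this]
        ring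
      · have h3 : v ∉ nb G w ∩ S := by
          simp only [mem_inter, nb, mem_filter, mem_univ, true_and, not_and]
          intro h
          exact absurd h.symm hvw
        rw [Finset.erase_eq_of_notMem h3, if_neg hvw]
        ring
    have h4 : ∑ w ∈ S.erase v, ((d : ℝ) - (nb G w ∩ S.erase v).card) =
        ∑ w ∈ S.erase v, (((d : ℝ) - (nb G w ∩ S).card) + (if G.Adj v w then (1 : ℝ) else 0)) := by
      refine Finset.sum_congr rfl fun w hw => ?_
      rw [h1 w hw]
      ring
    rw [h4, Finset.sum_add_distrib]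
    have h5 : ∑ w ∈ S.erase v, (if G.Adj v w then (1 : ℝ) else 0) = (nb G v ∩ S).card := by
      rw [Finset.sum_boole]
      congr 2
      ext x
      simp only [mem_filter, mem_erase, mem_inter, nb, mem_univ, true_and]
      constructor
      · rintro ⟨⟨-, h⟩, h'⟩
        exact ⟨h', h⟩
      · rintro ⟨h', h⟩
        exact ⟨⟨h'.ne', h⟩, h'⟩
    have h6 := Finset.sum_erase_add S (fun w => (d : ℝ) - (nb G w ∩ S).card) hv
    rw [h5]
    linarith
  have hS3 := hS.2.2
  refine ⟨?_, ?_, ?_⟩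
  · rw [Finset.nonempty_iff_ne_empty]
    intro h0
    have h1 : S.card = 1 := by
      have : (S.erase v).card = 0 := by rw [h0]; simp
      rw [Finset.card_erase_of_mem hv] at this
      have h2 : 1 ≤ S.card := card_pos.2 ⟨v, hv⟩
      omega
    rw [h0, Finset.sum_empty] at hsum
    rw [h1] at hS3
    push_cast at hS3
    have h2 : (nb G v ∩ S).card = 0 := by
      obtain ⟨x, hx⟩ := Finset.card_eq_one.1 h1
      have hvx : v = x := by
        rw [hx] at hv
        exact mem_singleton.1 hv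
      rw [Finset.card_eq_zero, Finset.eq_empty_iff_forall_notMem]
      intro y hy
      rw [hx, ← hvx] at hy
      obtain ⟨hy1, hy2⟩ := mem_inter.1 hy
      rw [mem_singleton.1 hy2] at hy1
      exact hself hy1
    rw [h2] at hsum
    push_cast at hsum
    nlinarith
  · rw [hcard]
    have := hS.2.1
    linarith
  · rw [hsum, hcard]
    nlinarith

/-- removed vertices -/
theorem removed (θ g1 : ℝ) (G : SimpleGraph V) (d : ℕ) (hd : 1 ≤ d) (hθ : 0 < θ)
    (hdeg : ∀ v, (nb G v).card ≤ d) (S : Finset V) (hS : Raw (θ ^ 2 / 16) g1 G d S) :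
    ((S \ trim θ G d S).card : ℝ) ≤ θ / 4 * S.card := by
  have hd0 : (1 : ℝ) ≤ d := by exact_mod_cast hd
  have h1 : ∑ v ∈ S \ trim θ G d S, (θ / 4 * d) ≤ ∑ v ∈ S, ((d : ℝ) - (nb G v ∩ S).card) := by
    calc ∑ v ∈ S \ trim θ G d S, (θ / 4 * (d : ℝ))
        ≤ ∑ v ∈ S \ trim θ G d S, ((d : ℝ) - (nb G v ∩ S).card) := by
          refine Finset.sum_le_sum fun v hv => ?_
          obtain ⟨hv1, hv2⟩ := mem_sdiff.1 hv
          by_contra hcon
          push Not at hcon
          exact hv2 (mem_filter.2 ⟨hv1, hcon.le⟩)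
      _ ≤ _ := by
          refine Finset.sum_le_sum_of_subset_of_nonneg sdiff_subset fun v _ _ => ?_
          have : ((nb G v ∩ S).card : ℝ) ≤ d := by
            exact_mod_cast (card_le_card inter_subset_left).trans (hdeg v)
          linarith
  rw [Finset.sum_const, nsmul_eq_mul] at h1
  have h2 := hS.2.2
  have h3 : ((S \ trim θ G d S).card : ℝ) * (θ / 4 * d) ≤ (θ / 4 * S.card) * (θ / 4 * d) := by
    calc ((S \ trim θ G d S).card : ℝ) * (θ / 4 * d) ≤ θ ^ 2 / 16 * d * S.card := h1.trans h2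
      _ = _ := by ring
  exact le_of_mul_le_mul_right h3 (by positivity)

end STRUCT

open STRUCT

/-- STRUCT: existence of the spots. -/
theorem struct (θ : ℝ) (hθ : 0 < θ) (hθ1 : θ ≤ 1 / 10) : ∃ g1 : ℝ, 0 < g1 ∧ g1 ≤ θ ∧
    ∀ g : ℝ, 0 < g → g ≤ g1 → ∀ {V : Type u} [Fintype V] (G : SimpleGraph V) (d : ℕ), 1 ≤ d →
      (∀ v, (nb G v).card ≤ d) → ∃ Ys : Finset (Finset V), Spots θ g G d Ys := by
  refine ⟨θ ^ 2 / 160, by positivity, by nlinarith, ?_⟩
  intro g hg hgg V _ G d hd hdeg
  have hd0 : (1 : ℝ) ≤ d := by exact_mod_cast hd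
  set θ1 : ℝ := θ ^ 2 / 16 with hθ1d
  set g1 : ℝ := θ ^ 2 / 160 with hg1d
  have hg1θ : g1 ≤ θ / 1600 := by rw [hg1d]; nlinarith
  have hg1p : 0 < g1 := by positivity
  have hθ1s : θ1 ≤ 1 / 1600 := by rw [hθ1d]; nlinarith
  have hθ1p : 0 < θ1 := by positivity
  obtain ⟨F, hF1, hF2, hF3, hF4⟩ := family θ1 g1 G d
  have hrem : ∀ S ∈ F, ((S \ trim θ G d S).card : ℝ) ≤ θ / 4 * S.card := fun S hS =>
    removed θ g1 G d hd hθ hdeg S (hF1 S hS)
  have hSle : ∀ S ∈ F, (S.card : ℝ) ≤ (1 + g1) * d := fun S hS => (hF1 S hS).2.1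
  have hrem2 : ∀ S ∈ F, ((S \ trim θ G d S).card : ℝ) ≤ 26 / 100 * (θ * d) := by
    intro S hS
    have h1 := hrem S hS
    have h2 := hSle S hS
    have h3 : θ / 4 * (S.card : ℝ) ≤ θ / 4 * ((1 + g1) * d) :=
      mul_le_mul_of_nonneg_left h2 (by positivity)
    have h4 : (1 + g1) ≤ 104 / 100 := by nlinarith
    have h5 : θ / 4 * ((1 + g1) * d) ≤ θ / 4 * (104 / 100 * d) := by
      apply mul_le_mul_of_nonneg_left _ (by positivity)
      exact mul_le_mul_of_nonneg_right h4 (by positivity)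
    linarith
  have htsub : ∀ S, trim θ G d S ⊆ S := fun S => filter_subset _ _
  have hinner : ∀ S ∈ F, ∀ v ∈ trim θ G d S,
      (1 - 52 / 100 * θ) * d ≤ ((nb G v ∩ trim θ G d S).card : ℝ) := by
    intro S hS v hv
    have h1 := (mem_filter.1 hv).2
    have h2 := hrem2 S hS
    have h3 : nb G v ∩ S ⊆ (nb G v ∩ trim θ G d S) ∪ (S \ trim θ G d S) := by
      intro x hx
      obtain ⟨hx1, hx2⟩ := mem_inter.1 hx
      by_cases hxt : x ∈ trim θ G d S
      · exact mem_union_left _ (mem_inter.2 ⟨hx1, hxt⟩)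
      · exact mem_union_right _ (mem_sdiff.2 ⟨hx2, hxt⟩)
    have h4 := (card_le_card h3).trans (card_union_le _ _)
    have h5 : ((nb G v ∩ S).card : ℝ) ≤ (nb G v ∩ trim θ G d S).card +
        (S \ trim θ G d S).card := by exact_mod_cast h4
    nlinarith
  have htne : ∀ S ∈ F, (trim θ G d S).Nonempty := by
    intro S hS
    rw [Finset.nonempty_iff_ne_empty]
    intro h0
    have h1 := hrem S hS
    rw [h0, Finset.sdiff_empty] at h1
    have h2 : (0 : ℝ) < S.card := by exact_mod_cast card_pos.2 (hF1 S hS).1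
    nlinarith
  refine ⟨F.image (trim θ G d), ?_, ?_, ?_, ?_, ?_, ?_⟩
  · intro Y hY Y' hY' hne
    obtain ⟨S, hS, rfl⟩ := mem_image.1 hY
    obtain ⟨S', hS', rfl⟩ := mem_image.1 hY'
    have hSS : S ≠ S' := fun h => hne (by rw [h])
    exact (hF2 S hS S' hS' hSS).mono (htsub S) (htsub S')
  · intro Y hY
    obtain ⟨S, hS, rfl⟩ := mem_image.1 hY
    obtain ⟨v, hv⟩ := htne S hS
    have h1 := hinner S hS v hv
    have h2 : ((nb G v ∩ trim θ G d S).card : ℝ) ≤ (trim θ G d S).card := by
      exact_mod_cast card_le_card inter_subset_right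
    have h3 : (1 - θ) * (d : ℝ) ≤ (1 - 52 / 100 * θ) * d := by
      apply mul_le_mul_of_nonneg_right _ (by positivity)
      linarith
    linarith
  · intro Y hY
    obtain ⟨S, hS, rfl⟩ := mem_image.1 hY
    have h1 : ((trim θ G d S).card : ℝ) ≤ S.card := by exact_mod_cast card_le_card (htsub S)
    have h2 := hSle S hS
    have h3 : (1 + g1) * (d : ℝ) ≤ (1 + θ) * d := by
      apply mul_le_mul_of_nonneg_right _ (by positivity)
      nlinarith
    linarith
  · intro Y hY v hv
    obtain ⟨S, hS, rfl⟩ := mem_image.1 hY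
    have h1 := hinner S hS v hv
    have h2 := Finset.card_sdiff_add_card_inter (nb G v) (trim θ G d S)
    have h3 : ((nb G v \ trim θ G d S).card : ℝ) + (nb G v ∩ trim θ G d S).card =
        (nb G v).card := by exact_mod_cast h2
    have h4 : ((nb G v).card : ℝ) ≤ d := by exact_mod_cast hdeg v
    nlinarith
  · intro Y hY v hv
    obtain ⟨S, hS, rfl⟩ := mem_image.1 hY
    have h1 := hinner S hS v hv
    have h2 := Finset.card_sdiff_add_card_inter (trim θ G d S) (nb G v)
    have h3 : ((trim θ G d S \ nb G v).card : ℝ) + (trim θ G d S ∩ nb G v).card =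
        (trim θ G d S).card := by exact_mod_cast h2
    rw [Finset.inter_comm (trim θ G d S)] at h3
    have h5 : ((trim θ G d S).card : ℝ) ≤ S.card := by exact_mod_cast card_le_card (htsub S)
    have h6 := hSle S hS
    nlinarith
  · intro C hCdis hheavy hCcard
    by_contra hcon
    push Not at hcon
    have hC0 : (0 : ℝ) ≤ C.card := Nat.cast_nonneg _
    have hCpos : (0 : ℝ) < C.card := by
      rcases hC0.lt_or_eq with h | h
      · exact h
      · exfalso
        rw [← h, mul_zero] at hcon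
        have : (0 : ℝ) ≤ ∑ v ∈ C, ((nb G v \ C).card : ℝ) :=
          Finset.sum_nonneg fun _ _ => Nat.cast_nonneg _
        linarith
    -- the removed vertices in `C`
    set Z : Finset V := C.filter (fun v => ∃ S ∈ F, v ∈ S) with hZ
    have hZC : Z ⊆ C := filter_subset _ _
    have hZout : ∀ z ∈ Z, (d : ℝ) / 3 ≤ (nb G z \ C).card := by
      intro z hz
      obtain ⟨hzC, S, hS, hzS⟩ := mem_filter.1 hz
      have h1 := half θ1 g1 G d hd (by linarith) S (hF1 S hS) (hF3 S hS) z hzS
      have h2 := hrem2 S hS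
      have h3 : nb G z ∩ S ⊆ (nb G z \ C) ∪ (S \ trim θ G d S) := by
        intro x hx
        obtain ⟨hx1, hx2⟩ := mem_inter.1 hx
        by_cases hxt : x ∈ trim θ G d S
        · refine mem_union_left _ (mem_sdiff.2 ⟨hx1, fun hxC => ?_⟩)
          exact Finset.disjoint_left.1 (hCdis _ (mem_image_of_mem _ hS)) hxC hxt
        · exact mem_union_right _ (mem_sdiff.2 ⟨hx2, hxt⟩)
      have h4 := (card_le_card h3).trans (card_union_le _ _)
      have h5 : ((nb G z ∩ S).card : ℝ) ≤ (nb G z \ C).card + (S \ trim θ G d S).card := by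
        exact_mod_cast h4
      nlinarith
    have hZcard : (Z.card : ℝ) ≤ 3 * g * C.card := by
      have h1 : ∑ z ∈ Z, ((d : ℝ) / 3) ≤ ∑ v ∈ C, ((nb G v \ C).card : ℝ) := by
        calc ∑ z ∈ Z, ((d : ℝ) / 3) ≤ ∑ z ∈ Z, ((nb G z \ C).card : ℝ) :=
              Finset.sum_le_sum hZout
          _ ≤ _ := Finset.sum_le_sum_of_subset_of_nonneg hZC fun _ _ _ => Nat.cast_nonneg _
      rw [Finset.sum_const, nsmul_eq_mul] at h1
      have h2 : (Z.card : ℝ) * (d / 3) ≤ (3 * g * C.card) * (d / 3) := by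
        calc (Z.card : ℝ) * (d / 3) ≤ g * d * C.card := h1.trans hcon.le
          _ = _ := by ring
      exact le_of_mul_le_mul_right h2 (by positivity)
    set C' : Finset V := C \ Z with hC'
    have hC'c : (C'.card : ℝ) = C.card - Z.card := by
      have h1 := Finset.card_sdiff_add_card_eq_card hZC
      have h2 : ((C \ Z).card : ℝ) + Z.card = C.card := by exact_mod_cast h1
      rw [hC']; linarith
    have hgs : g ≤ 1 / 1000 := by nlinarith
    have hC'low : (1 - 3 * g) * C.card ≤ C'.card := by rw [hC'c]; linarith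
    have hC'pos : (0 : ℝ) < C'.card := by nlinarith
    apply hF4 C'
    · refine ⟨card_pos.1 (by exact_mod_cast hC'pos), ?_, ?_⟩
      · have h1 : (1 + g) * (d : ℝ) ≤ (1 + g1) * d := by
          apply mul_le_mul_of_nonneg_right _ (by positivity)
          linarith
        have h2 : (C'.card : ℝ) ≤ C.card := by
          exact_mod_cast card_le_card (sdiff_subset)
        linarith
      · have h1 : ∀ v ∈ C', (d : ℝ) - (nb G v ∩ C').card ≤
            g * d + (nb G v \ C).card + (nb G v ∩ Z).card := by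
          intro v hv
          have hvC : v ∈ C := (mem_sdiff.1 hv).1
          have h2 := hheavy v hvC
          have h3 : nb G v ⊆ (nb G v ∩ C') ∪ (nb G v \ C) ∪ (nb G v ∩ Z) := by
            intro x hx
            by_cases hxC : x ∈ C
            · by_cases hxZ : x ∈ Z
              · exact mem_union_right _ (mem_inter.2 ⟨hx, hxZ⟩)
              · exact mem_union_left _ (mem_union_left _
                  (mem_inter.2 ⟨hx, mem_sdiff.2 ⟨hxC, hxZ⟩⟩))
            · exact mem_union_left _ (mem_union_right _ (mem_sdiff.2 ⟨hx, hxC⟩))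
          have h4 : (nb G v).card ≤ (nb G v ∩ C').card + (nb G v \ C).card +
              (nb G v ∩ Z).card :=
            (card_le_card h3).trans ((card_union_le _ _).trans
              (Nat.add_le_add_right (card_union_le _ _) _))
          have h5 : ((nb G v).card : ℝ) ≤ (nb G v ∩ C').card + (nb G v \ C).card +
              (nb G v ∩ Z).card := by exact_mod_cast h4
          linarith
        have h2 := Finset.sum_le_sum h1
        rw [Finset.sum_add_distrib, Finset.sum_add_distrib, Finset.sum_const,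
          nsmul_eq_mul] at h2
        have h3 : ∑ v ∈ C', ((nb G v \ C).card : ℝ) ≤ ∑ v ∈ C, ((nb G v \ C).card : ℝ) :=
          Finset.sum_le_sum_of_subset_of_nonneg sdiff_subset fun _ _ _ => Nat.cast_nonneg _
        have h4 : ∑ v ∈ C', ((nb G v ∩ Z).card : ℝ) ≤ d * Z.card := by
          rw [dbl]
          have h5 : ∑ z ∈ Z, ((nb G z ∩ C').card : ℝ) ≤ ∑ z ∈ Z, (d : ℝ) := by
            refine Finset.sum_le_sum fun z _ => ?_
            exact_mod_cast (card_le_card inter_subset_left).trans (hdeg z)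
          rw [Finset.sum_const, nsmul_eq_mul] at h5
          linarith
        have h5 : (C'.card : ℝ) ≤ C.card := by
          exact_mod_cast card_le_card (sdiff_subset)
        have h6 : (C'.card : ℝ) * (g * d) ≤ C.card * (g * d) :=
          mul_le_mul_of_nonneg_right h5 (by positivity)
        have h7 : (d : ℝ) * Z.card ≤ d * (3 * g * C.card) :=
          mul_le_mul_of_nonneg_left hZcard (by positivity)
        have h8 : ∑ v ∈ C', ((d : ℝ) - (nb G v ∩ C').card) ≤ 5 * g * (d * C.card) := by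
          linarith
        have h9 : 5 * g * ((d : ℝ) * C.card) ≤ θ1 * d * C'.card := by
          have h10 : 10 * g ≤ θ1 := by rw [hθ1d]; rw [hg1d] at hgg; linarith
          have h11 : (C.card : ℝ) ≤ 2 * C'.card := by nlinarith
          calc 5 * g * ((d : ℝ) * C.card) ≤ 5 * g * (d * (2 * C'.card)) := by
                apply mul_le_mul_of_nonneg_left _ (by positivity)
                exact mul_le_mul_of_nonneg_left h11 (by positivity)
            _ = (10 * g) * (d * C'.card) := by ring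
            _ ≤ θ1 * (d * C'.card) := mul_le_mul_of_nonneg_right h10 (by positivity)
            _ = _ := by ring
        exact h8.trans h9
    · intro S hS
      rw [Finset.disjoint_left]
      intro v hv hvS
      obtain ⟨hvC, hvZ⟩ := mem_sdiff.1 hv
      exact hvZ (mem_filter.2 ⟨hvC, S, hS, hvS⟩)

/-- `G` without the edges inside `Sp` -/
def Gout {V : Type u} (G : SimpleGraph V) (Sp : Finset V) : SimpleGraph V where
  Adj v w := G.Adj v w ∧ ¬ (v ∈ Sp ∧ w ∈ Sp)
  symm := ⟨fun _ _ h => ⟨h.1.symm, fun h' => h.2 ⟨h'.2, h'.1⟩⟩⟩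
  loopless := ⟨fun v h => G.loopless.irrefl v h.1⟩

/-- the spot vertices -/
noncomputable def spv {V : Type u} (Ys : Finset (Finset V)) : Finset V := Ys.biUnion id

/-- The graph outside the spots satisfies the hypotheses of THEOREM OUT. `g0` is the constant for
almost bipartite parts of `G`. -/
theorem struct_out {V : Type u} [Fintype V] (θ g g0 : ℝ) (hg : 0 < g) (hgg : g ≤ g0)
    (hθ1 : θ ≤ 1 / 10) (hg1 : g ≤ 1 / 10) (G : SimpleGraph V) (d : ℕ) (hd : 1 ≤ d)
    (Ys : Finset (Finset V)) (hY : Spots θ g G d Ys) (hdeg : ∀ v, (nb G v).card ≤ d)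
    (hbip : ∀ S T : Finset V, Disjoint S T → (∀ t ∈ T, (1 - g0) * d ≤ ((nb G t).card : ℝ)) →
      (S.card : ℝ) ≤ (1 + g0) * T.card → g0 * d * T.card ≤ ∑ t ∈ T, ((nb G t \ S).card : ℝ)) :
    (∀ v, (nb (Gout G (spv Ys)) v).card ≤ d) ∧
    (∀ s ∈ spv Ys, ((nb (Gout G (spv Ys)) s).card : ℝ) ≤ θ * d) ∧
    (∀ s ∈ spv Ys, ∀ s' ∈ spv Ys, ¬ (Gout G (spv Ys)).Adj s s') ∧
    (∀ S T : Finset V, Disjoint S T →
      (∀ t ∈ T, (1 - g) * d ≤ ((nb (Gout G (spv Ys)) t).card : ℝ)) →
      (S.card : ℝ) ≤ (1 + g) * T.card →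
      g * d * T.card ≤ ∑ t ∈ T, ((nb (Gout G (spv Ys)) t \ S).card : ℝ)) ∧
    (∀ C : Finset V, (∀ v ∈ C, (1 - g) * d ≤ ((nb (Gout G (spv Ys)) v).card : ℝ)) →
      (C.card : ℝ) ≤ (1 + g) * d →
      g * d * C.card ≤ ∑ v ∈ C, ((nb (Gout G (spv Ys)) v \ C).card : ℝ)) ∧
    (∀ Y ∈ Ys, Y ⊆ spv Ys ∧ Y.card ≤ 2 * d) ∧
    (∀ v, v ∉ spv Ys → nb (Gout G (spv Ys)) v = nb G v) := by
  have hd0 : (1 : ℝ) ≤ d := by exact_mod_cast hd
  have hsub : ∀ v, nb (Gout G (spv Ys)) v ⊆ nb G v := by
    intro v w hw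
    simp only [nb, Gout, mem_filter, mem_univ, true_and] at hw ⊢
    exact hw.1
  have heq : ∀ v, v ∉ spv Ys → nb (Gout G (spv Ys)) v = nb G v := by
    intro v hv
    apply Finset.Subset.antisymm (hsub v)
    intro w hw
    simp only [nb, Gout, mem_filter, mem_univ, true_and] at hw ⊢
    exact ⟨hw, fun h => hv h.1⟩
  have hmem : ∀ Y ∈ Ys, Y ⊆ spv Ys := by
    intro Y hY v hv
    exact Finset.mem_biUnion.2 ⟨Y, hY, hv⟩
  have hlight : ∀ s ∈ spv Ys, ((nb (Gout G (spv Ys)) s).card : ℝ) ≤ θ * d := by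
    intro s hs
    obtain ⟨Y, hY1, hsY⟩ := Finset.mem_biUnion.1 hs
    refine le_trans ?_ (hY.out Y hY1 s hsY)
    have : nb (Gout G (spv Ys)) s ⊆ nb G s \ Y := by
      intro w hw
      simp only [nb, Gout, mem_filter, mem_univ, true_and] at hw
      refine mem_sdiff.2 ⟨by simp only [nb, mem_filter, mem_univ, true_and]; exact hw.1,
        fun h => hw.2 ⟨hs, hmem Y hY1 h⟩⟩
    exact_mod_cast card_le_card this
  have hfree : ∀ v, (1 - g) * d ≤ ((nb (Gout G (spv Ys)) v).card : ℝ) → v ∉ spv Ys := by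
    intro v hv hs
    have := hlight v hs
    nlinarith
  refine ⟨fun v => (card_le_card (hsub v)).trans (hdeg v), hlight, ?_, ?_, ?_, ?_, heq⟩
  · intro s hs s' hs' h
    exact h.2 ⟨hs, hs'⟩
  · intro S T hST hT hc
    have h1 : ∀ t ∈ T, nb (Gout G (spv Ys)) t = nb G t := fun t ht =>
      heq t (hfree t (hT t ht))
    have h2 : ∑ t ∈ T, ((nb (Gout G (spv Ys)) t \ S).card : ℝ) =
        ∑ t ∈ T, ((nb G t \ S).card : ℝ) :=
      Finset.sum_congr rfl fun t ht => by rw [h1 t ht]
    rw [h2]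
    have hT0 : (0 : ℝ) ≤ T.card := Nat.cast_nonneg _
    have h3 := hbip S T hST (fun t ht => by
      have h4 := hT t ht
      rw [h1 t ht] at h4
      have h5 : (1 - g0) * (d : ℝ) ≤ (1 - g) * d := by
        apply mul_le_mul_of_nonneg_right _ (by positivity)
        linarith
      linarith) (by
      have : (1 + g) * (T.card : ℝ) ≤ (1 + g0) * T.card := by
        apply mul_le_mul_of_nonneg_right _ hT0
        linarith
      linarith)
    refine le_trans ?_ h3
    apply mul_le_mul_of_nonneg_right _ hT0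
    apply mul_le_mul_of_nonneg_right hgg (by positivity)
  · intro C hC hc
    have h1 : ∀ t ∈ C, nb (Gout G (spv Ys)) t = nb G t := fun t ht =>
      heq t (hfree t (hC t ht))
    have h2 : ∑ t ∈ C, ((nb (Gout G (spv Ys)) t \ C).card : ℝ) =
        ∑ t ∈ C, ((nb G t \ C).card : ℝ) :=
      Finset.sum_congr rfl fun t ht => by rw [h1 t ht]
    rw [h2]
    refine hY.nsc C ?_ ?_ hc
    · intro Y hY1
      rw [Finset.disjoint_left]
      intro v hv hvY
      exact hfree v (hC v hv) (hmem Y hY1 hvY)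
    · intro v hv
      rw [← h1 v hv]
      exact hC v hv
  · intro Y hY1
    refine ⟨hmem Y hY1, ?_⟩
    have h1 := hY.upp Y hY1
    have h2 : (Y.card : ℝ) ≤ 2 * d := by nlinarith
    exact_mod_cast h2

end Pool.Agent.Work.MP_db9399_th.helper59
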