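import Pool.Agent.Work.MP_db9399_th_helper59.STRUCT

/-!
# MP_db9399, frame of THEOREM OUT: the spots without the vertices of `H`
-/

set_option autoImplicit false

namespace Pool.Agent.Work.MP_db9399_th.helper59

open Finset Classical
open Pool.Agent.Work.MP_db9399_all (nb)

universe u

/-- Almost complete spots `Ys` without vertices of `UH`, and the graph `Gout G (spv Ys)` outside:
all hypotheses of THEOREM OUT. -/
structure SpH {V : Type u} [Fintype V] (θ g : ℝ) (G : SimpleGraph V) (d : ℕ) (UH : Finset V)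
    (Ys : Finset (Finset V)) : Prop where
  dis : ∀ Y ∈ Ys, ∀ Y' ∈ Ys, Y ≠ Y' → Disjoint Y Y'
  nU : ∀ Y ∈ Ys, Disjoint Y UH
  low : ∀ Y ∈ Ys, (1 - θ) * d ≤ (Y.card : ℝ)
  upp : ∀ Y ∈ Ys, (Y.card : ℝ) ≤ (1 + θ) * d
  out : ∀ Y ∈ Ys, ∀ v ∈ Y, ((nb G v \ Y).card : ℝ) ≤ θ * d
  inn : ∀ Y ∈ Ys, ∀ v ∈ Y, ((Y \ nb G v).card : ℝ) ≤ θ * d
  deg : ∀ v, (nb (Gout G (spv Ys)) v).card ≤ d
  light : ∀ s ∈ spv Ys, ((nb (Gout G (spv Ys)) s).card : ℝ) ≤ θ * d
  ind : ∀ s ∈ spv Ys, ∀ s' ∈ spv Ys, ¬ (Gout G (spv Ys)).Adj s s'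
  bip : ∀ S T : Finset V, Disjoint S T →
      (∀ t ∈ T, (1 - g) * d ≤ ((nb (Gout G (spv Ys)) t).card : ℝ)) →
      (S.card : ℝ) ≤ (1 + g) * T.card →
      g * d * T.card ≤ ∑ t ∈ T, ((nb (Gout G (spv Ys)) t \ S).card : ℝ)
  nsc : ∀ C : Finset V, (∀ v ∈ C, (1 - g) * d ≤ ((nb (Gout G (spv Ys)) v).card : ℝ)) →
      (C.card : ℝ) ≤ (1 + g) * d →
      g * d * C.card ≤ ∑ v ∈ C, ((nb (Gout G (spv Ys)) v \ C).card : ℝ)
  two : ∀ Y ∈ Ys, Y ⊆ spv Ys ∧ Y.card ≤ 2 * d
  eq : ∀ v, v ∉ spv Ys → nb (Gout G (spv Ys)) v = nb G v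

/-- STRUCT with `H`. -/
theorem struct_H (θ g0 : ℝ) (hθ : 0 < θ) (hθ1 : θ ≤ 1 / 10) (hg0 : 0 < g0) :
    ∃ (g : ℝ) (d0 : ℕ), 0 < g ∧ g ≤ g0 ∧ g ≤ 1 / 10 ∧ ∀ {V : Type u} [Fintype V]
      (G : SimpleGraph V) (d : ℕ) (UH : Finset V), d0 ≤ d → (∀ v, (nb G v).card ≤ d) →
      (∀ S T : Finset V, Disjoint S T → (∀ t ∈ T, (1 - g0) * d ≤ ((nb G t).card : ℝ)) →
        (S.card : ℝ) ≤ (1 + g0) * T.card →
        g0 * d * T.card ≤ ∑ t ∈ T, ((nb G t \ S).card : ℝ)) →
      (∀ v, (nb G v ∩ UH).card ≤ 2) → ∃ Ys : Finset (Finset V), SpH θ g G d UH Ys := by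
  obtain ⟨g1, hg1p, hg1θ, H⟩ := struct (θ / 2) (by positivity) (by linarith)
  set gg : ℝ := min g1 (min g0 (1 / 10)) with hgg
  have hgg0 : 0 < gg := lt_min hg1p (lt_min hg0 (by norm_num))
  have hgg1 : gg ≤ g1 := min_le_left _ _
  have hgg2 : gg ≤ g0 := (min_le_right _ _).trans (min_le_left _ _)
  have hgg3 : gg ≤ 1 / 10 := (min_le_right _ _).trans (min_le_right _ _)
  obtain ⟨d1, hd1⟩ := exists_nat_ge (4 / θ)
  obtain ⟨d2, hd2⟩ := exists_nat_ge (4 / gg)
  refine ⟨gg / 2, max (max d1 d2) 10, by positivity, by linarith, by linarith, ?_⟩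
  intro V _ G d UH hd hdeg hbip hUH
  have hd1' : d1 ≤ d := ((le_max_left _ _).trans (le_max_left _ _)).trans hd
  have hd2' : d2 ≤ d := ((le_max_right _ _).trans (le_max_left _ _)).trans hd
  have hd10 : 10 ≤ d := (le_max_right _ _).trans hd
  have hd1n : 1 ≤ d := by omega
  have hdr : (10 : ℝ) ≤ d := by exact_mod_cast hd10
  have hθd : 4 ≤ θ * d := by
    have : 4 / θ ≤ d := hd1.trans (by exact_mod_cast hd1')
    rw [div_le_iff₀ hθ] at this
    linarith
  have hgd : 4 ≤ gg * d := by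
    have : 4 / gg ≤ d := hd2.trans (by exact_mod_cast hd2')
    rw [div_le_iff₀ hgg0] at this
    linarith
  obtain ⟨Ys, hY⟩ := H gg hgg0 hgg1 G d hd1n hdeg
  -- few vertices of `UH` in a spot
  have hYU : ∀ Y ∈ Ys, (Y ∩ UH).card ≤ 2 := by
    intro Y hY1
    by_contra hcon
    push Not at hcon
    obtain ⟨W, hW, hWc⟩ := Finset.exists_subset_card_eq (show 3 ≤ (Y ∩ UH).card by omega)
    -- a common neighbour in the spot
    have h1 : ((W.biUnion (fun u => Y \ nb G u)).card : ℝ) ≤ 3 * (θ / 2 * d) := by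
      have h2 : (W.biUnion (fun u => Y \ nb G u)).card ≤ ∑ u ∈ W, (Y \ nb G u).card :=
        Finset.card_biUnion_le
      have h3 : ((∑ u ∈ W, (Y \ nb G u).card : ℕ) : ℝ) ≤ ∑ u ∈ W, (θ / 2 * d) := by
        push_cast
        exact Finset.sum_le_sum fun u hu => hY.inn Y hY1 u (mem_inter.1 (hW hu)).1
      rw [Finset.sum_const, nsmul_eq_mul, hWc] at h3
      have h4 : ((W.biUnion (fun u => Y \ nb G u)).card : ℝ) ≤
          ((∑ u ∈ W, (Y \ nb G u).card : ℕ) : ℝ) := by exact_mod_cast h2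
      push_cast at h3 h4 ⊢
      linarith
    have h5 := hY.low Y hY1
    have h6 : (W.biUnion (fun u => Y \ nb G u)).card < Y.card := by
      have : ((W.biUnion (fun u => Y \ nb G u)).card : ℝ) < Y.card := by nlinarith
      exact_mod_cast this
    obtain ⟨v, hv, hvn⟩ := Finset.exists_mem_notMem_of_card_lt_card h6
    have h7 : W ⊆ nb G v ∩ UH := by
      intro u hu
      refine mem_inter.2 ⟨?_, (mem_inter.1 (hW hu)).2⟩
      by_contra h8
      apply hvn
      refine mem_biUnion.2 ⟨u, hu, mem_sdiff.2 ⟨hv, fun h9 => h8 ?_⟩⟩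
      simp only [nb, mem_filter, mem_univ, true_and] at h9 ⊢
      exact h9.symm
    have h8 := card_le_card h7
    have h9 := hUH v
    omega
  set Ys' : Finset (Finset V) := Ys.image (fun Y => Y \ UH) with hYs'
  have hsp : ∀ v, v ∈ spv Ys' ↔ v ∈ spv Ys ∧ v ∉ UH := by
    intro v
    simp only [spv, mem_biUnion, hYs', mem_image, id]
    constructor
    · rintro ⟨Y', ⟨Y, hY1, rfl⟩, hv⟩
      exact ⟨⟨Y, hY1, (mem_sdiff.1 hv).1⟩, (mem_sdiff.1 hv).2⟩
    · rintro ⟨⟨Y, hY1, hv⟩, hvU⟩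
      exact ⟨Y \ UH, ⟨Y, hY1, rfl⟩, mem_sdiff.2 ⟨hv, hvU⟩⟩
  have hcard : ∀ Y ∈ Ys, (Y.card : ℝ) - 2 ≤ ((Y \ UH).card : ℝ) := by
    intro Y hY1
    have h1 := Finset.card_sdiff_add_card_inter Y UH
    have h2 := hYU Y hY1
    have h3 : ((Y \ UH).card : ℝ) + (Y ∩ UH).card = Y.card := by exact_mod_cast h1
    have h4 : ((Y ∩ UH).card : ℝ) ≤ 2 := by exact_mod_cast h2
    linarith
  have hsub : ∀ v, nb (Gout G (spv Ys')) v ⊆ nb G v := by
    intro v w hw
    simp only [nb, Gout, mem_filter, mem_univ, true_and] at hw ⊢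
    exact hw.1
  have heq : ∀ v, v ∉ spv Ys' → nb (Gout G (spv Ys')) v = nb G v := by
    intro v hv
    apply Finset.Subset.antisymm (hsub v)
    intro w hw
    simp only [nb, Gout, mem_filter, mem_univ, true_and] at hw ⊢
    exact ⟨hw, fun h => hv h.1⟩
  have hmem : ∀ Y ∈ Ys, Y \ UH ⊆ spv Ys' := by
    intro Y hY1 v hv
    exact Finset.mem_biUnion.2 ⟨Y \ UH, mem_image.2 ⟨Y, hY1, rfl⟩, hv⟩
  have hout : ∀ Y ∈ Ys, ∀ v ∈ Y \ UH, ((nb G v \ (Y \ UH)).card : ℝ) ≤ θ * d := by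
    intro Y hY1 v hv
    have h1 := hY.out Y hY1 v (mem_sdiff.1 hv).1
    have h2 : nb G v \ (Y \ UH) ⊆ (nb G v \ Y) ∪ (Y ∩ UH) := by
      intro w hw
      obtain ⟨hw1, hw2⟩ := mem_sdiff.1 hw
      by_cases hwY : w ∈ Y
      · refine mem_union_right _ (mem_inter.2 ⟨hwY, ?_⟩)
        by_contra h
        exact hw2 (mem_sdiff.2 ⟨hwY, h⟩)
      · exact mem_union_left _ (mem_sdiff.2 ⟨hw1, hwY⟩)
    have h3 := (card_le_card h2).trans (card_union_le _ _)
    have h4 := hYU Y hY1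
    have h5 : ((nb G v \ (Y \ UH)).card : ℝ) ≤ (nb G v \ Y).card + 2 := by
      have : (nb G v \ (Y \ UH)).card ≤ (nb G v \ Y).card + 2 := by omega
      exact_mod_cast this
    linarith
  have hlight : ∀ s ∈ spv Ys', ((nb (Gout G (spv Ys')) s).card : ℝ) ≤ θ * d := by
    intro s hs
    obtain ⟨Y', hY1, hsY⟩ := Finset.mem_biUnion.1 hs
    obtain ⟨Y, hY2, rfl⟩ := mem_image.1 hY1
    refine le_trans ?_ (hout Y hY2 s hsY)
    have : nb (Gout G (spv Ys')) s ⊆ nb G s \ (Y \ UH) := by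
      intro w hw
      simp only [nb, Gout, mem_filter, mem_univ, true_and] at hw
      refine mem_sdiff.2 ⟨by simp only [nb, mem_filter, mem_univ, true_and]; exact hw.1,
        fun h => hw.2 ⟨hs, hmem Y hY2 h⟩⟩
    exact_mod_cast card_le_card this
  have hfree : ∀ v, (1 - gg / 2) * d ≤ ((nb (Gout G (spv Ys')) v).card : ℝ) →
      v ∉ spv Ys' := by
    intro v hv hs
    have := hlight v hs
    nlinarith
  refine ⟨Ys', ?_, ?_, ?_, ?_, ?_, ?_, ?_, hlight, ?_, ?_, ?_, ?_, heq⟩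
  · intro Y' hY1 Y'' hY2 hne
    obtain ⟨Y, hY3, rfl⟩ := mem_image.1 hY1
    obtain ⟨Y4, hY4, rfl⟩ := mem_image.1 hY2
    exact (hY.dis Y hY3 Y4 hY4 (fun h => hne (by rw [h]))).mono sdiff_subset sdiff_subset
  · intro Y' hY1
    obtain ⟨Y, hY3, rfl⟩ := mem_image.1 hY1
    exact Finset.sdiff_disjoint
  · intro Y' hY1
    obtain ⟨Y, hY3, rfl⟩ := mem_image.1 hY1
    have h1 := hcard Y hY3
    have h2 := hY.low Y hY3
    linarith
  · intro Y' hY1
    obtain ⟨Y, hY3, rfl⟩ := mem_image.1 hY1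
    have h1 := hY.upp Y hY3
    have h2 : ((Y \ UH).card : ℝ) ≤ Y.card := by exact_mod_cast card_le_card sdiff_subset
    nlinarith
  · intro Y' hY1 v hv
    obtain ⟨Y, hY3, rfl⟩ := mem_image.1 hY1
    exact hout Y hY3 v hv
  · intro Y' hY1 v hv
    obtain ⟨Y, hY3, rfl⟩ := mem_image.1 hY1
    have h1 := hY.inn Y hY3 v (mem_sdiff.1 hv).1
    have h2 : (((Y \ UH) \ nb G v).card : ℝ) ≤ (Y \ nb G v).card := by
      exact_mod_cast card_le_card (Finset.sdiff_subset_sdiff sdiff_subset (Subset.refl _))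
    linarith
  · intro v
    exact (card_le_card (hsub v)).trans (hdeg v)
  · intro s hs s' hs' h
    exact h.2 ⟨hs, hs'⟩
  · intro S T hST hT hc
    have h1 : ∀ t ∈ T, nb (Gout G (spv Ys')) t = nb G t := fun t ht =>
      heq t (hfree t (hT t ht))
    have h2 : ∑ t ∈ T, ((nb (Gout G (spv Ys')) t \ S).card : ℝ) =
        ∑ t ∈ T, ((nb G t \ S).card : ℝ) :=
      Finset.sum_congr rfl fun t ht => by rw [h1 t ht]
    rw [h2]
    have hT0 : (0 : ℝ) ≤ T.card := Nat.cast_nonneg _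
    have h3 := hbip S T hST (fun t ht => by
      have h4 := hT t ht
      rw [h1 t ht] at h4
      have h5 : (1 - g0) * (d : ℝ) ≤ (1 - gg / 2) * d := by
        apply mul_le_mul_of_nonneg_right _ (by positivity)
        linarith
      linarith) (by
      have : (1 + gg / 2) * (T.card : ℝ) ≤ (1 + g0) * T.card := by
        apply mul_le_mul_of_nonneg_right _ hT0
        linarith
      linarith)
    refine le_trans ?_ h3
    apply mul_le_mul_of_nonneg_right _ hT0
    apply mul_le_mul_of_nonneg_right _ (by positivity)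
    linarith
  · intro C hC hc
    have h1 : ∀ t ∈ C, nb (Gout G (spv Ys')) t = nb G t := fun t ht =>
      heq t (hfree t (hC t ht))
    have h2 : ∑ t ∈ C, ((nb (Gout G (spv Ys')) t \ C).card : ℝ) =
        ∑ t ∈ C, ((nb G t \ C).card : ℝ) :=
      Finset.sum_congr rfl fun t ht => by rw [h1 t ht]
    rw [h2]
    set C0 : Finset V := C.filter (fun v => v ∉ spv Ys) with hC0
    set U0 : Finset V := C.filter (fun v => v ∈ spv Ys) with hU0
    have hU0U : U0 ⊆ UH := by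
      intro u hu
      obtain ⟨hu1, hu2⟩ := mem_filter.1 hu
      by_contra h
      exact hfree u (hC u hu1) ((hsp u).2 ⟨hu2, h⟩)
    have hCc : (C.card : ℝ) = C0.card + U0.card := by
      have := Finset.card_filter_add_card_filter_not (s := C) (fun v => v ∈ spv Ys)
      have h3 : ((C.filter (fun v => v ∈ spv Ys)).card : ℝ) +
          (C.filter (fun v => ¬ v ∈ spv Ys)).card = C.card := by exact_mod_cast this
      rw [hC0, hU0]
      linarith
    have hsum : ∑ t ∈ C, ((nb G t \ C).card : ℝ) =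
        ∑ t ∈ U0, ((nb G t \ C).card : ℝ) + ∑ t ∈ C0, ((nb G t \ C).card : ℝ) := by
      rw [hU0, hC0]
      exact (Finset.sum_filter_add_sum_filter_not C (fun v => v ∈ spv Ys) _).symm
    have hC0n : (0 : ℝ) ≤ C0.card := Nat.cast_nonneg _
    have hU0n : (0 : ℝ) ≤ U0.card := Nat.cast_nonneg _
    have h3 : gg * d * C0.card ≤ ∑ v ∈ C0, ((nb G v \ C0).card : ℝ) := by
      refine hY.nsc C0 ?_ ?_ ?_
      · intro Y hY1
        rw [Finset.disjoint_left]
        intro v hv hvY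
        exact (mem_filter.1 hv).2 (Finset.mem_biUnion.2 ⟨Y, hY1, hvY⟩)
      · intro v hv
        have hvC := (mem_filter.1 hv).1
        have h4 := hC v hvC
        rw [h1 v hvC] at h4
        have h5 : (1 - gg) * (d : ℝ) ≤ (1 - gg / 2) * d := by
          apply mul_le_mul_of_nonneg_right _ (by positivity)
          linarith
        linarith
      · have h4 : (C0.card : ℝ) ≤ C.card := by linarith
        have h5 : (1 + gg / 2) * (d : ℝ) ≤ (1 + gg) * d := by
          apply mul_le_mul_of_nonneg_right _ (by positivity)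
          linarith
        linarith
    have h4 : ∑ v ∈ C0, ((nb G v \ C0).card : ℝ) ≤
        ∑ v ∈ C0, ((nb G v \ C).card : ℝ) + 2 * C0.card := by
      have : ((C0.card : ℕ) : ℝ) = ∑ v ∈ C0, (1 : ℝ) := by simp
      rw [this, Finset.mul_sum, ← Finset.sum_add_distrib]
      refine Finset.sum_le_sum fun v hv => ?_
      have h5 : nb G v \ C0 ⊆ (nb G v \ C) ∪ (nb G v ∩ UH) := by
        intro w hw
        obtain ⟨hw1, hw2⟩ := mem_sdiff.1 hw
        by_cases hwC : w ∈ C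
        · refine mem_union_right _ (mem_inter.2 ⟨hw1, hU0U (mem_filter.2 ⟨hwC, ?_⟩)⟩)
          by_contra h
          exact hw2 (mem_filter.2 ⟨hwC, h⟩)
        · exact mem_union_left _ (mem_sdiff.2 ⟨hw1, hwC⟩)
      have h6 := (card_le_card h5).trans (card_union_le _ _)
      have h7 := hUH v
      have h8 : (nb G v \ C0).card ≤ (nb G v \ C).card + 2 := by omega
      have h9 : ((nb G v \ C0).card : ℝ) ≤ (nb G v \ C).card + 2 := by exact_mod_cast h8
      linarith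
    have h5 : (d : ℝ) / 2 * U0.card ≤ ∑ v ∈ U0, ((nb G v \ C).card : ℝ) := by
      have h6 : ∑ v ∈ U0, ((d : ℝ) / 2) ≤ ∑ v ∈ U0, ((nb G v \ C).card : ℝ) := by
        refine Finset.sum_le_sum fun u hu => ?_
        obtain ⟨hu1, hu2⟩ := mem_filter.1 hu
        obtain ⟨Y, hY1, huY⟩ := Finset.mem_biUnion.1 hu2
        have h7 : Y \ UH ⊆ (nb G u \ C) ∪ (Y \ nb G u) := by
          intro w hw
          by_cases hwn : w ∈ nb G u
          · refine mem_union_left _ (mem_sdiff.2 ⟨hwn, fun hwC => ?_⟩)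
            exact hfree w (hC w hwC) (hmem Y hY1 hw)
          · exact mem_union_right _ (mem_sdiff.2 ⟨(mem_sdiff.1 hw).1, hwn⟩)
        have h8 := (card_le_card h7).trans (card_union_le _ _)
        have h9 : ((Y \ UH).card : ℝ) ≤ (nb G u \ C).card + (Y \ nb G u).card := by
          exact_mod_cast h8
        have h10 := hcard Y hY1
        have h11 := hY.low Y hY1
        have h12 := hY.inn Y hY1 u huY
        nlinarith
      rw [Finset.sum_const, nsmul_eq_mul] at h6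
      linarith
    rw [hsum, hCc]
    have h6 : 4 * (C0.card : ℝ) ≤ gg * d * C0.card := mul_le_mul_of_nonneg_right hgd hC0n
    have h7 : gg / 2 * d * (U0.card : ℝ) ≤ d / 2 * U0.card := by
      apply mul_le_mul_of_nonneg_right _ hU0n
      nlinarith
    linarith
  · intro Y' hY1
    obtain ⟨Y, hY3, rfl⟩ := mem_image.1 hY1
    refine ⟨hmem Y hY3, ?_⟩
    have h1 := hY.upp Y hY3
    have h2 : ((Y \ UH).card : ℝ) ≤ Y.card := by exact_mod_cast card_le_card sdiff_subset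
    have h3 : ((Y \ UH).card : ℝ) ≤ 2 * d := by nlinarith
    exact_mod_cast h3

end Pool.Agent.Work.MP_db9399_th.helper59
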