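import Pool.Agent.Work.MP_db9399_th_helper59.TYP
import Pool.Agent.Work.MP_db9399_th_helper59.HOSTOF

/-!
# MP_db9399, block THIN from EDGX
-/

set_option autoImplicit false

namespace Pool.Agent.Work.MP_db9399_th.helper59

open Finset Classical
open Pool.Agent.Work.MP_db9399_all (nb)
open Pool.Agent.Work.MP_db9399_px (ee)
open Pool.Agent.Work.MP_db9399_lc (BL)
open Pool.Agent.Work.MP_db9399_th

universe u

/-- Block THIN. -/
theorem stmt_THIN (hE : Stmt_EDGX.{u}) : Stmt_THIN.{u} := by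
  intro n K g th ε hg hg1 hth hε hK
  set μ : ℝ := min ε (g / 20) with hμ
  have hμ0 : 0 < μ := lt_min hε (by positivity)
  have hμε : μ ≤ ε := min_le_left _ _
  have hμg : μ ≤ g / 20 := min_le_right _ _
  set η : ℝ := μ * min th 1 / 4 with hη
  have hm0 : 0 < min th 1 := lt_min hth one_pos
  have hη0 : 0 < η := by positivity
  have hη1 : η ≤ μ / 4 := by
    rw [hη]
    have : μ * min th 1 ≤ μ * 1 := mul_le_mul_of_nonneg_left (min_le_right _ _) hμ0.le
    linarith
  have hη2 : 4 * η ≤ μ * th := by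
    rw [hη]
    have : μ * min th 1 ≤ μ * th := mul_le_mul_of_nonneg_left (min_le_left _ _) hμ0.le
    linarith
  obtain ⟨ε0, σ, d0, hε0, hσ, H⟩ := types hE K th η hth hη0 hK
  obtain ⟨d1, hd1⟩ := exists_nat_ge (60 / (g * th))
  obtain ⟨d2, hd2⟩ := exists_nat_ge (1 / η)
  refine ⟨ε0, σ, max d0 (max d1 d2), hε0, hσ, ?_⟩
  intro V _ L _ G d Sp B lb q φ hd hBL hB hLK hq hφ hlab
  have hd0 : d0 ≤ d := (le_max_left _ _).trans hd
  have hd1' : d1 ≤ d := ((le_max_left _ _).trans (le_max_right _ _)).trans hd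
  have hd2' : d2 ≤ d := ((le_max_right _ _).trans (le_max_right _ _)).trans hd
  have hgd : 60 ≤ g * (th * d) := by
    have : 60 / (g * th) ≤ d := hd1.trans (by exact_mod_cast hd1')
    rw [div_le_iff₀ (by positivity)] at this
    linarith
  have hηd : 1 ≤ η * d := by
    have : 1 / η ≤ d := hd2.trans (by exact_mod_cast hd2')
    rw [div_le_iff₀ hη0] at this
    linarith
  have hdn : (0 : ℝ) ≤ d := Nat.cast_nonneg _
  obtain ⟨ty, hty, hdeg, hkey, hsup⟩ := H G d Sp B lb q φ none hd0 hBL.deg hBL.low hB hLK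
    hq.pos hq.sum hq.avg hφ hlab
  set ρ : ℝ := φ none with hρ
  have hρth : th ≤ ρ := hφ none
  have hρ0 : 0 ≤ ρ := hth.le.trans hρth
  set D : ℕ := min d ⌈(ρ + η) * d⌉₊ with hD
  have hDd : D ≤ d := min_le_left _ _
  have hD1 : (D : ℝ) ≤ (ρ + 2 * η) * d := by
    have h1 : (D : ℝ) ≤ (⌈(ρ + η) * d⌉₊ : ℕ) := by exact_mod_cast min_le_right _ _
    have h2 : ((⌈(ρ + η) * d⌉₊ : ℕ) : ℝ) < (ρ + η) * d + 1 :=
      Nat.ceil_lt_add_one (by positivity)
    linarith
  have hHd : ∀ v, (nb (cls G ty none) v).card ≤ D := by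
    intro v
    apply le_min
    · refine (card_le_card ?_).trans (hBL.deg v)
      intro w hw
      simp only [nb, cls, mem_filter, mem_univ, true_and] at hw ⊢
      exact hw.1
    · have h1 := (abs_le.1 (hdeg none v)).2
      have h2 : ((nb (cls G ty none) v).card : ℝ) ≤ (ρ + η) * d := by linarith
      have h3 : ((nb (cls G ty none) v).card : ℝ) ≤ (⌈(ρ + η) * d⌉₊ : ℕ) :=
        h2.trans (Nat.le_ceil _)
      exact_mod_cast h3
  have hρ1 : ρ ≤ 1 := by
    have h1 : ∑ c, ∑ l, q l c = (K : ℝ) * ∑ c, φ c := by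
      rw [Finset.mul_sum]
      refine Finset.sum_congr rfl fun c _ => ?_
      rw [hq.avg c, hLK]
    rw [Finset.sum_comm, Finset.sum_congr rfl (fun l _ => hq.sum l), Finset.sum_const,
      Finset.card_univ, hLK, nsmul_eq_mul, mul_one] at h1
    have hKr : (0 : ℝ) < K := by exact_mod_cast hK
    have h2 : (K : ℝ) * (∑ c, φ c - 1) = 0 := by linarith
    have h3 : ∑ c, φ c = 1 := by
      rcases mul_eq_zero.1 h2 with h3 | h3
      · exact absurd h3 hKr.ne'
      · linarith
    rw [← h3]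
    exact Finset.single_le_sum (fun c _ => hth.le.trans (hφ c)) (mem_univ none)
  have hDρ : ρ * d ≤ D := by
    rcases le_total d ⌈(ρ + η) * d⌉₊ with h | h
    · rw [hD, min_eq_left h]
      nlinarith
    · rw [hD, min_eq_right h]
      have := Nat.le_ceil ((ρ + η) * (d : ℝ))
      nlinarith
  have hthD : th * d ≤ D := (mul_le_mul_of_nonneg_right hρth hdn).trans hDρ
  have hDn : (0 : ℝ) ≤ D := Nat.cast_nonneg _
  have hHl : ∀ v, (1 - μ) * D ≤ ((nb (cls G ty none) v).card : ℝ) := by
    intro v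
    have h1 := (abs_le.1 (hdeg none v)).1
    have h2 : (ρ - η) * d ≤ ((nb (cls G ty none) v).card : ℝ) := by linarith
    refine le_trans ?_ h2
    have hμ1 : μ ≤ 1 := hμg.trans (by linarith)
    have h3 : (1 - μ) * (D : ℝ) ≤ (1 - μ) * ((ρ + 2 * η) * d) :=
      mul_le_mul_of_nonneg_left hD1 (by linarith)
    have h4 : (1 - μ) * (ρ + 2 * η) ≤ ρ - η := by
      have h5 : μ * th ≤ μ * ρ := mul_le_mul_of_nonneg_left hρth hμ0.le
      have h6 : 0 ≤ μ * η := by positivity
      nlinarith
    have h7 : (1 - μ) * (ρ + 2 * η) * (d : ℝ) ≤ (ρ - η) * d := mul_le_mul_of_nonneg_right h4 hdn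
    nlinarith
  have hhost := HOSTOF.host_of g ε0 ρ η (th / 100) G (cls G ty none) B d D Sp hg hg1
    (fun v w h => h.1) hBL hB hρ0 hDρ (by linarith) hHd
    (fun v => (mul_le_mul_of_nonneg_right (by linarith) hDn).trans (hHl v)) hkey hη0.le
    (by
      have h1 : 4 * η * d ≤ μ * (th * d) := by
        have := mul_le_mul_of_nonneg_right hη2 hdn
        linarith
      have h2 : μ * (th * d) ≤ g / 20 * D := mul_le_mul hμg hthD (by positivity) (by positivity)
      have h3 : 0 ≤ η * d := by positivity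
      linarith)
    (by
      have h1 : g * (th * d) ≤ g * D := mul_le_mul_of_nonneg_left hthD hg.le
      linarith)
  refine ⟨ty, D, hty, ?_, ?_, ?_, hsup⟩
  · intro c v
    refine (hdeg c v).trans ?_
    apply mul_le_mul_of_nonneg_right _ hdn
    linarith
  · rw [abs_le]
    constructor
    · have : 0 ≤ ε * d := by positivity
      linarith
    · have h1 : 2 * η * d ≤ ε * d := by
        apply mul_le_mul_of_nonneg_right _ hdn
        linarith
      linarith
  · refine ⟨hHd, ?_, hhost.1, hhost.2, ?_⟩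
    · intro v
      refine le_trans ?_ (hHl v)
      apply mul_le_mul_of_nonneg_right _ hDn
      linarith
    · have := hBL.big
      omega

end Pool.Agent.Work.MP_db9399_th.helper59
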