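import Pool.Agent.Work.MP_db9399_th.Interface

/-!
# MP_db9399, THIN: construction of the edge types from EDGX
-/

set_option autoImplicit false

namespace Pool.Agent.Work.MP_db9399_th.helper59

open Finset Classical
open Pool.Agent.Work.MP_db9399_all (nb)
open Pool.Agent.Work.MP_db9399_px (ee)
open Pool.Agent.Work.MP_db9399_lc (BL)
open Pool.Agent.Work.MP_db9399_th

universe u

namespace TYP

/-- rounding with a fixed sum -/
theorem round_sum {C : Type} [Fintype C] (x : C → ℝ) (N : ℕ) (hx : ∀ c, 0 ≤ x c)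
    (hs : ∑ c, x c = N) :
    ∃ m : C → ℕ, ∑ c, m c = N ∧ (∀ c, |(m c : ℝ) - x c| ≤ 1) ∧ ∀ c, x c = 0 → m c = 0 := by
  have hf : ∀ c, ((⌊x c⌋₊ : ℕ) : ℝ) ≤ x c := fun c => Nat.floor_le (hx c)
  have hf1 : ∀ c, x c < (⌊x c⌋₊ : ℕ) + 1 := fun c => Nat.lt_floor_add_one (x c)
  set A0 : Finset C := univ.filter (fun c => ((⌊x c⌋₊ : ℕ) : ℝ) < x c) with hA0
  have h1 : ((∑ c, ⌊x c⌋₊ : ℕ) : ℝ) ≤ N := by
    rw [← hs]
    push_cast
    exact Finset.sum_le_sum fun c _ => hf c
  have h2 : ∑ c, ⌊x c⌋₊ ≤ N := by exact_mod_cast h1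
  have h3 : N - ∑ c, ⌊x c⌋₊ ≤ A0.card := by
    have h4 : (N : ℝ) - ∑ c, ((⌊x c⌋₊ : ℕ) : ℝ) ≤ A0.card := by
      rw [← hs, ← Finset.sum_sub_distrib]
      have h5 : ∑ c, (x c - ((⌊x c⌋₊ : ℕ) : ℝ)) ≤ ∑ c, (if c ∈ A0 then (1 : ℝ) else 0) := by
        refine Finset.sum_le_sum fun c _ => ?_
        by_cases hc : c ∈ A0
        · rw [if_pos hc]
          have := hf1 c
          linarith
        · rw [if_neg hc]
          have : ¬ ((⌊x c⌋₊ : ℕ) : ℝ) < x c := fun h => hc (mem_filter.2 ⟨mem_univ _, h⟩)
          linarith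
      refine h5.trans ?_
      rw [Finset.sum_ite_mem]
      simp
    have h6 : (N : ℝ) ≤ ((∑ c, ⌊x c⌋₊ : ℕ) : ℝ) + A0.card := by
      push_cast
      linarith
    have h7 : N ≤ ∑ c, ⌊x c⌋₊ + A0.card := by exact_mod_cast h6
    omega
  obtain ⟨A, hA, hAc⟩ := Finset.exists_subset_card_eq h3
  refine ⟨fun c => ⌊x c⌋₊ + if c ∈ A then 1 else 0, ?_, ?_, ?_⟩
  · rw [Finset.sum_add_distrib, Finset.sum_ite_mem]
    simp only [Finset.univ_inter, Finset.sum_const, smul_eq_mul, mul_one]
    rw [hAc]
    omega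
  · intro c
    have e1 := hf c
    have e2 := hf1 c
    rw [abs_le]
    by_cases hc : c ∈ A
    · simp only [hc, if_true]
      push_cast
      have e3 := (mem_filter.1 (hA hc)).2
      constructor <;> linarith
    · simp only [hc, if_false]
      push_cast
      constructor <;> linarith
  · intro c hc
    have h8 : c ∉ A := by
      intro h
      have e3 := (mem_filter.1 (hA h)).2
      rw [hc] at e3
      simp at e3
    simp [h8, hc]

/-- a function with prescribed numbers of values -/
theorem fiber {α : Type u} (A : Finset α) {C : Type} [Fintype C] [Nonempty C] (m : C → ℕ)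
    (h : ∑ c, m c = A.card) :
    ∃ τ : α → C, ∀ c, (A.filter (fun a => τ a = c)).card = m c := by
  have h1 : Fintype.card {a // a ∈ A} = Fintype.card (Σ c : C, Fin (m c)) := by
    rw [Fintype.card_coe, Fintype.card_sigma]
    simp only [Fintype.card_fin]
    exact h.symm
  obtain ⟨e⟩ : Nonempty ({a // a ∈ A} ≃ (Σ c : C, Fin (m c))) := ⟨Fintype.equivOfCardEq h1⟩
  refine ⟨fun a => if ha : a ∈ A then (e ⟨a, ha⟩).1 else Classical.arbitrary C, fun c => ?_⟩
  have h2 : (univ : Finset (Fin (m c))).card = m c := by simp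
  rw [← h2]
  symm
  refine Finset.card_bij (fun j _ => (e.symm ⟨c, j⟩).1) ?_ ?_ ?_
  · intro j _
    refine mem_filter.2 ⟨(e.symm ⟨c, j⟩).2, ?_⟩
    have : (⟨(e.symm ⟨c, j⟩).1, (e.symm ⟨c, j⟩).2⟩ : {a // a ∈ A}) = e.symm ⟨c, j⟩ := rfl
    simp only [(e.symm ⟨c, j⟩).2, dif_pos]
    rw [Equiv.apply_symm_apply]
  · intro j _ j' _ hj
    have h3 := e.symm.injective (Subtype.ext hj)
    simpa using h3
  · intro a ha
    obtain ⟨ha1, ha2⟩ := mem_filter.1 ha
    simp only [ha1, dif_pos] at ha2
    obtain ⟨c', j', hc'⟩ : ∃ c' j', e ⟨a, ha1⟩ = ⟨c', j'⟩ := ⟨_, _, rfl⟩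
    rw [hc'] at ha2
    simp only at ha2
    subst ha2
    refine ⟨j', mem_univ _, ?_⟩
    rw [← hc', Equiv.symm_apply_apply]

/-- discretisation of a distribution -/
theorem disc {C : Type} [Fintype C] [Nonempty C] (p : C → ℝ) (M : ℕ) (hp : ∀ c, 0 ≤ p c)
    (hs : ∑ c, p c = 1) :
    ∃ χ : Fin M → C, (∀ c, |((univ.filter (fun i => χ i = c)).card : ℝ) - M * p c| ≤ 1) ∧
      ∀ i, 0 < p (χ i) := by
  obtain ⟨m, hm, hm1, hm0⟩ := round_sum (fun c => (M : ℝ) * p c) M
    (fun c => mul_nonneg (Nat.cast_nonneg _) (hp c)) (by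
      rw [← Finset.mul_sum, hs, mul_one])
  obtain ⟨χ, hχ⟩ := fiber (univ : Finset (Fin M)) m (by rw [hm]; simp)
  refine ⟨χ, fun c => by rw [hχ]; exact hm1 c, ?_⟩
  intro i
  rcases (hp (χ i)).lt_or_eq with h | h
  · exact h
  · exfalso
    have h1 := hm0 (χ i) (by rw [← h, mul_zero])
    have h2 := hχ (χ i)
    rw [h1, Finset.card_eq_zero, Finset.filter_eq_empty_iff] at h2
    exact h2 (mem_univ i) rfl

/-- counting the composed classes -/
theorem count {V : Type u} {C : Type} {M : ℕ} (hM : 0 < M) (A : Finset V) (f : V → Fin M)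
    (χ : Fin M → C) (c : C) (p e : ℝ) (hf : ∀ i, |((A.filter (fun w => f w = i)).card : ℝ) -
      (A.card : ℝ) / M| ≤ e)
    (hχ : |((univ.filter (fun i => χ i = c)).card : ℝ) - M * p| ≤ 1) :
    |((A.filter (fun w => χ (f w) = c)).card : ℝ) - p * A.card| ≤ M * e + (A.card : ℝ) / M := by
  have hMr : (0 : ℝ) < M := by exact_mod_cast hM
  set I : Finset (Fin M) := univ.filter (fun i => χ i = c) with hI
  have h1 : ((A.filter (fun w => χ (f w) = c)).card : ℝ) =
      ∑ i ∈ I, ((A.filter (fun w => f w = i)).card : ℝ) := by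
    have h2 : (A.filter (fun w => χ (f w) = c)).card =
        ∑ i ∈ I, ((A.filter (fun w => χ (f w) = c)).filter (fun w => f w = i)).card :=
      Finset.card_eq_sum_card_fiberwise (fun w hw => by
        rw [hI]
        exact mem_filter.2 ⟨mem_univ _, (mem_filter.1 hw).2⟩)
    rw [h2]
    push_cast
    refine Finset.sum_congr rfl fun i hi => ?_
    congr 2
    ext w
    simp only [mem_filter]
    constructor
    · rintro ⟨⟨a1, a2⟩, a3⟩
      exact ⟨a1, a3⟩
    · rintro ⟨a1, a3⟩
      have a4 : χ i = c := by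
        rw [hI] at hi
        exact (mem_filter.1 hi).2
      exact ⟨⟨a1, by rw [a3]; exact a4⟩, a3⟩
  have he0 : 0 ≤ e := le_trans (abs_nonneg _) (hf ⟨0, hM⟩)
  have h3 : |∑ i ∈ I, (((A.filter (fun w => f w = i)).card : ℝ) - (A.card : ℝ) / M)| ≤ M * e := by
    refine (Finset.abs_sum_le_sum_abs _ _).trans ?_
    refine (Finset.sum_le_sum fun i _ => hf i).trans ?_
    rw [Finset.sum_const, nsmul_eq_mul]
    refine mul_le_mul_of_nonneg_right ?_ he0
    have : I.card ≤ M := by
      have := Finset.card_le_univ I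
      simpa using this
    exact_mod_cast this
  rw [Finset.sum_sub_distrib, Finset.sum_const, nsmul_eq_mul, ← h1] at h3
  have h4 : |(I.card : ℝ) * ((A.card : ℝ) / M) - p * A.card| ≤ (A.card : ℝ) / M := by
    have h5 : (I.card : ℝ) * ((A.card : ℝ) / M) - p * A.card =
        ((I.card : ℝ) - M * p) * ((A.card : ℝ) / M) := by
      field_simp
    rw [h5, abs_mul, abs_of_nonneg (by positivity : (0 : ℝ) ≤ (A.card : ℝ) / M)]
    calc |(I.card : ℝ) - M * p| * ((A.card : ℝ) / M) ≤ 1 * ((A.card : ℝ) / M) :=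
          mul_le_mul_of_nonneg_right hχ (by positivity)
      _ = _ := one_mul _
  have h6 : ((A.filter (fun w => χ (f w) = c)).card : ℝ) - p * A.card =
      (((A.filter (fun w => χ (f w) = c)).card : ℝ) - (I.card : ℝ) * ((A.card : ℝ) / M)) +
      ((I.card : ℝ) * ((A.card : ℝ) / M) - p * A.card) := by ring
  rw [h6]
  exact (abs_add_le _ _).trans (add_le_add h3 h4)

section
variable {V : Type u} [Fintype V]

theorem nb_cls {C : Type} (G : SimpleGraph V) (ty : V → V → C) (hs : ∀ v w, ty v w = ty w v)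
    (c : C) (v : V) : nb (cls G ty c) v = (nb G v).filter (fun w => ty v w = c) := by
  ext w
  simp only [nb, cls, mem_filter, mem_univ, true_and]
  constructor
  · rintro ⟨h1, h2, -⟩
    exact ⟨h1, h2⟩
  · rintro ⟨h1, h2⟩
    exact ⟨h1, h2, by rw [hs]; exact h2⟩

/-- upper bound for the number of edges of the type `c` between two sets -/
theorem ee_count {C : Type} {M : ℕ} (hM : 0 < M) (G : SimpleGraph V) (f : V → V → Fin M)
    (hfs : ∀ v w, f v w = f w v) (χ : Fin M → C) (c : C) (p e : ℝ) (T S : Finset V) (d : ℝ)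
    (hf : ∀ i, |ee (cls G f i) T S - ee G T S / M| ≤ e)
    (hχ : |((univ.filter (fun i => χ i = c)).card : ℝ) - M * p| ≤ 1)
    (hd : ee G T S ≤ d) :
    ee (cls G (fun v w => χ (f v w)) c) T S ≤ p * ee G T S + (M * e + d / M) := by
  have hMr : (0 : ℝ) < M := by exact_mod_cast hM
  set I : Finset (Fin M) := univ.filter (fun i => χ i = c) with hI
  have he0 : 0 ≤ e := le_trans (abs_nonneg _) (hf ⟨0, hM⟩)
  have hee0 : 0 ≤ ee G T S := Finset.sum_nonneg fun _ _ => Nat.cast_nonneg _
  have h1 : ee (cls G (fun v w => χ (f v w)) c) T S = ∑ i ∈ I, ee (cls G f i) T S := by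
    unfold ee
    rw [Finset.sum_comm]
    refine Finset.sum_congr rfl fun a _ => ?_
    have h2 : (nb (cls G (fun v w => χ (f v w)) c) a ∩ S).card =
        ∑ i ∈ I, ((nb (cls G (fun v w => χ (f v w)) c) a ∩ S).filter
          (fun w => f a w = i)).card :=
      Finset.card_eq_sum_card_fiberwise (fun w hw => by
        rw [hI]
        have hw1 := (mem_inter.1 hw).1
        simp only [nb, cls, mem_filter, mem_univ, true_and] at hw1
        exact mem_filter.2 ⟨mem_univ _, hw1.2.1⟩)
    rw [h2]
    push_cast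
    refine Finset.sum_congr rfl fun i hi => ?_
    congr 2
    ext w
    have a4 : χ i = c := by
      rw [hI] at hi
      exact (mem_filter.1 hi).2
    simp only [nb, cls, mem_filter, mem_univ, true_and, mem_inter]
    constructor
    · rintro ⟨⟨⟨b1, b2, b3⟩, b4⟩, b5⟩
      exact ⟨⟨b1, b5, by rw [hfs]; exact b5⟩, b4⟩
    · rintro ⟨⟨b1, b5, b6⟩, b4⟩
      exact ⟨⟨⟨b1, by rw [b5]; exact a4, by rw [b6]; exact a4⟩, b4⟩, b5⟩
  rw [h1]
  have h3 : ∑ i ∈ I, ee (cls G f i) T S ≤ ∑ i ∈ I, (ee G T S / M + e) := by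
    refine Finset.sum_le_sum fun i _ => ?_
    have := (abs_le.1 (hf i)).2
    linarith
  refine h3.trans ?_
  rw [Finset.sum_const, nsmul_eq_mul]
  have h4 : (I.card : ℝ) ≤ M := by
    have := Finset.card_le_univ I
    have h5 : I.card ≤ M := by simpa using this
    exact_mod_cast h5
  have h6 := (abs_le.1 hχ).2
  have h7 : (I.card : ℝ) * (ee G T S / M) ≤ (M * p + 1) * (ee G T S / M) :=
    mul_le_mul_of_nonneg_right (by linarith) (by positivity)
  have h8 : (I.card : ℝ) * e ≤ M * e := mul_le_mul_of_nonneg_right h4 he0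
  have h9 : (M * p + 1) * (ee G T S / M) = p * ee G T S + ee G T S / M := by
    field_simp
  have h10 : ee G T S / M ≤ d / M := div_le_div_of_nonneg_right hd hMr.le
  calc (I.card : ℝ) * (ee G T S / M + e) = (I.card : ℝ) * (ee G T S / M) + (I.card : ℝ) * e := by
        ring
    _ ≤ (p * ee G T S + ee G T S / M) + M * e := by
        rw [← h9]; exact add_le_add h7 h8
    _ ≤ _ := by linarith

/-- the graph outside the spots -/
def Gf (G : SimpleGraph V) (Sp : Finset V) : SimpleGraph V where
  Adj v w := G.Adj v w ∧ v ∉ Sp ∧ w ∉ Sp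
  symm := ⟨fun _ _ h => ⟨h.1.symm, h.2.2, h.2.1⟩⟩
  loopless := ⟨fun v h => G.loopless.irrefl v h.1⟩

/-- the boundary edges with the label `l` -/
def Bl {L : Type} (B : SimpleGraph V) (Sp : Finset V) (lb : V → L) (l : L) : SimpleGraph V where
  Adj v w := B.Adj v w ∧ (v ∈ Sp → lb v = l) ∧ (w ∈ Sp → lb w = l)
  symm := ⟨fun _ _ h => ⟨h.1.symm, h.2.2, h.2.1⟩⟩
  loopless := ⟨fun v h => B.loopless.irrefl v h.1⟩

end

end TYP

open TYP

/-- the types (`C` any finite set of types, `ch` the host) -/
theorem types (hE : Stmt_EDGX.{u}) (K : ℕ) (th η : ℝ) (hth : 0 < th) (hη : 0 < η)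
    (hK : 0 < K) :
    ∃ (ε0 σ : ℝ) (d0 : ℕ), 0 < ε0 ∧ 0 < σ ∧
    ∀ {V : Type u} [Fintype V] {L C : Type} [Fintype L] [Fintype C] [Nonempty C]
      (G : SimpleGraph V) (d : ℕ)
      (Sp : Finset V) (B : SimpleGraph V) (lb : V → L) (q : L → C → ℝ)
      (φ : C → ℝ) (ch : C), d0 ≤ d → (∀ v, (nb G v).card ≤ d) →
      (∀ v, (1 - ε0) * d ≤ ((nb G v).card : ℝ)) → Bdry (th / 100) G d Sp B →
      Fintype.card L = K → (∀ l c, 0 ≤ q l c) → (∀ l, ∑ c, q l c = 1) →
      (∀ c, ∑ l, q l c = Fintype.card L * φ c) → (∀ c, th ≤ φ c) →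
      (∀ y, y ∉ Sp → ∀ l, |(((nb B y).filter (fun s => lb s = l)).card : ℝ) -
        (nb B y).card / K| ≤ σ * d) →
      ∃ ty : V → V → C, (∀ v w, ty v w = ty w v) ∧
        (∀ c v, |((nb (cls G ty c) v).card : ℝ) - φ c * d| ≤ η * d) ∧
        (∀ T S : Finset V, Disjoint T Sp → Disjoint S Sp →
          ee (cls G ty ch) T S ≤ φ ch * ee G T S + η * d * ((T.card : ℝ) + S.card)) ∧
        ∀ y s, B.Adj y s → s ∈ Sp → 0 < q (lb s) (ty y s) := by
  obtain ⟨M0, hM0⟩ := exists_nat_ge (8 * ((K : ℝ) + 1) / η)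
  set M : ℕ := M0 + 1 with hMdef
  have hM : 0 < M := by omega
  have hMr : (0 : ℝ) < M := by exact_mod_cast hM
  have hKr : (0 : ℝ) < K := by exact_mod_cast hK
  have hM1 : 8 * ((K : ℝ) + 1) / η ≤ M := by
    rw [hMdef]; push_cast; linarith
  have hM2 : ((K : ℝ) + 1) / M ≤ η / 8 := by
    rw [div_le_iff₀ hη] at hM1
    rw [div_le_iff₀ hMr]
    linarith
  set ε1 : ℝ := η / (8 * ((K : ℝ) + 1) * M) with hε1
  have hε1p : 0 < ε1 := by positivity
  have hε1M : ((K : ℝ) + 1) * (M * ε1) = η / 8 := by
    rw [hε1]; field_simp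
  obtain ⟨dE, hdE⟩ := hE M ε1 hM hε1p
  obtain ⟨d1, hd1⟩ := exists_nat_ge (16 / η)
  obtain ⟨d2, hd2⟩ := exists_nat_ge (4 / th)
  refine ⟨min (η / 8) (1 / 2), η / (8 * K), max dE (max d1 (max d2 1)), by positivity,
    by positivity, ?_⟩
  intro V _ L C _ _ _ G d Sp B lb q φ ch hd hdeg hlow hB hLK hqpos hqsum hqavg hφ hlab
  have hdE' : dE ≤ d := (le_max_left _ _).trans hd
  have hd1' : d1 ≤ d := ((le_max_left _ _).trans (le_max_right _ _)).trans hd
  have hd2' : d2 ≤ d :=
    ((le_max_left _ _).trans ((le_max_right _ _).trans (le_max_right _ _))).trans hd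
  have hd0' : 1 ≤ d :=
    ((le_max_right _ _).trans ((le_max_right _ _).trans (le_max_right _ _))).trans hd
  have hdr : (1 : ℝ) ≤ d := by exact_mod_cast hd0'
  have hηd : 16 ≤ η * d := by
    have : 16 / η ≤ d := hd1.trans (by exact_mod_cast hd1')
    rw [div_le_iff₀ hη] at this
    linarith
  have hthd : 4 ≤ th * d := by
    have : 4 / th ≤ d := hd2.trans (by exact_mod_cast hd2')
    rw [div_le_iff₀ hth] at this
    linarith
  have hLne : Nonempty L := Fintype.card_pos_iff.1 (by rw [hLK]; exact hK)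
  -- the average distribution
  have hφ0 : ∀ c, 0 ≤ φ c := fun c => hth.le.trans (hφ c)
  have hφ1 : ∑ c, φ c = 1 := by
    have h1 : ∑ c, ∑ l, q l c = (K : ℝ) * ∑ c, φ c := by
      rw [Finset.mul_sum]
      refine Finset.sum_congr rfl fun c _ => ?_
      rw [hqavg c, hLK]
    rw [Finset.sum_comm, Finset.sum_congr rfl (fun l _ => hqsum l), Finset.sum_const,
      Finset.card_univ, hLK, nsmul_eq_mul, mul_one] at h1
    have h2 : (K : ℝ) * (∑ c, φ c - 1) = 0 := by linarith
    rcases mul_eq_zero.1 h2 with h3 | h3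
    · exact absurd h3 hKr.ne'
    · linarith
  have hφle : ∀ c, φ c ≤ 1 := fun c => by
    rw [← hφ1]; exact Finset.single_le_sum (fun c _ => hφ0 c) (mem_univ c)
  obtain ⟨χ0, hχ0, -⟩ := disc φ M hφ0 hφ1
  have hχx : ∀ l, ∃ χ : Fin M → C,
      (∀ c, |((univ.filter (fun i => χ i = c)).card : ℝ) - M * q l c| ≤ 1) ∧
      ∀ i, 0 < q l (χ i) := fun l => disc (q l) M (hqpos l) (hqsum l)
  choose χ hχ hχp using hχx
  -- the uniform colourings
  have hGfd : ∀ v, (nb (Gf G Sp) v).card ≤ d := fun v => by
    refine (card_le_card ?_).trans (hdeg v)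
    intro w hw
    simp only [nb, Gf, mem_filter, mem_univ, true_and] at hw ⊢
    exact hw.1
  have hBld : ∀ l v, (nb (Bl B Sp lb l) v).card ≤ d := fun l v => by
    refine (card_le_card ?_).trans (hdeg v)
    intro w hw
    simp only [nb, Bl, mem_filter, mem_univ, true_and] at hw ⊢
    exact hB.le hw.1
  obtain ⟨f0, hf0s, hf0d, hf0e⟩ := hdE (Gf G Sp) d hdE' hGfd
  have hfx : ∀ l, ∃ f : V → V → Fin M, (∀ v w, f v w = f w v) ∧
      (∀ v i, |(((nb (Bl B Sp lb l) v).filter (fun w => f v w = i)).card : ℝ) -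
        (nb (Bl B Sp lb l) v).card / M| ≤ ε1 * d) := fun l => by
    obtain ⟨f, h1, h2, -⟩ := hdE (Bl B Sp lb l) d hdE' (hBld l)
    exact ⟨f, h1, h2⟩
  choose f hfs hfd using hfx
  -- the fake edges
  have hfake : ∀ s, s ∈ Sp → ∃ τ : V → C, ∀ c,
      |((((nb B s).filter (fun y => χ (lb s) (f (lb s) s y) = c)).card +
        ((nb G s \ nb B s).filter (fun y => τ y = c)).card : ℕ) : ℝ) -
          φ c * (nb G s).card| ≤ 1 := by
    intro s hs
    obtain ⟨m, hm, hm1, -⟩ := round_sum (fun c => φ c * ((nb G s).card : ℝ)) (nb G s).card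
      (fun c => mul_nonneg (hφ0 c) (Nat.cast_nonneg _)) (by
        rw [← Finset.sum_mul, hφ1, one_mul])
    set k : C → ℕ := fun c =>
      ((nb B s).filter (fun y => χ (lb s) (f (lb s) s y) = c)).card with hk
    have hkm : ∀ c, k c ≤ m c := by
      intro c
      have h1 : k c ≤ (nb B s).card := card_le_card (filter_subset _ _)
      have h2 := hB.deg s hs
      have h3 : (1 / 2) * (d : ℝ) ≤ (nb G s).card := by
        refine le_trans ?_ (hlow s)
        apply mul_le_mul_of_nonneg_right _ (by positivity)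
        have := min_le_right (η / 8) (1 / 2 : ℝ)
        linarith
      have h4 := (abs_le.1 (hm1 c)).1
      have h5 : th * ((1 / 2) * (d : ℝ)) ≤ φ c * (nb G s).card :=
        mul_le_mul (hφ c) h3 (by positivity) (hφ0 c)
      have h6 : (k c : ℝ) ≤ (nb B s).card := by exact_mod_cast h1
      have h7 : (k c : ℝ) ≤ m c := by
        nlinarith
      exact_mod_cast h7
    have hksum : ∑ c, k c = (nb B s).card := by
      rw [hk]
      exact (Finset.card_eq_sum_card_fiberwise (fun y _ => mem_univ _)).symm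
    have hBsub : nb B s ⊆ nb G s := by
      intro w hw
      simp only [nb, mem_filter, mem_univ, true_and] at hw ⊢
      exact hB.le hw
    obtain ⟨τ, hτ⟩ := fiber (nb G s \ nb B s) (fun c => m c - k c) (by
      rw [Finset.card_sdiff_of_subset hBsub, ← hm, ← hksum]
      exact Finset.sum_tsub_distrib _ (fun c _ => hkm c))
    refine ⟨τ, fun c => ?_⟩
    rw [hτ c]
    have h8 : k c + (m c - k c) = m c := by
      have := hkm c
      omega
    have h9 := hm1 c
    rw [← h8] at h9
    exact h9
  have hfake' : ∀ s, ∃ τ : V → C, s ∈ Sp → ∀ c,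
      |((((nb B s).filter (fun y => χ (lb s) (f (lb s) s y) = c)).card +
        ((nb G s \ nb B s).filter (fun y => τ y = c)).card : ℕ) : ℝ) -
          φ c * (nb G s).card| ≤ 1 := by
    intro s
    by_cases hs : s ∈ Sp
    · obtain ⟨τ, hτ⟩ := hfake s hs
      exact ⟨τ, fun _ => hτ⟩
    · exact ⟨fun _ => ch, fun h => absurd h hs⟩
  choose τ hτ using hfake'
  -- the types
  set st : V → V → C := fun s y =>
    if B.Adj s y then χ (lb s) (f (lb s) s y) else τ s y with hst
  set ty : V → V → C := fun v w =>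
    if v ∈ Sp ∧ w ∉ Sp then st v w else if w ∈ Sp ∧ v ∉ Sp then st w v else χ0 (f0 v w)
    with hty
  have htys : ∀ v w, ty v w = ty w v := by
    intro v w
    simp only [hty]
    by_cases hv : v ∈ Sp <;> by_cases hw : w ∈ Sp <;> simp [hv, hw, hf0s v w]
  have hty1 : ∀ s y, s ∈ Sp → y ∉ Sp → ty s y = st s y := by
    intro s y hs hy
    simp [hty, hs, hy]
  have hty2 : ∀ v w, v ∉ Sp → w ∉ Sp → ty v w = χ0 (f0 v w) := by
    intro v w hv hw
    simp [hty, hv, hw]
  have hout : ∀ s ∈ Sp, ∀ y ∈ nb G s, y ∉ Sp := by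
    intro s hs y hy hy'
    simp only [nb, mem_filter, mem_univ, true_and] at hy
    exact hB.ind s hs y hy' hy
  refine ⟨ty, htys, ?_, ?_, ?_⟩
  · intro c v
    rw [nb_cls G ty htys]
    have hlowv := hlow v
    have hdegv : ((nb G v).card : ℝ) ≤ d := by exact_mod_cast hdeg v
    have hgd : |φ c * ((nb G v).card : ℝ) - φ c * d| ≤ η / 8 * d := by
      rw [← mul_sub, abs_mul, abs_of_nonneg (hφ0 c)]
      have h1 : |((nb G v).card : ℝ) - d| ≤ η / 8 * d := by
        rw [abs_le]
        constructor
        · have h2 : (1 - η / 8) * (d : ℝ) ≤ (1 - min (η / 8) (1 / 2)) * d := by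
            apply mul_le_mul_of_nonneg_right _ (by positivity)
            have := min_le_left (η / 8) (1 / 2 : ℝ)
            linarith
          nlinarith
        · have : 0 ≤ η / 8 * (d : ℝ) := by positivity
          linarith
      calc φ c * |((nb G v).card : ℝ) - d| ≤ 1 * (η / 8 * d) :=
            mul_le_mul (hφle c) h1 (abs_nonneg _) (by norm_num)
        _ = _ := one_mul _
    by_cases hv : v ∈ Sp
    · -- spot vertices
      have h1 : (nb G v).filter (fun w => ty v w = c) =
          ((nb B v).filter (fun y => χ (lb v) (f (lb v) v y) = c)) ∪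
          ((nb G v \ nb B v).filter (fun y => τ v y = c)) := by
        ext w
        simp only [mem_filter, mem_union, mem_sdiff]
        by_cases hw : w ∈ nb G v
        · have hw' := hout v hv w hw
          rw [hty1 v w hv hw']
          by_cases hb : w ∈ nb B v
          · have hb' : B.Adj v w := by simpa [nb] using hb
            simp [hst, hb, hb', hw]
          · have hb' : ¬ B.Adj v w := by simpa [nb] using hb
            simp [hst, hb, hb', hw]
        · have hb : w ∉ nb B v := by
            intro h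
            apply hw
            simp only [nb, mem_filter, mem_univ, true_and] at h ⊢
            exact hB.le h
          simp [hw, hb]
      have hdis : Disjoint ((nb B v).filter (fun y => χ (lb v) (f (lb v) v y) = c))
          ((nb G v \ nb B v).filter (fun y => τ v y = c)) := by
        rw [Finset.disjoint_left]
        intro w h2 h3
        exact (mem_sdiff.1 (mem_filter.1 h3).1).2 (mem_filter.1 h2).1
      rw [h1, card_union_of_disjoint hdis]
      have h2 := hτ v hv c
      have h3 : (((((nb B v).filter (fun y => χ (lb v) (f (lb v) v y) = c)).card +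
        ((nb G v \ nb B v).filter (fun y => τ v y = c)).card : ℕ) : ℝ)) - φ c * d =
        ((((((nb B v).filter (fun y => χ (lb v) (f (lb v) v y) = c)).card +
        ((nb G v \ nb B v).filter (fun y => τ v y = c)).card : ℕ) : ℝ)) - φ c * (nb G v).card) +
        (φ c * ((nb G v).card : ℝ) - φ c * d) := by ring
      rw [h3]
      refine (abs_add_le _ _).trans ?_
      linarith
    · -- the other vertices
      set X := (nb G v).filter (fun w => ty v w = c) with hX
      -- free edges
      have hXf : X ∩ nb (Gf G Sp) v = (nb (Gf G Sp) v).filter (fun w => χ0 (f0 v w) = c) := by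
        ext w
        simp only [hX, mem_inter, mem_filter]
        constructor
        · rintro ⟨⟨h1, h2⟩, h3⟩
          have hw : w ∉ Sp := by
            simp only [nb, Gf, mem_filter, mem_univ, true_and] at h3
            exact h3.2.2
          exact ⟨h3, by rw [← hty2 v w hv hw]; exact h2⟩
        · rintro ⟨h3, h2⟩
          have h3' := h3
          simp only [nb, Gf, mem_filter, mem_univ, true_and] at h3'
          refine ⟨⟨?_, by rw [hty2 v w hv h3'.2.2]; exact h2⟩, h3⟩
          simp only [nb, mem_filter, mem_univ, true_and]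
          exact h3'.1
      have hc0 := count hM (nb (Gf G Sp) v) (f0 v) χ0 c (φ c) (ε1 * d) (hf0d v) (hχ0 c)
      -- boundary edges
      have hBSp : ∀ w ∈ nb B v, w ∈ Sp := by
        intro w hw
        simp only [nb, mem_filter, mem_univ, true_and] at hw
        by_contra h
        exact hv ((hB.one v w hw).2 h)
      have hBl : ∀ l, nb (Bl B Sp lb l) v = (nb B v).filter (fun w => lb w = l) := by
        intro l
        ext w
        simp only [nb, Bl, mem_filter, mem_univ, true_and]
        constructor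
        · rintro ⟨h1, -, h3⟩
          exact ⟨h1, h3 (hBSp w (by simpa [nb] using h1))⟩
        · rintro ⟨h1, h2⟩
          exact ⟨h1, fun h => absurd h hv, fun _ => h2⟩
      have hXb : ((X ∩ nb B v).card : ℝ) =
          ∑ l, (((nb (Bl B Sp lb l) v).filter (fun w => χ l (f l v w) = c)).card : ℝ) := by
        have h1 : (X ∩ nb B v).card = ∑ l, ((X ∩ nb B v).filter (fun w => lb w = l)).card :=
          Finset.card_eq_sum_card_fiberwise (fun w _ => mem_univ _)
        rw [h1]
        push_cast
        refine Finset.sum_congr rfl fun l _ => ?_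
        congr 2
        ext w
        rw [hBl]
        simp only [hX, mem_filter, mem_inter]
        constructor
        · rintro ⟨⟨⟨h2, h3⟩, h4⟩, h5⟩
          refine ⟨⟨h4, h5⟩, ?_⟩
          have hw := hBSp w h4
          rw [htys, hty1 w v hw hv] at h3
          have hb' : B.Adj w v := by
            have : B.Adj v w := by simpa [nb] using h4
            exact this.symm
          simp only [hst, hb', if_true] at h3
          rw [← h5, hfs]
          exact h3
        · rintro ⟨⟨h4, h5⟩, h3⟩
          have hw := hBSp w h4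
          have hb' : B.Adj w v := by
            have : B.Adj v w := by simpa [nb] using h4
            exact this.symm
          refine ⟨⟨⟨?_, ?_⟩, h4⟩, h5⟩
          · simp only [nb, mem_filter, mem_univ, true_and]
            exact hB.le hb'.symm
          · rw [htys, hty1 w v hw hv]
            simp only [hst, hb', if_true]
            rw [← h5, hfs] at h3
            exact h3
      have hcl : ∀ l, |(((nb (Bl B Sp lb l) v).filter (fun w => χ l (f l v w) = c)).card : ℝ) -
          q l c * ((nb B v).card / K)| ≤ M * (ε1 * d) + d / M + η / (8 * K) * d := by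
        intro l
        have h1 := count hM (nb (Bl B Sp lb l) v) (f l v) (χ l) c (q l c) (ε1 * d) (hfd l v)
          (hχ l c)
        have h2 := hlab v hv l
        rw [← hBl l] at h2
        have hq1 : q l c ≤ 1 := by
          rw [← hqsum l]
          exact Finset.single_le_sum (fun c _ => hqpos l c) (mem_univ c)
        have h3 : |q l c * ((nb (Bl B Sp lb l) v).card : ℝ) - q l c * ((nb B v).card / K)| ≤
            η / (8 * K) * d := by
          rw [← mul_sub, abs_mul, abs_of_nonneg (hqpos l c)]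
          calc q l c * |((nb (Bl B Sp lb l) v).card : ℝ) - (nb B v).card / K| ≤
                1 * (η / (8 * K) * d) := mul_le_mul hq1 h2 (abs_nonneg _) (by norm_num)
            _ = _ := one_mul _
        have h4 : ((nb (Bl B Sp lb l) v).card : ℝ) / M ≤ d / M := by
          apply div_le_div_of_nonneg_right _ hMr.le
          exact_mod_cast hBld l v
        have h5 : (((nb (Bl B Sp lb l) v).filter (fun w => χ l (f l v w) = c)).card : ℝ) -
            q l c * ((nb B v).card / K) =
            ((((nb (Bl B Sp lb l) v).filter (fun w => χ l (f l v w) = c)).card : ℝ) -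
              q l c * ((nb (Bl B Sp lb l) v).card : ℝ)) +
            (q l c * ((nb (Bl B Sp lb l) v).card : ℝ) - q l c * ((nb B v).card / K)) := by
          ring
        rw [h5]
        refine (abs_add_le _ _).trans ?_
        linarith
      have hbsum : |((X ∩ nb B v).card : ℝ) - φ c * (nb B v).card| ≤
          K * (M * (ε1 * d) + d / M + η / (8 * K) * d) := by
        have h1 : φ c * ((nb B v).card : ℝ) = ∑ l, q l c * ((nb B v).card / K) := by
          rw [← Finset.sum_mul, hqavg c, hLK]
          field_simp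
        rw [hXb, h1, ← Finset.sum_sub_distrib]
        refine (Finset.abs_sum_le_sum_abs _ _).trans ?_
        refine (Finset.sum_le_sum fun l _ => hcl l).trans ?_
        rw [Finset.sum_const, Finset.card_univ, hLK, nsmul_eq_mul]
      -- all together
      have hpart : ∀ Y : Finset V, Y ⊆ nb G v → Y.card =
          (Y ∩ nb (Gf G Sp) v).card + (Y ∩ nb B v).card +
            (Y ∩ ((nb G v ∩ Sp) \ nb B v)).card := by
        intro Y hY
        have h1 : Disjoint (Y ∩ nb (Gf G Sp) v) (Y ∩ nb B v) := by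
          rw [Finset.disjoint_left]
          intro w h2 h3
          have h4 := (mem_inter.1 h2).2
          simp only [nb, Gf, mem_filter, mem_univ, true_and] at h4
          exact h4.2.2 (hBSp w (mem_inter.1 h3).2)
        have h2 : Disjoint (Y ∩ nb (Gf G Sp) v ∪ Y ∩ nb B v)
            (Y ∩ ((nb G v ∩ Sp) \ nb B v)) := by
          rw [Finset.disjoint_left]
          intro w h3 h4
          have h5 := mem_sdiff.1 (mem_inter.1 h4).2
          rcases mem_union.1 h3 with h6 | h6
          · have h7 := (mem_inter.1 h6).2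
            simp only [nb, Gf, mem_filter, mem_univ, true_and] at h7
            exact h7.2.2 (mem_inter.1 h5.1).2
          · exact h5.2 (mem_inter.1 h6).2
        rw [← card_union_of_disjoint h1, ← card_union_of_disjoint h2]
        congr 1
        ext w
        simp only [mem_union, mem_inter, mem_sdiff]
        constructor
        · intro hw
          have hw' := hY hw
          by_cases hs : w ∈ Sp
          · by_cases hb : w ∈ nb B v
            · exact Or.inl (Or.inr ⟨hw, hb⟩)
            · exact Or.inr ⟨hw, ⟨hw', hs⟩, hb⟩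
          · refine Or.inl (Or.inl ⟨hw, ?_⟩)
            simp only [nb, Gf, mem_filter, mem_univ, true_and] at hw' ⊢
            exact ⟨hw', hv, hs⟩
        · rintro ((h | h) | h)
          · exact h.1
          · exact h.1
          · exact h.1
      have hpX := hpart X (filter_subset _ _)
      have hpG := hpart (nb G v) (Subset.refl _)
      have hfk := hB.fak v hv
      have hGfsub : nb (Gf G Sp) v ⊆ nb G v := by
        intro w hw
        simp only [nb, Gf, mem_filter, mem_univ, true_and] at hw ⊢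
        exact hw.1
      have hBsub : nb B v ⊆ nb G v := by
        intro w hw
        simp only [nb, mem_filter, mem_univ, true_and] at hw ⊢
        exact hB.le hw
      have hfsub : (nb G v ∩ Sp) \ nb B v ⊆ nb G v :=
        sdiff_subset.trans inter_subset_left
      rw [Finset.inter_eq_right.2 hGfsub, Finset.inter_eq_right.2 hBsub,
        Finset.inter_eq_right.2 hfsub] at hpG
      have hXk : (X ∩ ((nb G v ∩ Sp) \ nb B v)).card ≤ 1 :=
        (card_le_card inter_subset_right).trans hfk
      have hpX' : (X.card : ℝ) = (X ∩ nb (Gf G Sp) v).card + (X ∩ nb B v).card +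
          (X ∩ ((nb G v ∩ Sp) \ nb B v)).card := by exact_mod_cast hpX
      have hpG' : ((nb G v).card : ℝ) = (nb (Gf G Sp) v).card + (nb B v).card +
          ((nb G v ∩ Sp) \ nb B v).card := by exact_mod_cast hpG
      have hXk' : ((X ∩ ((nb G v ∩ Sp) \ nb B v)).card : ℝ) ≤ 1 := by exact_mod_cast hXk
      have hfk' : (((nb G v ∩ Sp) \ nb B v).card : ℝ) ≤ 1 := by exact_mod_cast hfk
      have hX0 : (0 : ℝ) ≤ (X ∩ ((nb G v ∩ Sp) \ nb B v)).card := Nat.cast_nonneg _
      have hf0' : (0 : ℝ) ≤ ((nb G v ∩ Sp) \ nb B v).card := Nat.cast_nonneg _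
      rw [← hXf] at hc0
      have hGfM : ((nb (Gf G Sp) v).card : ℝ) / M ≤ d / M := by
        apply div_le_div_of_nonneg_right _ hMr.le
        exact_mod_cast hGfd v
      have hK1 : (K : ℝ) * (η / (8 * K) * d) = η / 8 * d := by
        field_simp
      have hsum : (M * (ε1 * d) + d / M) + K * (M * (ε1 * d) + d / M + η / (8 * K) * d) ≤
          3 * (η / 8 * d) := by
        have h1 : (M * (ε1 * d) + d / M) + K * (M * (ε1 * d) + d / M + η / (8 * K) * d) =
            (((K : ℝ) + 1) * (M * ε1)) * d + (((K : ℝ) + 1) / M) * d +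
              K * (η / (8 * K) * d) := by
          ring
        rw [h1, hε1M, hK1]
        have h2 : (((K : ℝ) + 1) / M) * d ≤ η / 8 * d :=
          mul_le_mul_of_nonneg_right hM2 (by positivity)
        linarith
      have hff : |φ c * ((((nb G v ∩ Sp) \ nb B v).card : ℕ) : ℝ)| ≤ 1 := by
        rw [abs_of_nonneg (mul_nonneg (hφ0 c) hf0')]
        calc φ c * ((((nb G v ∩ Sp) \ nb B v).card : ℕ) : ℝ) ≤ 1 * 1 :=
              mul_le_mul (hφle c) hfk' hf0' (by norm_num)
          _ = 1 := by norm_num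
      have h1 := abs_le.1 hc0
      have h2 := abs_le.1 hbsum
      have h3 := abs_le.1 hgd
      have h4 := abs_le.1 hff
      rw [hpG'] at h3
      rw [hpX', abs_le]
      constructor <;> nlinarith [h1.1, h1.2, h2.1, h2.2, h3.1, h3.2, h4.1, h4.2]
  · intro T S hT hS
    have hTS : ee (cls G ty ch) T S =
        ee (cls (Gf G Sp) (fun v w => χ0 (f0 v w)) ch) T S := by
      unfold ee
      refine Finset.sum_congr rfl fun a ha => ?_
      congr 2
      ext w
      have ha' : a ∉ Sp := Finset.disjoint_left.1 hT ha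
      simp only [nb, cls, Gf, mem_inter, mem_filter, mem_univ, true_and]
      constructor
      · rintro ⟨⟨h1, h2, h3⟩, h4⟩
        have hw : w ∉ Sp := Finset.disjoint_left.1 hS h4
        refine ⟨⟨⟨h1, ha', hw⟩, ?_, ?_⟩, h4⟩
        · rw [← hty2 a w ha' hw]; exact h2
        · rw [← hty2 w a hw ha']; exact h3
      · rintro ⟨⟨⟨h1, h5, h6⟩, h2, h3⟩, h4⟩
        refine ⟨⟨h1, ?_, ?_⟩, h4⟩
        · rw [hty2 a w ha' h6]; exact h2
        · rw [hty2 w a h6 ha']; exact h3
    have hGG : ee (Gf G Sp) T S = ee G T S := by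
      unfold ee
      refine Finset.sum_congr rfl fun a ha => ?_
      congr 2
      ext w
      have ha' : a ∉ Sp := Finset.disjoint_left.1 hT ha
      simp only [nb, Gf, mem_inter, mem_filter, mem_univ, true_and]
      constructor
      · rintro ⟨⟨h1, -, -⟩, h4⟩
        exact ⟨h1, h4⟩
      · rintro ⟨h1, h4⟩
        exact ⟨⟨h1, ha', Finset.disjoint_left.1 hS h4⟩, h4⟩
    have hdT : ee (Gf G Sp) T S ≤ d * ((T.card : ℝ) + S.card) := by
      have h1 : ee (Gf G Sp) T S ≤ d * T.card := by
        unfold ee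
        have : ∑ a ∈ T, ((nb (Gf G Sp) a ∩ S).card : ℝ) ≤ ∑ a ∈ T, (d : ℝ) := by
          refine Finset.sum_le_sum fun a _ => ?_
          exact_mod_cast (card_le_card inter_subset_left).trans (hGfd a)
        rw [Finset.sum_const, nsmul_eq_mul] at this
        linarith
      have h2 : (0 : ℝ) ≤ d * S.card := by positivity
      linarith
    have h1 := ee_count hM (Gf G Sp) f0 hf0s χ0 ch (φ ch) (ε1 * d * ((T.card : ℝ) + S.card))
      T S (d * ((T.card : ℝ) + S.card)) (fun i => hf0e i T S) (hχ0 ch) hdT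
    rw [hTS]
    refine h1.trans ?_
    rw [hGG]
    have hX : (0 : ℝ) ≤ d * ((T.card : ℝ) + S.card) := by positivity
    have hMe : (M : ℝ) * ε1 ≤ η / 8 := by
      have h2 : (M : ℝ) * ε1 ≤ ((K : ℝ) + 1) * (M * ε1) := by
        have : 0 ≤ (M : ℝ) * ε1 := by positivity
        nlinarith
      linarith
    have h1M : (1 : ℝ) / M ≤ η / 8 := by
      refine le_trans ?_ hM2
      apply div_le_div_of_nonneg_right _ hMr.le
      linarith
    have h2 : (M : ℝ) * (ε1 * d * ((T.card : ℝ) + S.card)) ≤
        η / 8 * (d * ((T.card : ℝ) + S.card)) := by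
      calc (M : ℝ) * (ε1 * d * ((T.card : ℝ) + S.card)) =
            (M * ε1) * (d * ((T.card : ℝ) + S.card)) := by ring
        _ ≤ _ := mul_le_mul_of_nonneg_right hMe hX
    have h3 : (d : ℝ) * ((T.card : ℝ) + S.card) / M ≤ η / 8 * (d * ((T.card : ℝ) + S.card)) := by
      calc (d : ℝ) * ((T.card : ℝ) + S.card) / M = (1 / M) * (d * ((T.card : ℝ) + S.card)) := by
            ring
        _ ≤ _ := mul_le_mul_of_nonneg_right h1M hX
    have h4 : 0 ≤ η * (d * ((T.card : ℝ) + S.card)) := by positivity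
    linarith
  · intro y s hys hs
    have hy : y ∉ Sp := fun h => ((hB.one y s hys).1 h) hs
    rw [htys, hty1 s y hs hy]
    simp only [hst, hys.symm, if_true]
    exact hχp _ _

end Pool.Agent.Work.MP_db9399_th.helper59
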